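import Pool.Agent.helper8.VM.Dec

set_option autoImplicit false

open SimpleGraph

/-! # MP_be123d_co, block BRIDGE (from integer labellings to total labellings; ~250 lines)
Replace the sorries in place; proof hints: /team-store/h8_vm_notes.md. -/

namespace Pool.Agent.helper8.VM

theorem of_labelable {V : Type} [Fintype V] [DecidableEq V] (G : SimpleGraph V)
    [DecidableRel G.Adj] {cs : List (List V)} (hc : CycDec G cs) (hL : Labelable (lens cs)) :
    ∃ f : V ⊕ G.edgeSet → ℕ, Function.Injective f ∧
      (∀ x, 1 ≤ f x ∧ f x ≤ Fintype.card V + Fintype.card G.edgeSet) ∧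
      (∀ v : V, Fintype.card G.edgeSet < f (Sum.inl v)) ∧
      ∃ k : ℕ, ∀ x : V,
        f (Sum.inl x) + ∑ e ∈ Finset.univ.filter (fun e : G.edgeSet => x ∈ (e : Sym2 V)),
          f (Sum.inr e) = k := sorry

end Pool.Agent.helper8.VM
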