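import Pool.Agent.helper8.VM.Walls

set_option autoImplicit false

/-! # MP_be123d_co: kernel-friendly checkers for left parts and slabs

A piece is packed into one natural number, base 4096, least significant digit first; every digit is
a label code `> 0`, the digit `0` separates the components.  The checkers accumulate
`∑ (x + 2 ^ (64 + x))` over all labels `x` and `∑ 2 ^ (sc a b)` over all edges `a b`, and compare
the result with a target value.  (The low 64 bits only serve to keep the hashes of the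
intermediate literals distinct.) -/

namespace Pool.Agent.helper8.VM

/-- evaluates `n` before it is substituted (for the kernel) -/
@[reducible] def force {α : Type} (n : ℕ) (f : ℕ → α) : α :=
  Nat.rec (motive := fun _ => α) (f 0) (fun k _ => f (Nat.succ k)) n

/-- processes the digits of one component which starts after the label `prev` and is closed by an
edge to `first`; calls `cont` with the remaining digits, the accumulated value and the length -/
def comp (sc : ℕ → ℕ → ℕ) (cont : ℕ → ℕ → ℕ → Bool) (first : ℕ) (fuel : ℕ) :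
    (d acc prev len : ℕ) → Bool :=
  Nat.rec (motive := fun _ => ℕ → ℕ → ℕ → ℕ → Bool) (fun _ _ _ _ => false)
    (fun _ ih d acc prev len =>
      Nat.rec (motive := fun _ => Bool)
        (force (Nat.add acc (Nat.shiftLeft 1 (sc prev first))) fun acc' => cont 0 acc' len)
        (fun dd _ =>
          Nat.rec (motive := fun _ => Bool)
            (force (Nat.div (Nat.succ dd) 4096) fun d' =>
              force (Nat.add acc (Nat.shiftLeft 1 (sc prev first))) fun acc' => cont d' acc' len)
            (fun xx _ =>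
              force (Nat.add acc (Nat.add (Nat.succ xx)
                (Nat.add (Nat.shiftLeft 1 (Nat.add 64 (Nat.succ xx)))
                  (Nat.shiftLeft 1 (sc prev (Nat.succ xx)))))) fun acc' =>
                ih (Nat.div (Nat.succ dd) 4096) acc' (Nat.succ xx) (Nat.succ len))
            (Nat.mod (Nat.succ dd) 4096))
        d)
    fuel

/-- processes closed components (cycles); `ls` collects the lengths -/
def cycs (sc : ℕ → ℕ → ℕ) (fin : ℕ → List ℕ → Bool) (fuel : ℕ) :
    (d acc : ℕ) → (ls : List ℕ) → Bool :=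
  Nat.rec (motive := fun _ => ℕ → ℕ → List ℕ → Bool) (fun _ _ _ => false)
    (fun _ ih d acc ls =>
      Nat.rec (motive := fun _ => Bool)
        (fin acc ls)
        (fun dd _ =>
          force (Nat.mod (Nat.succ dd) 4096) fun y =>
          force (Nat.div (Nat.succ dd) 4096) fun d' =>
          force (Nat.add acc (Nat.add y (Nat.shiftLeft 1 (Nat.add 64 y)))) fun acc' =>
            comp sc (fun d'' acc'' len => cond (Nat.ble 3 len) (ih d'' acc'' (len :: ls)) false)
              y 200 d' acc' y 1)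
        d)
    fuel

/-- weight of a list of labels -/
def wtL (l : List ℕ) : ℕ := (l.map fun x => x + 2 ^ (64 + x)).sum
/-- weight of a list of sum codes -/
def wtS (l : List ℕ) : ℕ := (l.map fun x => 2 ^ x).sum
/-- codes of the edges of a path -/
def adjc (sc : ℕ → ℕ → ℕ) : List ℕ → List ℕ
  | [] => []
  | [_] => []
  | a :: b :: l => sc a b :: adjc sc (b :: l)
/-- codes of the edges of a cycle -/
def cycc (sc : ℕ → ℕ → ℕ) : List ℕ → List ℕ
  | [] => []
  | a :: l => adjc sc (a :: l ++ [a])

/-- sum of a list (kernel friendly) -/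
def lsum (ls : List ℕ) : ℕ := List.rec (motive := fun _ => ℕ) 0 (fun x _ ih => Nat.add x ih) ls

/-! ## left parts -/

/-- label codes of left parts -/
def encL (a : A) : ℕ := ((a.1 + 4) * 512 + (a.2 + 128)).toNat
def decL (d : ℕ) : A := (((d / 512 : ℕ) : ℤ) - 4, ((d % 512 : ℕ) : ℤ) - 128)
/-- sum codes of left parts (already shifted by 4160) -/
def encS (a : A) : ℕ := ((a.1 + 8) * 512 + (a.2 + 256)).toNat + 4160
def decS (d : ℕ) : A := ((((d - 4160) / 512 : ℕ) : ℤ) - 8, (((d - 4160) % 512 : ℕ) : ℤ) - 256)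
/-- sum code of an edge of a left part -/
@[reducible] def scL (a b : ℕ) : ℕ := Nat.add 4160 (Nat.add a b)

/-- the labels of a left part -/
def leftLl (w : Wall) (k : ℕ) : List A :=
  w.bL ++ (List.range k).flatMap fun (i : ℕ) => [w.X (5 + i), w.Y (5 + i), w.R (5 + i)]
/-- the sums of a flat left part -/
def leftSl (w : Wall) (k : ℕ) : List A :=
  w.bS ++ (List.range k).flatMap fun (i : ℕ) => [w.W (5 + i), w.U (5 + i), w.V (5 + i)]
def Node.exl (ν : Node) (w : Wall) (t : ℤ) : List A :=
  (ν.exU.map fun e => w.U (t + e)) ++ (ν.exV.map fun e => w.V (t + e))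
def Node.msl (ν : Node) (w : Wall) (t : ℤ) : List A :=
  (ν.msU.map fun e => w.U (t + e)) ++ (ν.msV.map fun e => w.V (t + e))

/-- required sums of a left part; `op` : there is an open path of the first kind -/
def reqS (w : Wall) (ν : Node) (k : ℕ) (op : Bool) : List A :=
  (leftSl w k ++ ν.exl w (k + 5) ++
    (if op then [ν.u.at w (k + 5) + ν.v.at w (k + 5)] else [])).diff (ν.msl w (k + 5))

/-- the parameters are consistent (checked once) -/
def okL (w : Wall) (ν : Node) (k : ℕ) (op : Bool) : Bool :=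
  decide ((reqS w ν k op ++ ν.msl w (k + 5)).Perm (leftSl w k ++ ν.exl w (k + 5) ++
    (if op then [ν.u.at w (k + 5) + ν.v.at w (k + 5)] else []))) &&
  (leftLl w k).all (fun a => decL (encL a) == a && encL a % 512 < 256 && 0 < encL a && encL a < 4096) &&
  (reqS w ν k op).all (fun a => decS (encS a) == a) &&
  decide ((leftLl w k).map encL).Nodup && decide ((reqS w ν k op).map encS).Nodup &&
  (leftLl w k).length < 256 &&
  decL (encL (ν.u.at w (k + 5))) == ν.u.at w (k + 5) && encL (ν.u.at w (k + 5)) % 512 < 256 &&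
  decL (encL (ν.v.at w (k + 5))) == ν.v.at w (k + 5) && encL (ν.v.at w (k + 5)) % 512 < 256 &&
  encL (ν.u.at w (k + 5)) < 4096 && encL (ν.v.at w (k + 5)) < 4096 &&
  (reqS w ν k op).length == (leftLl w k).length + (if op then 1 else 0)

/-- the target value -/
def tgtL (w : Wall) (ν : Node) (k : ℕ) (op : Bool) : ℕ :=
  wtL ((leftLl w k).map encL) + wtS ((reqS w ν k op).map encS)

/-- closed left part -/
def pcLC (m n : ℕ) (cb : List ℕ → Bool) (d : ℕ) : Bool :=
  cycs scL (fun acc ls => Nat.beq acc m && (Nat.beq (lsum ls) n && cb ls)) 64 d 0 []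

/-- open left part of the first kind; `u`, `v` are the codes of the end labels -/
def pcLO (m n u v : ℕ) (cb : ℕ → List ℕ → Bool) (d : ℕ) : Bool :=
  comp scL (fun d' acc' len => cycs scL (fun acc ls =>
    Nat.beq acc m && (Nat.beq (Nat.add len (lsum ls)) n && (Nat.ble 1 len && cb len ls))) 64 d' acc' [])
    v 200 d 0 u 0

/-- open left part of the second kind (the cycle through the edge `u v` comes first in the data,
without its labels `u` and `v`) -/
def pcLE (m n u v : ℕ) (cb : ℕ → List ℕ → Bool) (d : ℕ) : Bool :=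
  comp scL (fun d' acc' len => cycs scL (fun acc ls =>
    Nat.beq acc m && (Nat.beq (Nat.add len (lsum ls)) n && (Nat.ble 3 len && cb len ls))) 64 d' acc' [])
    v 200 d (wtL [u, v] + 2 ^ scL v u) u 2

/-! ## slabs -/

/-- label codes of slabs: `3 i + c + 1` for the index `i ≥ 0` and the class `c` (X, Y, R) -/
def symL (w : Wall) (t : ℤ) (x : ℕ) : A :=
  match (x - 1) % 3 with
  | 0 => w.X (t + ((x - 1) / 3 : ℕ))
  | 1 => w.Y (t + ((x - 1) / 3 : ℕ))
  | _ => w.R (t + ((x - 1) / 3 : ℕ))
/-- sum codes of slabs: `3 (i + 64) + c + 1 + 4160` for the index `i` and the class `c` (W, U, V) -/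
def symS (w : Wall) (t : ℤ) (x : ℕ) : A :=
  match (x - 4161) % 3 with
  | 0 => w.W (t + ((x - 4161) / 3 : ℕ) - 64)
  | 1 => w.U (t + ((x - 4161) / 3 : ℕ) - 64)
  | _ => w.V (t + ((x - 4161) / 3 : ℕ) - 64)

/-- sum code of an edge of a slab (`4160` if there is no such edge) -/
def scW (a b : ℕ) : ℕ :=
  force (Nat.div (Nat.sub a 1) 3) fun i => force (Nat.div (Nat.sub b 1) 3) fun j =>
  Nat.rec (motive := fun _ => ℕ)
    -- a is X
    (Nat.rec (motive := fun _ => ℕ) 4160
      (fun c _ => Nat.rec (motive := fun _ => ℕ)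
        -- b is Y
        (Nat.rec (motive := fun _ => ℕ) (Nat.add 4161 (Nat.mul 3 (Nat.add 64 (Nat.div (Nat.add i j) 2))))
          (fun _ _ => 4160) (Nat.mod (Nat.add i j) 2))
        -- b is R
        (fun _ _ => Nat.add 4162 (Nat.mul 3 (Nat.sub (Nat.add 64 (Nat.mul 2 j)) i))) c)
      (Nat.mod (Nat.sub b 1) 3))
    (fun c _ => Nat.rec (motive := fun _ => ℕ)
      -- a is Y
      (Nat.rec (motive := fun _ => ℕ)
        -- b is X
        (Nat.rec (motive := fun _ => ℕ) (Nat.add 4161 (Nat.mul 3 (Nat.add 64 (Nat.div (Nat.add i j) 2))))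
          (fun _ _ => 4160) (Nat.mod (Nat.add i j) 2))
        (fun c' _ => Nat.rec (motive := fun _ => ℕ) 4160
          -- b is R
          (fun _ _ => Nat.add 4163 (Nat.mul 3 (Nat.sub (Nat.add 64 (Nat.mul 2 j)) i))) c')
        (Nat.mod (Nat.sub b 1) 3))
      -- a is R
      (fun _ _ => Nat.rec (motive := fun _ => ℕ)
        -- b is X
        (Nat.add 4162 (Nat.mul 3 (Nat.sub (Nat.add 64 (Nat.mul 2 i)) j)))
        (fun c' _ => Nat.rec (motive := fun _ => ℕ)
          -- b is Y
          (Nat.add 4163 (Nat.mul 3 (Nat.sub (Nat.add 64 (Nat.mul 2 i)) j)))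
          (fun _ _ => 4160) c')
        (Nat.mod (Nat.sub b 1) 3)) c)
    (Nat.mod (Nat.sub a 1) 3)

/-- code of a symbolic label with index relative to the left cut of the slab -/
def Lab.code (o : ℕ) : Lab → ℕ
  | .X i => (3 * (o + i) + 1).toNat
  | .Y i => (3 * (o + i) + 2).toNat
  | .R i => (3 * (o + i) + 3).toNat

/-- extra sums as codes, for the cut at relative index `o` -/
def Node.exc (ν : Node) (o : ℕ) : List ℕ :=
  (ν.exU.map fun e => (3 * ((o : ℤ) + e + 64) + 4162).toNat) ++
  (ν.exV.map fun e => (3 * ((o : ℤ) + e + 64) + 4163).toNat)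
/-- missing sums as codes -/
def Node.msc (ν : Node) (o : ℕ) : List ℕ :=
  (ν.msU.map fun e => (3 * ((o : ℤ) + e + 64) + 4162).toNat) ++
  (ν.msV.map fun e => (3 * ((o : ℤ) + e + 64) + 4163).toNat)

/-- required sums of a slab; `ro` tells whether it is open on the right.
If the slab is open on the right, the virtual sum is added to the required sums. -/
def reqW (ν ν' : Node) (T : ℕ) (ro : Bool) : List ℕ :=
  (((List.range T).flatMap fun i => [3 * (i + 64) + 4161, 3 * (i + 64) + 4162, 3 * (i + 64) + 4163])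
    ++ ν'.exc T ++ ν.msc 0 ++ (if ro then [scW (ν'.u.code T) (ν'.v.code T)] else [])).diff
    (ν'.msc T ++ ν.exc 0)

/-- the parameters are consistent (checked once) -/
def okW (ν ν' : Node) (T : ℕ) (lo ro : Bool) : Bool :=
  decide ((reqW ν ν' T ro ++ (ν'.msc T ++ ν.exc 0)).Perm
    (((List.range T).flatMap fun i => [3 * (i + 64) + 4161, 3 * (i + 64) + 4162, 3 * (i + 64) + 4163])
    ++ ν'.exc T ++ ν.msc 0 ++ (if ro then [scW (ν'.u.code T) (ν'.v.code T)] else []))) &&
  decide (reqW ν ν' T ro).Nodup && decide (3 * T < 180) &&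
  (reqW ν ν' T ro).length == 3 * T + (if ro then 1 else 0) &&
  (ν'.exU ++ ν'.exV ++ ν'.msU ++ ν'.msV ++ ν.exU ++ ν.exV ++ ν.msU ++ ν.msV).all
    (fun e => decide (-40 < e) && decide (e < 40)) &&
  (if lo then decide ((ν.u.code 0) < 3 * T + 1 ∧ 0 < ν.u.code 0 ∧ (ν.v.code 0) < 3 * T + 1 ∧
    0 < ν.v.code 0 ∧ 4160 < scW (ν.v.code 0) (ν.u.code 0)) else true) &&
  (if ro then decide (3 * T < ν'.u.code T ∧ 3 * T < ν'.v.code T ∧ ν'.u.code T < 190 ∧
    ν'.v.code T < 190 ∧ 4160 < scW (ν'.u.code T) (ν'.v.code T)) else true)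

/-- the target value of a slab -/
def tgtW (ν ν' : Node) (T : ℕ) (ro : Bool) : ℕ :=
  wtL ((List.range (3 * T)).map (· + 1)) + wtS (reqW ν ν' T ro)

/-- closed slab -/
def pcCC (m n : ℕ) (cb : List ℕ → Bool) (d : ℕ) : Bool :=
  cycs scW (fun acc ls => Nat.beq acc m && (Nat.beq (lsum ls) n && cb ls)) 64 d 0 []

/-- slab closed on the left, open on the right; `u'`, `v'` codes of the end labels -/
def pcCO (m n u' v' : ℕ) (cb : ℕ → List ℕ → Bool) (d : ℕ) : Bool :=
  comp scW (fun d' acc' len => cycs scW (fun acc ls =>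
    Nat.beq acc m && (Nat.beq (Nat.add len (lsum ls)) n && (Nat.ble 1 len && cb len ls))) 64 d' acc' [])
    v' 200 d 0 u' 0

/-- slab open on the left, closed on the right; `u`, `v` codes of the labels of the virtual edge -/
def pcOC (m n u v : ℕ) (cb : ℕ → List ℕ → Bool) (d : ℕ) : Bool :=
  comp scW (fun d' acc' len => cycs scW (fun acc ls =>
    Nat.beq acc m && (Nat.beq (Nat.add len (lsum ls)) n && (Nat.ble 3 len && cb len ls))) 64 d' acc' [])
    u 200 d (wtL [u, v] + 2 ^ scW v u) v 2

/-- slab open on both sides, different cycles -/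
def pcOO (m n u v u' v' : ℕ) (cb : ℕ → ℕ → List ℕ → Bool) (d : ℕ) : Bool :=
  comp scW (fun d₁ acc₁ r => comp scW (fun d' acc' p => cycs scW (fun acc ls =>
      Nat.beq acc m && (Nat.beq (Nat.add r (Nat.add p (lsum ls))) n && (Nat.ble 3 r &&
        (Nat.ble 1 p && cb r p ls)))) 64 d' acc' [])
      v' 200 d₁ acc₁ u' 0)
    u 200 d (wtL [u, v] + 2 ^ scW v u) v 2

/-- slab open on both sides, the path goes through: `u' l a b l' v'`; `a`, `b` are the codes of the
labels of the virtual edge -/
def pcOT (m n a b u' v' : ℕ) (cb : ℕ → List ℕ → Bool) (d : ℕ) : Bool :=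
  comp scW (fun d₁ acc₁ q => comp scW (fun d' acc' q' => cycs scW (fun acc ls =>
      Nat.beq acc m && (Nat.beq (Nat.add q (Nat.add q' (lsum ls))) n &&
        cb (Nat.add q q') ls)) 64 d' acc' [])
      v' 200 d₁ acc₁ b 1)
    a 200 d (wtL [a, b] + 2 ^ scW a b) u' 1

end Pool.Agent.helper8.VM
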