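import Pool.Agent.helper8.VM.Chk

set_option autoImplicit false

/-! # MP_be123d_co, block CORE (the loops of the checkers; ~250 lines)
Replace the sorries in place; proof hints: /team-store/h8_vm_notes.md. -/

namespace Pool.Agent.helper8.VM

theorem force_eq {α : Type} (n : ℕ) (f : ℕ → α) : force n f = f n := by cases n <;> rfl

theorem Core_comp_zero (sc : ℕ → ℕ → ℕ) (cont : ℕ → ℕ → ℕ → Bool) (first fuel acc prev len : ℕ) :
    comp sc cont first (fuel + 1) 0 acc prev len = cont 0 (acc + 2 ^ sc prev first) len := by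
  show force (Nat.add acc (Nat.shiftLeft 1 (sc prev first))) (fun acc' => cont 0 acc' len) = _
  rw [force_eq]
  have h : Nat.shiftLeft 1 (sc prev first) = 2 ^ sc prev first := Nat.one_shiftLeft _
  rw [h]
  rfl

theorem Core_comp_succ (sc : ℕ → ℕ → ℕ) (cont : ℕ → ℕ → ℕ → Bool)
    (first fuel dd acc prev len : ℕ) :
    comp sc cont first (fuel + 1) (dd + 1) acc prev len =
      Nat.rec (motive := fun _ => Bool) (cont ((dd + 1) / 4096) (acc + 2 ^ sc prev first) len)
        (fun xx _ => comp sc cont first fuel ((dd + 1) / 4096)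
          (acc + ((xx + 1) + (2 ^ (64 + (xx + 1)) + 2 ^ sc prev (xx + 1)))) (xx + 1) (len + 1))
        ((dd + 1) % 4096) := by
  show Nat.rec (motive := fun _ => Bool)
            (force (Nat.div (Nat.succ dd) 4096) fun d' =>
              force (Nat.add acc (Nat.shiftLeft 1 (sc prev first))) fun acc' => cont d' acc' len)
            (fun xx _ =>
              force (Nat.add acc (Nat.add (Nat.succ xx)
                (Nat.add (Nat.shiftLeft 1 (Nat.add 64 (Nat.succ xx)))
                  (Nat.shiftLeft 1 (sc prev (Nat.succ xx)))))) fun acc' =>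
                comp sc cont first fuel (Nat.div (Nat.succ dd) 4096) acc' (Nat.succ xx)
                  (Nat.succ len))
            (Nat.mod (Nat.succ dd) 4096) = _
  have hm : Nat.mod (Nat.succ dd) 4096 = (dd + 1) % 4096 := rfl
  rw [hm]
  generalize (dd + 1) % 4096 = r
  cases r with
  | zero =>
    show (force (Nat.div (Nat.succ dd) 4096) fun d' =>
              force (Nat.add acc (Nat.shiftLeft 1 (sc prev first))) fun acc' => cont d' acc' len) = _
    rw [force_eq, force_eq]
    have h : Nat.shiftLeft 1 (sc prev first) = 2 ^ sc prev first := Nat.one_shiftLeft _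
    rw [h]
    rfl
  | succ xx =>
    show (force (Nat.add acc (Nat.add (Nat.succ xx)
                (Nat.add (Nat.shiftLeft 1 (Nat.add 64 (Nat.succ xx)))
                  (Nat.shiftLeft 1 (sc prev (Nat.succ xx)))))) fun acc' =>
                comp sc cont first fuel (Nat.div (Nat.succ dd) 4096) acc' (Nat.succ xx)
                  (Nat.succ len)) = _
    rw [force_eq]
    have h : Nat.shiftLeft 1 (sc prev (Nat.succ xx)) = 2 ^ sc prev (xx + 1) := Nat.one_shiftLeft _
    have h' : Nat.shiftLeft 1 (Nat.add 64 (Nat.succ xx)) = 2 ^ (64 + (xx + 1)) :=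
      Nat.one_shiftLeft _
    rw [h, h']
    rfl

theorem Core_wtL_cons (x : ℕ) (l : List ℕ) : wtL (x :: l) = x + 2 ^ (64 + x) + wtL l := by
  unfold wtL
  rw [List.map_cons, List.sum_cons]

theorem Core_wtL_append (l l' : List ℕ) : wtL (l ++ l') = wtL l + wtL l' := by
  unfold wtL
  rw [List.map_append, List.sum_append]

theorem Core_wtS_cons (x : ℕ) (l : List ℕ) : wtS (x :: l) = 2 ^ x + wtS l := by
  unfold wtS
  rw [List.map_cons, List.sum_cons]

theorem Core_wtS_append (l l' : List ℕ) : wtS (l ++ l') = wtS l + wtS l' := by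
  unfold wtS
  rw [List.map_append, List.sum_append]

theorem Core_wtL_nil : wtL [] = 0 := rfl

theorem Core_wtS_nil : wtS [] = 0 := rfl

theorem comp_spec {sc : ℕ → ℕ → ℕ} {cont : ℕ → ℕ → ℕ → Bool} {first fuel d acc prev len : ℕ}
    (h : comp sc cont first fuel d acc prev len = true) :
    ∃ (l : List ℕ) (d' : ℕ), (∀ x ∈ l, x < 4096) ∧
      cont d' (acc + (wtL l + wtS (adjc sc (prev :: l ++ [first])))) (len + l.length) = true := by
  induction fuel generalizing d acc prev len with
  | zero => exact absurd h (by simp [comp])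
  | succ fuel ih =>
    have hnil : ∀ d', cont d' (acc + 2 ^ sc prev first) len = true →
        ∃ (l : List ℕ) (d' : ℕ), (∀ x ∈ l, x < 4096) ∧
          cont d' (acc + (wtL l + wtS (adjc sc (prev :: l ++ [first])))) (len + l.length)
            = true := by
      intro d' hd
      refine ⟨[], d', by simp, ?_⟩
      have e : wtL [] + wtS (adjc sc (prev :: [] ++ [first])) = 2 ^ sc prev first := by
        show wtL [] + wtS [sc prev first] = _
        rw [Core_wtL_nil, Core_wtS_cons, Core_wtS_nil]
        omega
      rw [e]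
      exact hd
    cases d with
    | zero =>
      rw [Core_comp_zero] at h
      exact hnil 0 h
    | succ dd =>
      rw [Core_comp_succ] at h
      have hlt : (dd + 1) % 4096 < 4096 := Nat.mod_lt _ (by norm_num)
      generalize (dd + 1) % 4096 = r at h hlt
      cases r with
      | zero => exact hnil _ h
      | succ xx =>
        obtain ⟨l, d', hl, hc⟩ := ih (show comp sc cont first fuel ((dd + 1) / 4096)
          (acc + ((xx + 1) + (2 ^ (64 + (xx + 1)) + 2 ^ sc prev (xx + 1)))) (xx + 1) (len + 1)
            = true from h)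
        refine ⟨(xx + 1) :: l, d', ?_, ?_⟩
        · intro x hx
          rcases List.mem_cons.1 hx with hx | hx
          · rw [hx]
            exact hlt
          · exact hl x hx
        · have e : acc + (wtL ((xx + 1) :: l) +
              wtS (adjc sc (prev :: ((xx + 1) :: l) ++ [first]))) =
              acc + ((xx + 1) + (2 ^ (64 + (xx + 1)) + 2 ^ sc prev (xx + 1))) +
              (wtL l + wtS (adjc sc ((xx + 1) :: l ++ [first]))) := by
            show acc + (wtL ((xx + 1) :: l) +
              wtS (sc prev (xx + 1) :: adjc sc ((xx + 1) :: l ++ [first]))) = _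
            rw [Core_wtL_cons, Core_wtS_cons]
            generalize 2 ^ (64 + (xx + 1)) = P
            generalize 2 ^ sc prev (xx + 1) = Q
            omega
          rw [e, List.length_cons, show len + (l.length + 1) = len + 1 + l.length by omega]
          exact hc

theorem Core_cycs_zero (sc : ℕ → ℕ → ℕ) (fin : ℕ → List ℕ → Bool) (fuel acc : ℕ) (ls : List ℕ) :
    cycs sc fin (fuel + 1) 0 acc ls = fin acc ls := rfl

theorem Core_cycs_succ (sc : ℕ → ℕ → ℕ) (fin : ℕ → List ℕ → Bool) (fuel dd acc : ℕ)
    (ls : List ℕ) :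
    cycs sc fin (fuel + 1) (dd + 1) acc ls =
      comp sc (fun d'' acc'' len => cond (Nat.ble 3 len) (cycs sc fin fuel d'' acc'' (len :: ls))
        false) ((dd + 1) % 4096) 200 ((dd + 1) / 4096)
        (acc + ((dd + 1) % 4096 + 2 ^ (64 + (dd + 1) % 4096))) ((dd + 1) % 4096) 1 := by
  show (force (Nat.mod (Nat.succ dd) 4096) fun y =>
          force (Nat.div (Nat.succ dd) 4096) fun d' =>
          force (Nat.add acc (Nat.add y (Nat.shiftLeft 1 (Nat.add 64 y)))) fun acc' =>
            comp sc (fun d'' acc'' len => cond (Nat.ble 3 len)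
              (cycs sc fin fuel d'' acc'' (len :: ls)) false)
              y 200 d' acc' y 1) = _
  rw [force_eq, force_eq, force_eq]
  have hm : Nat.mod (Nat.succ dd) 4096 = (dd + 1) % 4096 := rfl
  have hd : Nat.div (Nat.succ dd) 4096 = (dd + 1) / 4096 := rfl
  rw [hm, hd]
  have h' : Nat.shiftLeft 1 (Nat.add 64 ((dd + 1) % 4096)) = 2 ^ (64 + (dd + 1) % 4096) :=
    Nat.one_shiftLeft _
  rw [h']
  rfl

theorem cycs_spec {sc : ℕ → ℕ → ℕ} {fin : ℕ → List ℕ → Bool} {fuel d acc : ℕ} {ls : List ℕ}
    (h : cycs sc fin fuel d acc ls = true) :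
    ∃ cs : List (List ℕ), (∀ c ∈ cs, 3 ≤ c.length) ∧ (∀ c ∈ cs, ∀ x ∈ c, x < 4096) ∧
      fin (acc + (wtL cs.flatten + wtS (cs.map (cycc sc)).flatten))
        ((cs.map List.length).reverse ++ ls) = true := by
  induction fuel generalizing d acc ls with
  | zero => exact absurd h (by simp [cycs])
  | succ fuel ih =>
    cases d with
    | zero =>
      rw [Core_cycs_zero] at h
      refine ⟨[], by simp, by simp, ?_⟩
      exact h
    | succ dd =>
      rw [Core_cycs_succ] at h
      have hlt : (dd + 1) % 4096 < 4096 := Nat.mod_lt _ (by norm_num)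
      generalize (dd + 1) % 4096 = y at h hlt
      obtain ⟨l, d', hl, hc⟩ := comp_spec h
      cases hb : Nat.ble 3 (1 + l.length) with
      | false => rw [hb] at hc; exact absurd hc (by simp)
      | true =>
        rw [hb] at hc
        obtain ⟨cs, h3, hx, hf⟩ := ih (show cycs sc fin fuel d' _ _ = true from hc)
        refine ⟨(y :: l) :: cs, ?_, ?_, ?_⟩
        · intro c hcc
          rcases List.mem_cons.1 hcc with hcc | hcc
          · rw [hcc, List.length_cons]
            have := Nat.le_of_ble_eq_true hb
            omega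
          · exact h3 c hcc
        · intro c hcc x hxc
          rcases List.mem_cons.1 hcc with hcc | hcc
          · rw [hcc] at hxc
            rcases List.mem_cons.1 hxc with hxc | hxc
            · rw [hxc]
              exact hlt
            · exact hl x hxc
          · exact hx c hcc x hxc
        · rw [List.flatten_cons, List.map_cons, List.flatten_cons, List.map_cons,
            List.reverse_cons, List.append_assoc, List.singleton_append, List.length_cons,
            Core_wtL_append, Core_wtL_cons, Core_wtS_append]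
          have e : acc + (y + 2 ^ (64 + y) + wtL l + wtL cs.flatten +
              (wtS (cycc sc (y :: l)) + wtS (List.map (cycc sc) cs).flatten)) =
              acc + (y + 2 ^ (64 + y)) + (wtL l + wtS (adjc sc (y :: l ++ [y]))) +
              (wtL cs.flatten + wtS (List.map (cycc sc) cs).flatten) := by
            show acc + (y + 2 ^ (64 + y) + wtL l + wtL cs.flatten +
              (wtS (adjc sc (y :: l ++ [y])) + wtS (List.map (cycc sc) cs).flatten)) = _
            generalize 2 ^ (64 + y) = P
            omega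
          rw [e, show l.length + 1 = 1 + l.length by omega]
          exact hf

/-! uniqueness of binary expansions -/

theorem Core_merge (n : ℕ) : ∀ M : Multiset ℕ, Multiset.card M = n →
    ∃ M' : Multiset ℕ, M'.Nodup ∧ (M'.map fun x => 2 ^ x).sum = (M.map fun x => 2 ^ x).sum ∧
      (M' = M ∨ Multiset.card M' < Multiset.card M) := by
  induction n with
  | zero =>
    intro M hM
    rw [Multiset.card_eq_zero] at hM
    subst hM
    exact ⟨0, Multiset.nodup_zero, rfl, Or.inl rfl⟩
  | succ n ih =>
    intro M hM
    by_cases hn : M.Nodup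
    · exact ⟨M, hn, rfl, Or.inl rfl⟩
    · rw [Multiset.nodup_iff_ne_cons_cons] at hn
      push Not at hn
      obtain ⟨a, N, rfl⟩ := hn
      rw [Multiset.card_cons, Multiset.card_cons] at hM
      obtain ⟨M', h1, h2, h3⟩ := ih ((a + 1) ::ₘ N) (by rw [Multiset.card_cons]; omega)
      refine ⟨M', h1, ?_, Or.inr ?_⟩
      · rw [h2]
        simp only [Multiset.map_cons, Multiset.sum_cons]
        rw [pow_succ]
        ring
      · rw [Multiset.card_cons, Multiset.card_cons]
        rcases h3 with h3 | h3
        · rw [h3, Multiset.card_cons]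
          omega
        · rw [Multiset.card_cons] at h3
          omega

theorem Core_two_pow {M N : Multiset ℕ} (hM : M.Nodup) (hN : N.Nodup)
    (h : (M.map fun x => 2 ^ x).sum = (N.map fun x => 2 ^ x).sum) : M = N := by
  have h1 := Finset.geomSum_injective (n := 2) le_rfl
  have h2 : (⟨M, hM⟩ : Finset ℕ) = ⟨N, hN⟩ := h1 h
  exact congrArg Finset.val h2

theorem Core_unique {E E₀ : List ℕ} (hn : E₀.Nodup) (hl : E.length = E₀.length)
    (h : wtS E = wtS E₀) : E.Perm E₀ := by
  obtain ⟨M', h1, h2, h3⟩ := Core_merge _ (E : Multiset ℕ) rfl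
  have h4 : M' = (E₀ : Multiset ℕ) := by
    refine Core_two_pow h1 (Multiset.coe_nodup.2 hn) ?_
    rw [h2]
    simp only [Multiset.map_coe, Multiset.sum_coe]
    exact h
  rcases h3 with h3 | h3
  · rw [← Multiset.coe_eq_coe, ← h4, h3]
  · rw [h4, Multiset.coe_card, Multiset.coe_card] at h3
    omega

theorem Core_sum_lt {l : List ℕ} (hl : ∀ x ∈ l, x < 4096) : l.sum ≤ 4096 * l.length := by
  induction l with
  | nil => simp
  | cons a l ih =>
    rw [List.sum_cons, List.length_cons]
    have h1 := hl a List.mem_cons_self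
    have h2 := ih fun x hx => hl x (List.mem_cons_of_mem _ hx)
    omega

theorem Core_wtL_split (l : List ℕ) : wtL l = l.sum + 2 ^ 64 * (l.map fun x => 2 ^ x).sum := by
  induction l with
  | nil => rfl
  | cons a l ih =>
    rw [Core_wtL_cons, ih, List.sum_cons, List.map_cons, List.sum_cons, pow_add]
    ring

theorem Core_wtS_split {S : List ℕ} (hS : ∀ s ∈ S, 4160 ≤ s) :
    ∃ t, wtS S = 2 ^ 64 * t := by
  induction S with
  | nil => exact ⟨0, rfl⟩
  | cons a S ih =>
    obtain ⟨t, ht⟩ := ih fun x hx => hS x (List.mem_cons_of_mem _ hx)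
    have h1 := hS a List.mem_cons_self
    refine ⟨2 ^ (a - 64) + t, ?_⟩
    rw [Core_wtS_cons, ht, mul_add, ← pow_add, show 64 + (a - 64) = a by omega]

theorem Core_shift (l : List ℕ) : wtS (l.map fun x => 64 + x) =
    2 ^ 64 * (l.map fun x => 2 ^ x).sum := by
  induction l with
  | nil => rfl
  | cons a l ih =>
    rw [List.map_cons, Core_wtS_cons, ih, List.map_cons, List.sum_cons, pow_add, mul_add]

theorem wt_unique {l l₀ S S₀ : List ℕ} (hl : ∀ x ∈ l, x < 4096) (hl₀ : ∀ x ∈ l₀, x < 4096)
    (hS : ∀ s ∈ S, 4160 ≤ s) (hS₀ : ∀ s ∈ S₀, 4160 ≤ s) (h1 : l.length = l₀.length)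
    (h2 : S.length = S₀.length) (hn : l₀.Nodup) (hn' : S₀.Nodup) (hlen : l.length < 10 ^ 6)
    (h : wtL l + wtS S = wtL l₀ + wtS S₀) : l.Perm l₀ ∧ S.Perm S₀ := by
  have a1 := Core_sum_lt hl
  have a2 := Core_sum_lt hl₀
  obtain ⟨t, ht⟩ := Core_wtS_split hS
  obtain ⟨t₀, ht₀⟩ := Core_wtS_split hS₀
  have b1 : l.sum < 2 ^ 64 := by omega
  have b2 : l₀.sum < 2 ^ 64 := by omega
  have b3 : (l.map fun x => 2 ^ x).sum + t = (l₀.map fun x => 2 ^ x).sum + t₀ := by
    rw [Core_wtL_split, Core_wtL_split, ht, ht₀] at h
    omega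
  have h3 : wtS ((l.map fun x => 64 + x) ++ S) = wtS ((l₀.map fun x => 64 + x) ++ S₀) := by
    rw [Core_wtS_append, Core_wtS_append, Core_shift, Core_shift, ht, ht₀, ← mul_add, ← mul_add,
      b3]
  have hinj : Function.Injective fun x : ℕ => 64 + x := fun x y hxy => by
    have : 64 + x = 64 + y := hxy
    omega
  have hnd : ((l₀.map fun x => 64 + x) ++ S₀).Nodup := by
    rw [List.nodup_append']
    refine ⟨hn.map hinj, hn', ?_⟩
    intro x hx hx'
    obtain ⟨y, hy, rfl⟩ := List.mem_map.1 hx
    have c1 := hl₀ y hy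
    have c2 := hS₀ _ hx'
    omega
  have h4 := Core_unique hnd (by
    rw [List.length_append, List.length_append, List.length_map, List.length_map, h1, h2]) h3
  have f1 : ∀ {m T : List ℕ}, (∀ x ∈ m, x < 4096) → (∀ s ∈ T, 4160 ≤ s) →
      ((m.map fun x => 64 + x) ++ T).filter (fun x => decide (x < 4160)) =
        (m.map fun x => 64 + x) := by
    intro m T hm hT
    rw [List.filter_append, List.filter_eq_self.2, List.filter_eq_nil_iff.2, List.append_nil]
    · intro s hs
      have := hT s hs
      simp only [decide_eq_true_eq]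
      omega
    · intro s hs
      obtain ⟨y, hy, rfl⟩ := List.mem_map.1 hs
      have := hm y hy
      simp only [decide_eq_true_eq]
      omega
  have f2 : ∀ {m T : List ℕ}, (∀ x ∈ m, x < 4096) → (∀ s ∈ T, 4160 ≤ s) →
      ((m.map fun x => 64 + x) ++ T).filter (fun x => decide (4160 ≤ x)) = T := by
    intro m T hm hT
    rw [List.filter_append, List.filter_eq_nil_iff.2, List.nil_append, List.filter_eq_self.2]
    · intro s hs
      have := hT s hs
      simp only [decide_eq_true_eq]
      omega
    · intro s hs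
      obtain ⟨y, hy, rfl⟩ := List.mem_map.1 hs
      have := hm y hy
      simp only [decide_eq_true_eq]
      omega
  have g1 := h4.filter (fun x => decide (x < 4160))
  rw [f1 hl hS, f1 hl₀ hS₀] at g1
  have g2 := h4.filter (fun x => decide (4160 ≤ x))
  rw [f2 hl hS, f2 hl₀ hS₀] at g2
  exact ⟨(List.map_perm_map_iff hinj).1 g1, g2⟩

end Pool.Agent.helper8.VM
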