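import Pool.Agent.helper8.VM.Defs

set_option autoImplicit false

open SimpleGraph

/-! # MP_be123d_co, block DEC (2-regular graphs are unions of cycles; ~250 lines)
Replace the sorries in place; proof hints: /team-store/h8_vm_notes.md. -/

namespace Pool.Agent.helper8.VM

/-- `cs` is a decomposition of `G` into cycles -/
structure CycDec {V : Type} (G : SimpleGraph V) (cs : List (List V)) : Prop where
  len : ∀ c ∈ cs, 3 ≤ c.length
  nodup : cs.flatten.Nodup
  mem : ∀ v, v ∈ cs.flatten
  adj : ∀ u v, G.Adj u v ↔
    ∃ c ∈ cs, (u, v) ∈ List.zip c (c.rotate 1) ∨ (v, u) ∈ List.zip c (c.rotate 1)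

theorem exists_cycDec {V : Type} [Fintype V] [DecidableEq V] (G : SimpleGraph V)
    [DecidableRel G.Adj] (h : G.IsRegularOfDegree 2) : ∃ cs : List (List V), CycDec G cs := sorry

end Pool.Agent.helper8.VM
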