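import Mathlib

set_option autoImplicit false

/-! # MP_be123d_co: definitions for the composition method (sector (1,1), M = 18). -/

namespace Pool.Agent.helper8.VM

/-- sums of adjacent entries of a list -/
def adj {G : Type*} [Add G] : List G → List G
  | [] => []
  | [_] => []
  | a :: b :: l => (a + b) :: adj (b :: l)

/-- sums of cyclically adjacent entries of a list -/
def cyc {G : Type*} [Add G] : List G → List G
  | [] => []
  | a :: l => adj (a :: l ++ [a])

/-- all entries of a family of cycles -/
def labs {G : Type*} (cs : List (List G)) : Multiset G := (cs.flatten : List G)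

/-- all cyclic adjacent sums of a family of cycles -/
def sums {G : Type*} [Add G] (cs : List (List G)) : Multiset G := ((cs.map cyc).flatten : List G)

/-- the lengths of a family of cycles -/
def lens {G : Type*} (cs : List (List G)) : Multiset ℕ := (cs.map List.length : List ℕ)

/-- all lengths are at least 3 -/
def Long {G : Type*} (cs : List (List G)) : Prop := ∀ c ∈ cs, 3 ≤ c.length

/-- The cycle lengths `M` admit a labelling by `-h, ..., h` with edge sums `-h, ..., h`. -/
def Labelable (M : Multiset ℕ) : Prop :=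
  ∃ (h : ℕ) (cs : List (List ℤ)), lens cs = M ∧ Long cs ∧
    labs cs = (Finset.Icc (-(h : ℤ)) h).val ∧ sums cs = (Finset.Icc (-(h : ℤ)) h).val

/-- positions: `(α, c)` stands for the number `α * T + c` -/
abbrev A := ℤ × ℤ

/-- a wall: sector signs, the parameters `tau` and `s`, and the labels and sums left of 5 -/
structure Wall where
  sP : Bool
  sQ : Bool
  tau : ℤ
  s : ℤ
  bL : List A
  bS : List A

namespace Wall
def p1 (w : Wall) : A := (-3, w.tau + w.s - 2)
def p2 (w : Wall) : A := (2, 2 - w.tau - w.s)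
def q1 (w : Wall) : A := (-2, w.tau)
def q2 (w : Wall) : A := (1, -w.tau)
/-- base point of the X-track at index `i` -/
def bx (w : Wall) (i : ℤ) : A :=
  if i % 2 = 0 then (if w.sP then w.p1 else w.p2) else (if w.sQ then w.q1 else w.q2)
/-- base point of the Y-track at index `i` -/
def by' (w : Wall) (i : ℤ) : A :=
  if i % 2 = 0 then (if w.sP then w.p2 else w.p1) else (if w.sQ then w.q2 else w.q1)
def X (w : Wall) (i : ℤ) : A := w.bx i + (0, i)
def Y (w : Wall) (i : ℤ) : A := w.by' i + (0, i)
def R (_ : Wall) (i : ℤ) : A := (1, -2 * i)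
def W (_ : Wall) (i : ℤ) : A := (-1, 2 * i)
def U (w : Wall) (i : ℤ) : A := w.bx i + (1, -i)
def V (w : Wall) (i : ℤ) : A := w.by' i + (1, -i)
end Wall

/-- symbolic labels: class and relative index -/
inductive Lab
  | X (i : ℤ)
  | Y (i : ℤ)
  | R (i : ℤ)

/-- position of a symbolic label at the cut `t` -/
def Lab.at (w : Wall) (t : ℤ) : Lab → A
  | .X i => w.X (t + i)
  | .Y i => w.Y (t + i)
  | .R i => w.R (t + i)

/-- labels with index in `[t, t + T)` -/
def slabL (w : Wall) (t : ℤ) (T : ℕ) : Multiset A :=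
  (((List.range T).flatMap fun i => [w.X (t + i), w.Y (t + i), w.R (t + i)] : List A) : Multiset A)

/-- sums with index in `[t, t + T)` -/
def slabS (w : Wall) (t : ℤ) (T : ℕ) : Multiset A :=
  (((List.range T).flatMap fun i => [w.W (t + i), w.U (t + i), w.V (t + i)] : List A) : Multiset A)

/-- shape of a cut: relative indices of the extra and missing sums of the classes U and V,
and the two end labels of the virtual edge of the open state -/
structure Node where
  exU : List ℤ
  msU : List ℤ
  exV : List ℤ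
  msV : List ℤ
  u : Lab
  v : Lab

/-- extra sums of the node `ν` at the cut `t` -/
def Node.ex (ν : Node) (w : Wall) (t : ℤ) : Multiset A :=
  ((ν.exU.map fun e => w.U (t + e)) ++ (ν.exV.map fun e => w.V (t + e)) : List A)

/-- missing sums of the node `ν` at the cut `t` -/
def Node.ms (ν : Node) (w : Wall) (t : ℤ) : Multiset A :=
  ((ν.msU.map fun e => w.U (t + e)) ++ (ν.msV.map fun e => w.V (t + e)) : List A)

/-- all labels left of the cut `k + 5` -/
def leftL (w : Wall) (k : ℕ) : Multiset A := (w.bL : Multiset A) + slabL w 5 k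
/-- all sums left of the flat cut `k + 5` -/
def leftS (w : Wall) (k : ℕ) : Multiset A := (w.bS : Multiset A) + slabS w 5 k

/-- closed left part at the cut `k + 5` with shape `ν` and cycle lengths `M` -/
def LC (w : Wall) (ν : Node) (k : ℕ) (M : Multiset ℕ) : Prop :=
  ∃ cs : List (List A), lens cs = M ∧ Long cs ∧ labs cs = leftL w k ∧
    sums cs + ν.ms w (k + 5) = leftS w k + ν.ex w (k + 5)

/-- open left part (first kind): cycles of lengths `M` and a path with `p` vertices, whose ends are
joined to the labels `u`, `v` of the node, which lie on the right of the cut -/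
def LO (w : Wall) (ν : Node) (k : ℕ) (M : Multiset ℕ) (p : ℕ) : Prop :=
  ∃ (cs : List (List A)) (l : List A), lens cs = M ∧ Long cs ∧ l.length = p ∧ 0 < p ∧
    labs cs + l = leftL w k ∧
    sums cs + adj (ν.u.at w (k + 5) :: l ++ [ν.v.at w (k + 5)]) + ν.ms w (k + 5)
      = leftS w k + ν.ex w (k + 5) + {ν.u.at w (k + 5) + ν.v.at w (k + 5)}

/-- open left part (second kind): cycles of lengths `M` and one further cycle of length `r` which
contains the edge `u v` of the node (both labels on the left of the cut) -/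
def LE (w : Wall) (ν : Node) (k : ℕ) (M : Multiset ℕ) (r : ℕ) : Prop :=
  ∃ (cs : List (List A)) (l : List A), lens cs = M ∧ Long cs ∧
    l.length + 2 = r ∧ 0 < l.length ∧
    labs cs + (ν.u.at w (k + 5) :: l ++ [ν.v.at w (k + 5)] : List A) = leftL w k ∧
    sums cs + cyc (ν.u.at w (k + 5) :: l ++ [ν.v.at w (k + 5)]) + ν.ms w (k + 5)
      = leftS w k + ν.ex w (k + 5)

/-- slab from `ν` to `ν'` of width `T`, closed on both sides, with cycle lengths `K` -/
def SCC (ν ν' : Node) (T : ℕ) (K : Multiset ℕ) : Prop :=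
  ∀ (w : Wall) (t : ℤ), ∃ cs : List (List A), lens cs = K ∧ Long cs ∧ labs cs = slabL w t T ∧
    sums cs + ν'.ms w (t + T) + ν.ex w t = slabS w t T + ν'.ex w (t + T) + ν.ms w t

/-- slab closed on the left, open on the right -/
def SCO (ν ν' : Node) (T : ℕ) (K : Multiset ℕ) (p : ℕ) : Prop :=
  ∀ (w : Wall) (t : ℤ), ∃ (cs : List (List A)) (l : List A), lens cs = K ∧ Long cs ∧
    l.length = p ∧ 0 < p ∧ labs cs + l = slabL w t T ∧
    sums cs + adj (ν'.u.at w (t + T) :: l ++ [ν'.v.at w (t + T)]) + ν'.ms w (t + T) + ν.ex w t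
      = slabS w t T + ν'.ex w (t + T) + ν.ms w t + {ν'.u.at w (t + T) + ν'.v.at w (t + T)}

/-- slab open on the left (the virtual edge lies in a cycle with `r` vertices inside the slab),
closed on the right -/
def SOC (ν ν' : Node) (T : ℕ) (K : Multiset ℕ) (r : ℕ) : Prop :=
  ∀ (w : Wall) (t : ℤ), ∃ (cs : List (List A)) (l : List A), lens cs = K ∧ Long cs ∧
    l.length + 2 = r ∧ 0 < l.length ∧
    labs cs + (ν.v.at w t :: l ++ [ν.u.at w t] : List A) = slabL w t T ∧
    sums cs + adj (ν.v.at w t :: l ++ [ν.u.at w t]) + {ν.u.at w t + ν.v.at w t}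
      + ν'.ms w (t + T) + ν.ex w t
      = slabS w t T + ν'.ex w (t + T) + ν.ms w t

/-- slab open on both sides, the two open paths belong to different cycles -/
def SOO (ν ν' : Node) (T : ℕ) (K : Multiset ℕ) (r p : ℕ) : Prop :=
  ∀ (w : Wall) (t : ℤ), ∃ (cs : List (List A)) (l l' : List A), lens cs = K ∧ Long cs ∧
    l.length + 2 = r ∧ 0 < l.length ∧ l'.length = p ∧ 0 < p ∧
    labs cs + (ν.v.at w t :: l ++ [ν.u.at w t] : List A) + l' = slabL w t T ∧
    sums cs + adj (ν.v.at w t :: l ++ [ν.u.at w t]) + {ν.u.at w t + ν.v.at w t}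
      + adj (ν'.u.at w (t + T) :: l' ++ [ν'.v.at w (t + T)]) + ν'.ms w (t + T) + ν.ex w t
      = slabS w t T + ν'.ex w (t + T) + ν.ms w t + {ν'.u.at w (t + T) + ν'.v.at w (t + T)}

/-- slab open on both sides, the path goes through (`q` vertices in the slab); the path runs
`u' l a (virtual edge) b l' v'` with `{a, b} = {u, v}` -/
def SOT (ν ν' : Node) (T : ℕ) (K : Multiset ℕ) (q : ℕ) : Prop :=
  ∀ (w : Wall) (t : ℤ), ∃ (cs : List (List A)) (l l' : List A) (a b : A),
    ((a = ν.u.at w t ∧ b = ν.v.at w t) ∨ (a = ν.v.at w t ∧ b = ν.u.at w t)) ∧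
    lens cs = K ∧ Long cs ∧ l.length + l'.length + 2 = q ∧
    labs cs + (l ++ a :: b :: l' : List A) = slabL w t T ∧
    sums cs + adj (ν'.u.at w (t + T) :: l ++ a :: b :: l' ++ [ν'.v.at w (t + T)])
      + ν'.ms w (t + T) + ν.ex w t
      = slabS w t T + ν'.ex w (t + T) + ν.ms w t + {ν'.u.at w (t + T) + ν'.v.at w (t + T)}

end Pool.Agent.helper8.VM
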