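import Pool.Agent.helper8.VM.Defs

set_option autoImplicit false

/-! # MP_be123d_co, block EXT (extension lemmas; pure multiset algebra, ~150 lines)
proof hints: /team-store/h8_vm_notes.md. -/

namespace Pool.Agent.helper8.VM

theorem Ext_labs {G : Type*} (cs cs' : List (List G)) : labs (cs ++ cs') = labs cs + labs cs' := by
  rw [labs, labs, labs, List.flatten_append, ← Multiset.coe_add]

theorem Ext_labs1 {G : Type*} (c : List G) : labs [c] = (c : Multiset G) := by
  rw [labs, List.flatten_cons, List.flatten_nil, List.append_nil]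

theorem Ext_sums {G : Type*} [Add G] (cs cs' : List (List G)) :
    sums (cs ++ cs') = sums cs + sums cs' := by
  rw [sums, sums, sums, List.map_append, List.flatten_append, ← Multiset.coe_add]

theorem Ext_sums1 {G : Type*} [Add G] (c : List G) : sums [c] = (cyc c : Multiset G) := by
  rw [sums, List.map_cons, List.map_nil, List.flatten_cons, List.flatten_nil, List.append_nil]

theorem Ext_lens {G : Type*} (cs cs' : List (List G)) : lens (cs ++ cs') = lens cs + lens cs' := by
  rw [lens, lens, lens, List.map_append, ← Multiset.coe_add]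

theorem Ext_lens1 {G : Type*} (c : List G) : lens [c] = {c.length} := by
  rw [lens, List.map_cons, List.map_nil, Multiset.coe_singleton]

theorem Ext_long {G : Type*} {cs cs' : List (List G)} (h : Long cs) (h' : Long cs') :
    Long (cs ++ cs') := by
  intro c hc
  rcases List.mem_append.1 hc with h1 | h1
  · exact h c h1
  · exact h' c h1

theorem Ext_long1 {G : Type*} {c : List G} (h : 3 ≤ c.length) : Long [c] := by
  intro c' hc
  rw [List.mem_singleton.1 hc]
  exact h

theorem Ext_cast (l : List ℕ) :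
    (l >>= fun a => pure (Nat.cast a : ℤ) : List ℤ) = l.map (Nat.cast : ℕ → ℤ) :=
  List.flatMap_pure_eq_map _ l

theorem Ext_slab (F : ℤ → List A) (k T : ℕ) :
    ((((List.range (k + T)).map (Nat.cast : ℕ → ℤ)).flatMap F : List A) : Multiset A) =
      ((((List.range k).map (Nat.cast : ℕ → ℤ)).flatMap F : List A) : Multiset A) +
      ((((List.range T).map (Nat.cast : ℕ → ℤ)).flatMap fun i => F (k + i) : List A) :
        Multiset A) := by
  rw [List.range_add, List.map_append, List.flatMap_append, Multiset.coe_add, List.map_map,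
    List.flatMap_map, List.flatMap_map, List.flatMap_map]
  simp only [Function.comp, Nat.cast_add]

theorem Ext_slabL (w : Wall) (t : ℤ) (k T : ℕ) :
    slabL w t (k + T) = slabL w t k + slabL w (t + k) T := by
  have h := Ext_slab (fun i => [w.X (t + i), w.Y (t + i), w.R (t + i)]) k T
  simp only [← add_assoc] at h
  unfold slabL
  erw [Ext_cast, Ext_cast, Ext_cast]
  exact h

theorem Ext_slabS (w : Wall) (t : ℤ) (k T : ℕ) :
    slabS w t (k + T) = slabS w t k + slabS w (t + k) T := by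
  have h := Ext_slab (fun i => [w.W (t + i), w.U (t + i), w.V (t + i)]) k T
  simp only [← add_assoc] at h
  unfold slabS
  erw [Ext_cast, Ext_cast, Ext_cast]
  exact h

theorem Ext_leftL (w : Wall) (k T : ℕ) :
    leftL w (k + T) = leftL w k + slabL w (k + 5) T := by
  rw [leftL, leftL, Ext_slabL, add_assoc, add_comm (5 : ℤ)]

theorem Ext_leftS (w : Wall) (k T : ℕ) :
    leftS w (k + T) = leftS w k + slabS w (k + 5) T := by
  rw [leftS, leftS, Ext_slabS, add_assoc, add_comm (5 : ℤ)]

theorem Ext_cut (k T : ℕ) : ((k + T : ℕ) : ℤ) + 5 = (k : ℤ) + 5 + T := by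
  push_cast
  ring

theorem Ext_adj {G : Type*} [Add G] (l : List G) (a : G) (l' : List G) :
    adj (l ++ a :: l') = adj (l ++ [a]) ++ adj (a :: l') := by
  induction l with
  | nil => rfl
  | cons b l ih =>
    cases l with
    | nil => rfl
    | cons c l =>
      show (b + c) :: adj (c :: l ++ a :: l') = (b + c) :: adj (c :: l ++ [a]) ++ adj (a :: l')
      rw [ih]
      rfl

theorem Ext_adj_reverse {G : Type*} [AddCommSemigroup G] (l : List G) :
    adj l.reverse = (adj l).reverse := by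
  induction l with
  | nil => rfl
  | cons b l ih =>
    cases l with
    | nil => rfl
    | cons c l =>
      have h1 : adj (b :: c :: l) = (b + c) :: adj (c :: l) := rfl
      have h2 : (b :: c :: l).reverse = l.reverse ++ c :: [b] := by simp
      have h3 : adj (c :: [b]) = [b + c] := by
        rw [add_comm b c]
        rfl
      have h4 : adj (l.reverse ++ [c]) = (adj (c :: l)).reverse := by
        rw [← ih, List.reverse_cons]
      rw [h2, Ext_adj l.reverse c [b], h1, h3, h4, List.reverse_cons]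

theorem Ext_cyc {G : Type*} [Add G] (u v : G) (l l' : List G) :
    cyc (v :: l' ++ [u] ++ l) = adj (v :: l' ++ [u]) ++ adj (u :: l ++ [v]) := by
  have h : cyc (v :: l' ++ [u] ++ l) = adj (v :: l' ++ [u] ++ l ++ [v]) := rfl
  have h1 : v :: l' ++ [u] ++ l ++ [v] = (v :: l') ++ u :: (l ++ [v]) := by simp
  rw [h, h1, Ext_adj (v :: l') u (l ++ [v])]
  rfl

theorem LC.scc {w : Wall} {ν ν' : Node} {k T : ℕ} {M K : Multiset ℕ}
    (h : LC w ν k M) (s : SCC ν ν' T K) : LC w ν' (k + T) (M + K) := by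
  obtain ⟨cs, h1, h2, h3, h4⟩ := h
  obtain ⟨cs', s1, s2, s3, s4⟩ := s w (k + 5)
  refine ⟨cs ++ cs', ?_, Ext_long h2 s2, ?_, ?_⟩
  · rw [Ext_lens, h1, s1]
  · rw [Ext_labs, Ext_leftL, h3, s3]
  · rw [Ext_sums, Ext_cut, Ext_leftS]
    refine add_right_cancel (b := ν.ms w (k + 5) + ν.ex w (k + 5)) ?_
    calc _ = (sums cs + ν.ms w (k + 5)) +
          (sums cs' + ν'.ms w (k + 5 + T) + ν.ex w (k + 5)) := by abel
      _ = _ := by
        rw [h4, s4]
        abel

theorem LC.sco {w : Wall} {ν ν' : Node} {k T p : ℕ} {M K : Multiset ℕ}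
    (h : LC w ν k M) (s : SCO ν ν' T K p) : LO w ν' (k + T) (M + K) p := by
  obtain ⟨cs, h1, h2, h3, h4⟩ := h
  obtain ⟨cs', l, s1, s2, s5, s6, s3, s4⟩ := s w (k + 5)
  refine ⟨cs ++ cs', l, ?_, Ext_long h2 s2, s5, s6, ?_, ?_⟩
  · rw [Ext_lens, h1, s1]
  · rw [Ext_labs, Ext_leftL, h3, ← s3, add_assoc]
  · rw [Ext_sums, Ext_cut, Ext_leftS]
    refine add_right_cancel (b := ν.ms w (k + 5) + ν.ex w (k + 5)) ?_
    calc _ = (sums cs + ν.ms w (k + 5)) +
          (sums cs' + (adj (ν'.u.at w (k + 5 + T) :: l ++ [ν'.v.at w (k + 5 + T)]) : Multiset A)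
            + ν'.ms w (k + 5 + T) + ν.ex w (k + 5)) := by abel
      _ = _ := by
        rw [h4, s4]
        abel

theorem LO.soc {w : Wall} {ν ν' : Node} {k T p r : ℕ} {M K : Multiset ℕ}
    (h : LO w ν k M p) (s : SOC ν ν' T K r) : LC w ν' (k + T) (M + K + {p + r}) := by
  obtain ⟨cs, l, h1, h2, h5, h6, h3, h4⟩ := h
  obtain ⟨cs', l', s1, s2, s5, s6, s3, s4⟩ := s w (k + 5)
  set u := ν.u.at w (k + 5) with hu
  set v := ν.v.at w (k + 5) with hv
  have hlen : (v :: l' ++ [u] ++ l).length = p + r := by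
    simp only [List.length_append, List.length_cons, List.length_nil]
    omega
  refine ⟨cs ++ cs' ++ [v :: l' ++ [u] ++ l], ?_, Ext_long (Ext_long h2 s2) (Ext_long1 ?_), ?_, ?_⟩
  · rw [Ext_lens, Ext_lens, Ext_lens1, h1, s1, hlen]
  · rw [hlen]
    omega
  · rw [Ext_labs, Ext_labs, Ext_labs1, Ext_leftL, ← h3, ← s3, ← Multiset.coe_add]
    abel
  · rw [Ext_sums, Ext_sums, Ext_sums1, Ext_cyc, ← Multiset.coe_add, Ext_cut, Ext_leftS]
    refine add_right_cancel (b := ν.ms w (k + 5) + ν.ex w (k + 5) + {u + v}) ?_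
    calc _ = (sums cs + (adj (u :: l ++ [v]) : Multiset A) + ν.ms w (k + 5)) +
          (sums cs' + (adj (v :: l' ++ [u]) : Multiset A) + {u + v}
            + ν'.ms w (k + 5 + T) + ν.ex w (k + 5)) := by abel
      _ = _ := by
        rw [h4, s4]
        abel

theorem LO.soo {w : Wall} {ν ν' : Node} {k T p r p' : ℕ} {M K : Multiset ℕ}
    (h : LO w ν k M p) (s : SOO ν ν' T K r p') : LO w ν' (k + T) (M + K + {p + r}) p' := by
  obtain ⟨cs, l, h1, h2, h5, h6, h3, h4⟩ := h
  obtain ⟨cs', l', l2, s1, s2, s5, s6, s7, s8, s3, s4⟩ := s w (k + 5)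
  set u := ν.u.at w (k + 5) with hu
  set v := ν.v.at w (k + 5) with hv
  have hlen : (v :: l' ++ [u] ++ l).length = p + r := by
    simp only [List.length_append, List.length_cons, List.length_nil]
    omega
  refine ⟨cs ++ cs' ++ [v :: l' ++ [u] ++ l], l2, ?_, Ext_long (Ext_long h2 s2) (Ext_long1 ?_),
    s7, s8, ?_, ?_⟩
  · rw [Ext_lens, Ext_lens, Ext_lens1, h1, s1, hlen]
  · rw [hlen]
    omega
  · rw [Ext_labs, Ext_labs, Ext_labs1, Ext_leftL, ← h3, ← s3, ← Multiset.coe_add]
    abel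
  · rw [Ext_sums, Ext_sums, Ext_sums1, Ext_cyc, ← Multiset.coe_add, Ext_cut, Ext_leftS]
    refine add_right_cancel (b := ν.ms w (k + 5) + ν.ex w (k + 5) + {u + v}) ?_
    calc _ = (sums cs + (adj (u :: l ++ [v]) : Multiset A) + ν.ms w (k + 5)) +
          (sums cs' + (adj (v :: l' ++ [u]) : Multiset A) + {u + v}
            + (adj (ν'.u.at w (k + 5 + T) :: l2 ++ [ν'.v.at w (k + 5 + T)]) : Multiset A)
            + ν'.ms w (k + 5 + T) + ν.ex w (k + 5)) := by abel
      _ = _ := by
        rw [h4, s4]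
        abel

/-- the virtual edge `a b` is replaced by a path -/
theorem Ext_path {G : Type*} [Add G] (u v a b : G) (l l' l0 : List G) :
    (adj (u :: (l ++ a :: l0 ++ b :: l') ++ [v]) : Multiset G) + {a + b} =
      (adj (u :: l ++ a :: b :: l' ++ [v]) : Multiset G) + (adj (a :: l0 ++ [b]) : Multiset G) := by
  have e1 : u :: (l ++ a :: l0 ++ b :: l') ++ [v] = (u :: l) ++ a :: (l0 ++ b :: (l' ++ [v])) := by
    simp
  have e2 : u :: l ++ a :: b :: l' ++ [v] = (u :: l) ++ a :: (b :: (l' ++ [v])) := by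
    simp
  have e3 : adj (a :: (l0 ++ b :: (l' ++ [v]))) = adj (a :: l0 ++ [b]) ++ adj (b :: (l' ++ [v])) :=
    Ext_adj (a :: l0) b (l' ++ [v])
  have e4 : adj (a :: (b :: (l' ++ [v]))) = (a + b) :: adj (b :: (l' ++ [v])) := rfl
  rw [e1, e2, Ext_adj (u :: l) a (l0 ++ b :: (l' ++ [v])),
    Ext_adj (u :: l) a (b :: (l' ++ [v])), e3, e4, ← Multiset.coe_add, ← Multiset.coe_add,
    ← Multiset.coe_add, ← Multiset.cons_coe, ← Multiset.singleton_add]
  abel

theorem LO.sot {w : Wall} {ν ν' : Node} {k T p q : ℕ} {M K : Multiset ℕ}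
    (h : LO w ν k M p) (s : SOT ν ν' T K q) : LO w ν' (k + T) (M + K) (p + q) := by
  obtain ⟨cs, l0, h1, h2, h5, h6, h3, h4⟩ := h
  obtain ⟨cs', l, l', a, b, hab, s1, s2, s5, s3, s4⟩ := s w (k + 5)
  obtain ⟨l1, h7, h8, h9, h10⟩ : ∃ l1 : List A, l1.length = l0.length ∧
      (l1 : Multiset A) = (l0 : Multiset A) ∧
      (adj (ν.u.at w (k + 5) :: l0 ++ [ν.v.at w (k + 5)]) : Multiset A) =
        (adj (a :: l1 ++ [b]) : Multiset A) ∧ ν.u.at w (k + 5) + ν.v.at w (k + 5) = a + b := by
    rcases hab with ⟨ha, hb⟩ | ⟨ha, hb⟩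
    · exact ⟨l0, rfl, rfl, by rw [ha, hb], by rw [ha, hb]⟩
    · refine ⟨l0.reverse, List.length_reverse, Multiset.coe_reverse l0, ?_, by
        rw [ha, hb, add_comm]⟩
      rw [ha, hb]
      have h8 : ν.v.at w (k + 5) :: l0.reverse ++ [ν.u.at w (k + 5)] =
          (ν.u.at w (k + 5) :: l0 ++ [ν.v.at w (k + 5)]).reverse := by
        simp
      rw [h8, Ext_adj_reverse, Multiset.coe_reverse]
  have h11 := Ext_path (ν'.u.at w (k + 5 + T)) (ν'.v.at w (k + 5 + T)) a b l l' l1
  refine ⟨cs ++ cs', l ++ a :: l1 ++ b :: l', ?_, Ext_long h2 s2, ?_, by omega, ?_, ?_⟩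
  · rw [Ext_lens, h1, s1]
  · simp only [List.length_append, List.length_cons]
    omega
  · rw [Ext_labs, Ext_leftL, ← h3, ← s3, ← h8, ← Multiset.coe_add, ← Multiset.coe_add,
      ← Multiset.coe_add, ← Multiset.cons_coe, ← Multiset.cons_coe, ← Multiset.cons_coe,
      ← Multiset.cons_coe, ← Multiset.singleton_add, ← Multiset.singleton_add,
      ← Multiset.singleton_add]
    abel
  · rw [Ext_sums, Ext_cut, Ext_leftS]
    refine add_right_cancel (b := ν.ms w (k + 5) + ν.ex w (k + 5) + {a + b}) ?_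
    rw [h9, h10] at h4
    calc _ = (sums cs + ν.ms w (k + 5)) + (sums cs' + ν'.ms w (k + 5 + T) + ν.ex w (k + 5)) +
          ((adj (ν'.u.at w (k + 5 + T) :: (l ++ a :: l1 ++ b :: l') ++
            [ν'.v.at w (k + 5 + T)]) : Multiset A) + {a + b}) := by abel
      _ = (sums cs + (adj (a :: l1 ++ [b]) : Multiset A) + ν.ms w (k + 5)) +
          (sums cs' + (adj (ν'.u.at w (k + 5 + T) :: l ++ a :: b :: l' ++
            [ν'.v.at w (k + 5 + T)]) : Multiset A) + ν'.ms w (k + 5 + T) + ν.ex w (k + 5)) := by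
        rw [h11]
        abel
      _ = _ := by
        rw [h4, s4]
        abel

end Pool.Agent.helper8.VM
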