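import Pool.Agent.helper8.VM.Walls

set_option autoImplicit false

/-! # MP_be123d_co, block GLUE (gluing a left part and a mirrored left part; ~200 lines)
Replace the sorries in place; proof hints: /team-store/h8_vm_notes.md. -/

namespace Pool.Agent.helper8.VM

theorem Glue_adj_map {G H : Type*} [Add G] [Add H] (f : G → H)
    (hf : ∀ a b, f (a + b) = f a + f b) : ∀ l : List G, adj (l.map f) = (adj l).map f
  | [] => rfl
  | [_] => rfl
  | a :: b :: l => by
    have h := Glue_adj_map f hf (b :: l)
    rw [List.map_cons] at h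
    rw [List.map_cons, List.map_cons, adj, h, adj, List.map_cons, hf]

theorem Glue_cyc_map {G H : Type*} [Add G] [Add H] (f : G → H)
    (hf : ∀ a b, f (a + b) = f a + f b) (l : List G) : cyc (l.map f) = (cyc l).map f := by
  cases l with
  | nil => rfl
  | cons a l =>
    rw [List.map_cons, cyc, cyc, ← Glue_adj_map f hf, List.map_append, List.map_cons,
      List.map_singleton]

theorem Glue_adj_append {G : Type*} [Add G] (a : G) (l2 : List G) :
    ∀ l1 : List G, adj (l1 ++ a :: l2) = adj (l1 ++ [a]) ++ adj (a :: l2)
  | [] => rfl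
  | [x] => rfl
  | x :: y :: l => by
    have h := Glue_adj_append a l2 (y :: l)
    rw [List.cons_append, List.cons_append] at h
    rw [List.cons_append, List.cons_append, List.cons_append, List.cons_append, adj, adj, h,
      List.cons_append]

theorem Glue_adj_reverse {G : Type*} [AddCommMagma G] :
    ∀ l : List G, adj l.reverse = (adj l).reverse
  | [] => rfl
  | [_] => rfl
  | a :: b :: l => by
    have h := Glue_adj_reverse (b :: l)
    rw [List.reverse_cons] at h
    rw [List.reverse_cons, List.reverse_cons, List.append_assoc, List.singleton_append,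
      Glue_adj_append, h]
    change (adj (b :: l)).reverse ++ [b + a] = ((a + b) :: adj (b :: l)).reverse
    rw [List.reverse_cons, add_comm]

theorem Glue_labs_map {G H : Type*} (f : G → H) (cs : List (List G)) :
    labs (cs.map (List.map f)) = (labs cs).map f := by
  unfold labs
  rw [Multiset.map_coe, List.map_flatten]

theorem Glue_sums_map {G H : Type*} [Add G] [Add H] (f : G → H)
    (hf : ∀ a b, f (a + b) = f a + f b) (cs : List (List G)) :
    sums (cs.map (List.map f)) = (sums cs).map f := by
  unfold sums
  rw [Multiset.map_coe, List.map_flatten, List.map_map, List.map_map]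
  congr 3
  funext l
  exact Glue_cyc_map f hf l

theorem Glue_lens_map {G H : Type*} (f : G → H) (cs : List (List G)) :
    lens (cs.map (List.map f)) = lens cs := by
  unfold lens
  rw [List.map_map]
  congr 2
  funext l
  exact List.length_map f

theorem Glue_Long_map {G H : Type*} (f : G → H) {cs : List (List G)} (h : Long cs) :
    Long (cs.map (List.map f)) := by
  intro c hc
  obtain ⟨d, hd, rfl⟩ := List.mem_map.1 hc
  rw [List.length_map]
  exact h d hd

theorem Glue_labs_append {G : Type*} (cs cs' : List (List G)) :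
    labs (cs ++ cs') = labs cs + labs cs' := by
  unfold labs
  rw [List.flatten_append, Multiset.coe_add]

theorem Glue_sums_append {G : Type*} [Add G] (cs cs' : List (List G)) :
    sums (cs ++ cs') = sums cs + sums cs' := by
  unfold sums
  rw [List.map_append, List.flatten_append, Multiset.coe_add]

theorem Glue_lens_append {G : Type*} (cs cs' : List (List G)) :
    lens (cs ++ cs') = lens cs + lens cs' := by
  unfold lens
  rw [List.map_append, Multiset.coe_add]

theorem Glue_Long_append {G : Type*} {cs cs' : List (List G)} (h : Long cs) (h' : Long cs') :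
    Long (cs ++ cs') := by
  intro c hc
  rcases List.mem_append.1 hc with hc | hc
  · exact h c hc
  · exact h' c hc

theorem Glue_labs_single {G : Type*} (c : List G) : labs [c] = (c : Multiset G) := by
  unfold labs
  rw [List.flatten_singleton]

theorem Glue_sums_single {G : Type*} [Add G] (c : List G) :
    sums [c] = (cyc c : Multiset G) := by
  unfold sums
  rw [List.map_singleton, List.flatten_singleton]

theorem Glue_lens_single {G : Type*} (c : List G) : lens [c] = {c.length} := rfl

/-- halving -/
theorem Glue_half {css : List (List ℤ)} {h : ℕ} (hL : Long css)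
    (h1 : labs css = (Finset.Icc (-(h : ℤ)) h).val.map (fun x => 2 * x))
    (h2 : sums css = (Finset.Icc (-(h : ℤ)) h).val.map (fun x => 2 * x)) :
    Labelable (lens css) := by
  have hev : ∀ c ∈ css, ∀ x ∈ c, 2 * (x / 2) = x := by
    intro c hc x hx
    have hx1 : x ∈ labs css := by
      unfold labs
      rw [Multiset.mem_coe, List.mem_flatten]
      exact ⟨c, hc, hx⟩
    rw [h1, Multiset.mem_map] at hx1
    obtain ⟨y, _, rfl⟩ := hx1
    omega
  have hcss : (css.map (List.map (fun x : ℤ => x / 2))).map (List.map (fun x : ℤ => 2 * x)) =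
      css := by
    rw [List.map_map]
    conv_rhs => rw [← List.map_id css]
    apply List.map_congr_left
    intro c hc
    rw [Function.comp_apply, List.map_map]
    conv_rhs => rw [id_eq, ← List.map_id c]
    apply List.map_congr_left
    intro x hx
    exact hev c hc x hx
  have hinj : Function.Injective (fun x : ℤ => 2 * x) := by
    intro x y hxy
    simp only at hxy
    omega
  refine ⟨h, css.map (List.map (fun x : ℤ => x / 2)), Glue_lens_map _ _, Glue_Long_map _ hL,
    ?_, ?_⟩
  · apply Multiset.map_injective hinj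
    rw [← Glue_labs_map, hcss, h1]
  · apply Multiset.map_injective hinj
    rw [← Glue_sums_map _ (fun a b => by ring), hcss, h2]

theorem Glue_ev_add (T : ℤ) (a b : A) : ev T (a + b) = ev T a + ev T b := by
  unfold ev
  rw [Prod.fst_add, Prod.snd_add]
  ring

theorem Glue_bxby (w : Wall) {T : ℤ} (hT : T % 2 = 0) (i : ℤ) :
    ev T (w.bx (T - i)) + ev T (w.by' i) = -T := by
  have h : (T - i) % 2 = i % 2 := by omega
  unfold Wall.bx Wall.by' Wall.p1 Wall.p2 Wall.q1 Wall.q2 ev
  rw [h]
  split_ifs <;> simp only <;> ring

theorem Glue_byb (w : Wall) {T : ℤ} (hT : T % 2 = 0) (i : ℤ) :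
    ev T (w.by' (T - i)) + ev T (w.bx i) = -T := by
  have h := Glue_bxby w hT (T - i)
  rw [sub_sub_cancel] at h
  rw [add_comm]
  exact h

theorem Glue_X (w : Wall) {T : ℤ} (hT : T % 2 = 0) (i : ℤ) :
    -ev T (w.X (T - i)) = ev T (w.Y i) := by
  have h := Glue_bxby w hT i
  unfold Wall.X Wall.Y
  rw [Glue_ev_add, Glue_ev_add]
  have h1 : ev T (0, T - i) = T - i := by simp [ev]
  have h2 : ev T (0, i) = i := by simp [ev]
  linarith

theorem Glue_Y (w : Wall) {T : ℤ} (hT : T % 2 = 0) (i : ℤ) :
    -ev T (w.Y (T - i)) = ev T (w.X i) := by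
  have h := Glue_byb w hT i
  unfold Wall.X Wall.Y
  rw [Glue_ev_add, Glue_ev_add]
  have h1 : ev T (0, T - i) = T - i := by simp [ev]
  have h2 : ev T (0, i) = i := by simp [ev]
  linarith

theorem Glue_R (w : Wall) (T i : ℤ) : -ev T (w.R (T - i)) = ev T (w.R i) := by
  unfold Wall.R ev
  simp only
  ring

theorem Glue_U (w : Wall) {T : ℤ} (hT : T % 2 = 0) (i : ℤ) :
    -ev T (w.U (T - i)) = ev T (w.V i) := by
  have h := Glue_bxby w hT i
  unfold Wall.U Wall.V
  rw [Glue_ev_add, Glue_ev_add]
  have h1 : ev T (1, -(T - i)) = i := by simp [ev]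
  have h2 : ev T (1, -i) = T - i := by simp [ev]; ring
  linarith

theorem Glue_V (w : Wall) {T : ℤ} (hT : T % 2 = 0) (i : ℤ) :
    -ev T (w.V (T - i)) = ev T (w.U i) := by
  have h := Glue_byb w hT i
  unfold Wall.U Wall.V
  rw [Glue_ev_add, Glue_ev_add]
  have h1 : ev T (1, -(T - i)) = i := by simp [ev]
  have h2 : ev T (1, -i) = T - i := by simp [ev]; ring
  linarith

theorem Glue_lab (w : Wall) {T t t' : ℤ} (hT : T % 2 = 0) (ht : t + t' = T + 1) (a : Lab) :
    -ev T (a.mirror.at w t') = ev T (a.at w t) := by
  cases a with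
  | X i =>
    have h := Glue_Y w hT (t + i)
    have e : T - (t + i) = t' + (-1 - i) := by linarith
    rw [e] at h
    exact h
  | Y i =>
    have h := Glue_X w hT (t + i)
    have e : T - (t + i) = t' + (-1 - i) := by linarith
    rw [e] at h
    exact h
  | R i =>
    have h := Glue_R w T (t + i)
    have e : T - (t + i) = t' + (-1 - i) := by linarith
    rw [e] at h
    exact h

theorem Glue_mapU (w : Wall) {T t t' : ℤ} (hT : T % 2 = 0) (ht : t + t' = T + 1)
    (l : List ℤ) : ((l.map fun m => -1 - m).map fun e => w.U (t' + e)).map (fun a => -ev T a) =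
      (l.map fun e => w.V (t + e)).map (ev T) := by
  rw [List.map_map, List.map_map, List.map_map]
  apply List.map_congr_left
  intro m _
  have h := Glue_U w hT (t + m)
  have e : T - (t + m) = t' + (-1 - m) := by linarith
  rw [e] at h
  exact h

theorem Glue_mapV (w : Wall) {T t t' : ℤ} (hT : T % 2 = 0) (ht : t + t' = T + 1)
    (l : List ℤ) : ((l.map fun m => -1 - m).map fun e => w.V (t' + e)).map (fun a => -ev T a) =
      (l.map fun e => w.U (t + e)).map (ev T) := by
  rw [List.map_map, List.map_map, List.map_map]
  apply List.map_congr_left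
  intro m _
  have h := Glue_V w hT (t + m)
  have e : T - (t + m) = t' + (-1 - m) := by linarith
  rw [e] at h
  exact h

theorem Glue_ms (w : Wall) (ν : Node) {T t t' : ℤ} (hT : T % 2 = 0) (ht : t + t' = T + 1) :
    (ν.mirror.ms w t').map (fun a => -ev T a) = (ν.ex w t).map (ev T) := by
  unfold Node.ms Node.ex Node.mirror
  rw [Multiset.map_coe, Multiset.map_coe, List.map_append, List.map_append]
  simp only
  rw [Glue_mapU w hT ht, Glue_mapV w hT ht, Multiset.coe_eq_coe]
  exact List.perm_append_comm

theorem Glue_ex (w : Wall) (ν : Node) {T t t' : ℤ} (hT : T % 2 = 0) (ht : t + t' = T + 1) :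
    (ν.mirror.ex w t').map (fun a => -ev T a) = (ν.ms w t).map (ev T) := by
  unfold Node.ms Node.ex Node.mirror
  rw [Multiset.map_coe, Multiset.map_coe, List.map_append, List.map_append]
  simp only
  rw [Glue_mapU w hT ht, Glue_mapV w hT ht, Multiset.coe_eq_coe]
  exact List.perm_append_comm

theorem glueC {w : Wall} {ν : Node} {k k' : ℕ} {M K : Multiset ℕ} (hw : GoodWall w)
    (hk : Odd (k + k')) (h : LC w ν k M) (h' : LC w ν.mirror k' K) : Labelable (M + K) := by
  obtain ⟨cs, rfl, hL, hl, hs⟩ := h
  obtain ⟨cs', rfl, hL', hl', hs'⟩ := h'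
  obtain ⟨H, hH1, hH2⟩ := hw k k' hk
  have hT : ((k : ℤ) + k' + 9) % 2 = 0 := by
    obtain ⟨j, hj⟩ := hk
    omega
  have ht : ((k : ℤ) + 5) + ((k' : ℤ) + 5) = ((k : ℤ) + k' + 9) + 1 := by ring
  set T : ℤ := (k : ℤ) + k' + 9 with hTdef
  have hadd : ∀ a b, ev T (a + b) = ev T a + ev T b := Glue_ev_add T
  have hadd' : ∀ a b : A, -ev T (a + b) = -ev T a + -ev T b := by
    intro a b
    rw [hadd]
    ring
  have e1 := congrArg (Multiset.map (ev T)) hs
  have e2 := congrArg (Multiset.map (fun a => -ev T a)) hs'
  rw [Multiset.map_add, Multiset.map_add] at e1 e2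
  rw [Glue_ms w ν hT ht, Glue_ex w ν hT ht] at e2
  have key : Labelable (lens (cs.map (List.map (ev T)) ++
      cs'.map (List.map (fun a => -ev T a)))) := by
    refine Glue_half (h := H) (Glue_Long_append (Glue_Long_map _ hL) (Glue_Long_map _ hL'))
      ?_ ?_
    · rw [Glue_labs_append, Glue_labs_map, Glue_labs_map, hl, hl', hH1]
    · rw [Glue_sums_append, Glue_sums_map _ hadd, Glue_sums_map _ hadd', ← hH2]
      apply add_right_cancel (b := (ν.ms w (k + 5)).map (ev T) + (ν.ex w (k + 5)).map (ev T))
      rw [add_add_add_comm, e1, e2]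
      abel
  rw [Glue_lens_append, Glue_lens_map, Glue_lens_map] at key
  exact key

theorem glueO {w : Wall} {ν : Node} {k k' p r : ℕ} {M K : Multiset ℕ} (hw : GoodWall w)
    (hk : Odd (k + k')) (h : LO w ν k M p) (h' : LE w ν.mirror k' K r) :
    Labelable (M + K + {p + r}) := by
  obtain ⟨cs, l, rfl, hL, hp, hp0, hl, hs⟩ := h
  obtain ⟨cs', l', rfl, hL', hr, hr0, hl', hs'⟩ := h'
  obtain ⟨H, hH1, hH2⟩ := hw k k' hk
  have hT : ((k : ℤ) + k' + 9) % 2 = 0 := by
    obtain ⟨j, hj⟩ := hk
    omega
  have ht : ((k : ℤ) + 5) + ((k' : ℤ) + 5) = ((k : ℤ) + k' + 9) + 1 := by ring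
  set T : ℤ := (k : ℤ) + k' + 9 with hTdef
  have hadd : ∀ a b, ev T (a + b) = ev T a + ev T b := Glue_ev_add T
  have hadd' : ∀ a b : A, -ev T (a + b) = -ev T a + -ev T b := by
    intro a b
    rw [hadd]
    ring
  have hu : -ev T (ν.mirror.u.at w (k' + 5)) = ev T (ν.u.at w (k + 5)) :=
    Glue_lab w hT ht ν.u
  have hv : -ev T (ν.mirror.v.at w (k' + 5)) = ev T (ν.v.at w (k + 5)) :=
    Glue_lab w hT ht ν.v
  have e1 := congrArg (Multiset.map (ev T)) hs
  have e2 := congrArg (Multiset.map (fun a => -ev T a)) hs'
  have f1 := congrArg (Multiset.map (ev T)) hl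
  have f2 := congrArg (Multiset.map (fun a => -ev T a)) hl'
  rw [Multiset.map_add] at f1 f2
  simp only [Multiset.map_add, Multiset.map_singleton, Multiset.map_coe] at e1 e2 f1 f2
  rw [← Glue_adj_map _ hadd, List.map_append, List.map_cons, List.map_singleton, hadd] at e1
  rw [← Glue_cyc_map _ hadd', List.map_append, List.map_cons, List.map_singleton, hu, hv,
    Glue_ms w ν hT ht, Glue_ex w ν hT ht] at e2
  rw [List.map_append, List.map_cons, List.map_singleton, hu, hv] at f2
  generalize ev T (ν.u.at w (k + 5)) = u at *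
  generalize ev T (ν.v.at w (k + 5)) = v at *
  have hcyc : cyc (u :: l'.map (fun a => -ev T a) ++ [v]) =
      adj (u :: l'.map (fun a => -ev T a) ++ [v]) ++ [v + u] := by
    rw [List.cons_append, cyc, List.cons_append, List.append_assoc, ← List.cons_append,
      List.singleton_append, Glue_adj_append]
    rfl
  have key : Labelable (lens (cs.map (List.map (ev T)) ++
      cs'.map (List.map (fun a => -ev T a)) ++
      [u :: (l'.map (fun a => -ev T a) ++ v :: (l.map (ev T)).reverse)])) := by
    refine Glue_half (h := H) (Glue_Long_append (Glue_Long_append (Glue_Long_map _ hL)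
      (Glue_Long_map _ hL')) ?_) ?_ ?_
    · intro c hc
      rw [List.mem_singleton] at hc
      subst hc
      rw [List.length_cons, List.length_append, List.length_cons, List.length_map,
        List.length_reverse, List.length_map]
      omega
    · rw [Glue_labs_append, Glue_labs_append, Glue_labs_map, Glue_labs_map, Glue_labs_single,
        ← hH1, ← f1, ← f2]
      have g1 : ((u :: (l'.map (fun a => -ev T a) ++ v :: (l.map (ev T)).reverse) : List ℤ) :
          Multiset ℤ) = ((l.map (ev T) : List ℤ) : Multiset ℤ) +
            ((u :: l'.map (fun a => -ev T a) ++ [v] : List ℤ) : Multiset ℤ) := by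
        rw [Multiset.coe_add, Multiset.coe_eq_coe]
        have g2 : (u :: (l'.map (fun a => -ev T a) ++ v :: (l.map (ev T)).reverse)) =
            (u :: l'.map (fun a => -ev T a) ++ [v]) ++ (l.map (ev T)).reverse := by simp
        rw [g2]
        exact List.perm_append_comm.trans ((List.reverse_perm _).append_right _)
      rw [g1]
      abel
    · rw [Glue_sums_append, Glue_sums_append, Glue_sums_map _ hadd, Glue_sums_map _ hadd',
        Glue_sums_single, ← hH2]
      have g1 : cyc (u :: (l'.map (fun a => -ev T a) ++ v :: (l.map (ev T)).reverse)) =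
          adj (u :: l'.map (fun a => -ev T a) ++ [v]) ++
            (adj (u :: l.map (ev T) ++ [v])).reverse := by
        rw [cyc, ← List.cons_append, List.append_assoc, List.cons_append (a := v),
          Glue_adj_append, ← Glue_adj_reverse]
        simp
      have g2 : ((cyc (u :: (l'.map (fun a => -ev T a) ++ v :: (l.map (ev T)).reverse)) :
          List ℤ) : Multiset ℤ) =
          ((adj (u :: l'.map (fun a => -ev T a) ++ [v]) : List ℤ) : Multiset ℤ) +
            ((adj (u :: l.map (ev T) ++ [v]) : List ℤ) : Multiset ℤ) := by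
        rw [g1, ← Multiset.coe_add, Multiset.coe_reverse]
      rw [hcyc, ← Multiset.coe_add, Multiset.coe_singleton, add_comm v u] at e2
      rw [g2]
      apply add_right_cancel (b := (ν.ms w (k + 5)).map (ev T) + (ν.ex w (k + 5)).map (ev T) +
        {u + v})
      calc _ = ((sums cs).map (ev T) + ((adj (u :: l.map (ev T) ++ [v]) : List ℤ) :
            Multiset ℤ) + (ν.ms w (k + 5)).map (ev T)) +
          ((sums cs').map (fun a => -ev T a) +
            (((adj (u :: l'.map (fun a => -ev T a) ++ [v]) : List ℤ) : Multiset ℤ) +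
              {u + v}) + (ν.ex w (k + 5)).map (ev T)) := by abel
        _ = _ := by
          rw [e1, e2]
          abel
  rw [Glue_lens_append, Glue_lens_append, Glue_lens_map, Glue_lens_map, Glue_lens_single,
    List.length_cons, List.length_append, List.length_cons, List.length_map,
    List.length_reverse, List.length_map] at key
  have hlen : l'.length + (l.length + 1) + 1 = p + r := by omega
  rw [hlen] at key
  exact key

end Pool.Agent.helper8.VM
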