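import Pool.Agent.helper8.VM.Dec

set_option autoImplicit false

open SimpleGraph

/-! # MP_be123d_co, block ISO (isomorphisms and numbers; ~250 lines)
-/

namespace Pool.Agent.helper8.VM

theorem card_of_cycDec {V : Type} [Fintype V] (G : SimpleGraph V) {cs : List (List V)}
    (hc : CycDec G cs) : (lens cs).sum = Fintype.card V := by
  classical
  have h1 : (lens cs).sum = cs.flatten.length := by
    unfold lens
    rw [Multiset.sum_coe, List.length_flatten]
  have h2 : cs.flatten.toFinset = Finset.univ := by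
    ext v
    simp only [List.mem_toFinset, Finset.mem_univ, iff_true]
    exact hc.mem v
  rw [h1, ← List.toFinset_card_of_nodup hc.nodup, h2, Finset.card_univ]

/-- `y` follows `x` on the cycle `c` -/
private def Iso_nx {V : Type} (c : List V) (x y : V) : Prop := (x, y) ∈ List.zip c (c.rotate 1)

private theorem Iso_nx_iff {V : Type} (l : List V) (x y : V) :
    Iso_nx l x y ↔ ∃ (i : ℕ) (h : i < l.length),
      l[i] = x ∧ l[(i + 1) % l.length]'(Nat.mod_lt _ (by omega)) = y := by
  unfold Iso_nx
  rw [List.mem_iff_getElem]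
  constructor
  · rintro ⟨i, hi, h⟩
    have hi' : i < l.length := by
      rw [List.length_zip] at hi
      omega
    refine ⟨i, hi', ?_⟩
    rw [List.getElem_zip] at h
    simp only [List.getElem_rotate, Prod.mk.injEq] at h
    exact h
  · rintro ⟨i, hi, h1, h2⟩
    have hi' : i < (List.zip l (l.rotate 1)).length := by
      rw [List.length_zip, List.length_rotate]
      omega
    refine ⟨i, hi', ?_⟩
    rw [List.getElem_zip]
    simp only [List.getElem_rotate, Prod.mk.injEq]
    exact ⟨h1, h2⟩

private theorem Iso_nx_left {V : Type} {c : List V} {x y : V} (h : Iso_nx c x y) : x ∈ c :=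
  (List.of_mem_zip h).1

private theorem Iso_nx_right {V : Type} {c : List V} {x y : V} (h : Iso_nx c x y) : y ∈ c :=
  List.mem_rotate.1 (List.of_mem_zip h).2

/-- `H` is a copy of the union of the cycles `cs` -/
private def Iso_Emb {V W : Type} (H : SimpleGraph W) (cs : List (List V)) : Prop :=
  ∃ φ : W → V, Function.Injective φ ∧ (∀ v, (∃ a, φ a = v) ↔ v ∈ cs.flatten) ∧
    ∀ a b, H.Adj a b ↔ ∃ c ∈ cs, Iso_nx c (φ a) (φ b) ∨ Iso_nx c (φ b) (φ a)

private theorem Iso_mod {n i j : ℕ} (hn : 2 ≤ n) (hi : i < n) (hj : j < n) :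
    (j + (n - i)) % n = 1 ↔ (i + 1) % n = j := by
  rcases Nat.lt_or_ge j i with h | h
  · rw [Nat.mod_eq_of_lt (show j + (n - i) < n by omega)]
    rcases Nat.lt_or_ge (i + 1) n with h2 | h2
    · rw [Nat.mod_eq_of_lt h2]
      omega
    · have : i + 1 = n := by omega
      rw [this, Nat.mod_self]
      omega
  · have h1 : j + (n - i) = (j - i) + n := by omega
    rw [h1, Nat.add_mod_right, Nat.mod_eq_of_lt (show j - i < n by omega)]
    rcases Nat.lt_or_ge (i + 1) n with h2 | h2
    · rw [Nat.mod_eq_of_lt h2]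
      omega
    · have : i + 1 = n := by omega
      rw [this, Nat.mod_self]
      omega

private theorem Iso_nx_get {V : Type} {l : List V} (hnd : l.Nodup) (i j : Fin l.length) :
    Iso_nx l (l.get i) (l.get j) ↔ (i.val + 1) % l.length = j.val := by
  rw [Iso_nx_iff]
  constructor
  · rintro ⟨k, hk, h1, h2⟩
    have h3 : k = i.val := (hnd.getElem_inj_iff (hi := hk) (hj := i.isLt)).1 h1
    subst h3
    exact (hnd.getElem_inj_iff (hi := Nat.mod_lt _ (by omega)) (hj := j.isLt)).1 h2
  · intro h
    refine ⟨i.val, i.isLt, rfl, ?_⟩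
    have h2 : l.get j = l[j.val] := rfl
    rw [h2]
    simp only [h]

private theorem Iso_single {V : Type} {c : List V} {n : ℕ} (hnd : c.Nodup) (hl : c.length = n)
    (hn : 3 ≤ n) : Iso_Emb (cycleGraph n) [c] := by
  subst hl
  refine ⟨c.get, List.nodup_iff_injective_get.1 hnd, ?_, ?_⟩
  · intro v
    simp only [List.flatten_cons, List.flatten_nil, List.append_nil]
    rw [List.mem_iff_get]
  · intro i j
    rw [cycleGraph_adj']
    have hi := i.isLt
    have hj := j.isLt
    simp only [List.mem_singleton, exists_eq_left]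
    rw [Iso_nx_get hnd, Iso_nx_get hnd, Fin.val_sub, Fin.val_sub, or_comm]
    have e1 := Iso_mod (n := c.length) (by omega) hi hj
    have e2 := Iso_mod (n := c.length) (by omega) hj hi
    rw [← e1, ← e2, add_comm (c.length - i.val), add_comm (c.length - j.val)]

private theorem Iso_append {V W W' : Type} {H : SimpleGraph W} {H' : SimpleGraph W'}
    {cs cs' : List (List V)} (h : Iso_Emb H cs) (h' : Iso_Emb H' cs')
    (hnd : (cs ++ cs').flatten.Nodup) : Iso_Emb (H ⊕g H') (cs ++ cs') := by
  obtain ⟨φ, h1, h2, h3⟩ := h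
  obtain ⟨φ', h1', h2', h3'⟩ := h'
  rw [List.flatten_append, List.nodup_append] at hnd
  obtain ⟨-, -, hdis⟩ := hnd
  have hd : ∀ a b, φ a ≠ φ' b := fun a b => hdis _ ((h2 _).1 ⟨a, rfl⟩) _ ((h2' _).1 ⟨b, rfl⟩)
  refine ⟨Sum.elim φ φ', ?_, ?_, ?_⟩
  · rintro (a | a) (b | b) hab
    · exact congrArg _ (h1 hab)
    · exact absurd hab (hd a b)
    · exact absurd hab.symm (hd b a)
    · exact congrArg _ (h1' hab)
  · intro v
    rw [List.flatten_append, List.mem_append, ← h2, ← h2']
    constructor
    · rintro ⟨a | a, ha⟩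
      · exact Or.inl ⟨a, ha⟩
      · exact Or.inr ⟨a, ha⟩
    · rintro (⟨a, ha⟩ | ⟨a, ha⟩)
      · exact ⟨Sum.inl a, ha⟩
      · exact ⟨Sum.inr a, ha⟩
  · have hout : ∀ (a : W) (c : List V), c ∈ cs' → φ a ∉ c := by
      intro a c hc hm
      exact hdis _ ((h2 _).1 ⟨a, rfl⟩) _ (List.mem_flatten.2 ⟨c, hc, hm⟩) rfl
    have hout' : ∀ (a : W') (c : List V), c ∈ cs → φ' a ∉ c := by
      intro a c hc hm
      exact hdis _ (List.mem_flatten.2 ⟨c, hc, hm⟩) _ ((h2' _).1 ⟨a, rfl⟩) rfl
    rintro (a | a) (b | b)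
    · simp only [Sum.elim_inl]
      rw [show (H ⊕g H').Adj (Sum.inl a) (Sum.inl b) ↔ H.Adj a b from Iff.rfl, h3]
      constructor
      · rintro ⟨c, hc, h⟩
        exact ⟨c, List.mem_append_left _ hc, h⟩
      · rintro ⟨c, hc, h⟩
        rcases List.mem_append.1 hc with hc | hc
        · exact ⟨c, hc, h⟩
        · rcases h with h | h
          · exact absurd (Iso_nx_left h) (hout a c hc)
          · exact absurd (Iso_nx_left h) (hout b c hc)
    · simp only [Sum.elim_inl, Sum.elim_inr]
      rw [show (H ⊕g H').Adj (Sum.inl a) (Sum.inr b) ↔ False by simp, false_iff]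
      rintro ⟨c, hc, h⟩
      rcases List.mem_append.1 hc with hc | hc
      · rcases h with h | h
        · exact hout' b c hc (Iso_nx_right h)
        · exact hout' b c hc (Iso_nx_left h)
      · rcases h with h | h
        · exact hout a c hc (Iso_nx_left h)
        · exact hout a c hc (Iso_nx_right h)
    · simp only [Sum.elim_inl, Sum.elim_inr]
      rw [show (H ⊕g H').Adj (Sum.inr a) (Sum.inl b) ↔ False by simp, false_iff]
      rintro ⟨c, hc, h⟩
      rcases List.mem_append.1 hc with hc | hc
      · rcases h with h | h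
        · exact hout' a c hc (Iso_nx_left h)
        · exact hout' a c hc (Iso_nx_right h)
      · rcases h with h | h
        · exact hout b c hc (Iso_nx_right h)
        · exact hout b c hc (Iso_nx_left h)
    · simp only [Sum.elim_inr]
      rw [show (H ⊕g H').Adj (Sum.inr a) (Sum.inr b) ↔ H'.Adj a b from Iff.rfl, h3']
      constructor
      · rintro ⟨c, hc, h⟩
        exact ⟨c, List.mem_append_right _ hc, h⟩
      · rintro ⟨c, hc, h⟩
        rcases List.mem_append.1 hc with hc | hc
        · rcases h with h | h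
          · exact absurd (Iso_nx_left h) (hout' a c hc)
          · exact absurd (Iso_nx_left h) (hout' b c hc)
        · exact ⟨c, hc, h⟩

private theorem Iso_of_emb {V W : Type} {G : SimpleGraph V} {H : SimpleGraph W}
    {cs : List (List V)} (hc : CycDec G cs) (h : Iso_Emb H cs) : Nonempty (G ≃g H) := by
  obtain ⟨φ, h1, h2, h3⟩ := h
  have hb : Function.Bijective φ := ⟨h1, fun v => (h2 v).2 (hc.mem v)⟩
  refine ⟨(RelIso.symm ⟨Equiv.ofBijective φ hb, ?_⟩ : G ≃g H)⟩
  intro a b
  rw [Equiv.ofBijective_apply, Equiv.ofBijective_apply, hc.adj, h3]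
  rfl

private theorem Iso_perm {V : Type} {G : SimpleGraph V} {cs cs' : List (List V)}
    (hc : CycDec G cs) (h : cs.Perm cs') : CycDec G cs' where
  len c hcm := hc.len c (h.mem_iff.2 hcm)
  nodup := (h.flatten.nodup_iff).1 hc.nodup
  mem v := h.flatten.mem_iff.1 (hc.mem v)
  adj u v := by
    rw [hc.adj]
    constructor
    · rintro ⟨c, hcm, h'⟩
      exact ⟨c, h.mem_iff.1 hcm, h'⟩
    · rintro ⟨c, hcm, h'⟩
      exact ⟨c, h.mem_iff.2 hcm, h'⟩

/-- reordering of a family with prescribed lengths -/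
private theorem Iso_reorder {V : Type} (cs : List (List V)) (l : List ℕ)
    (h : lens cs = (l : Multiset ℕ)) : ∃ cs' : List (List V), cs.Perm cs' ∧
      cs'.map List.length = l := by
  unfold lens at h
  rw [Multiset.coe_eq_coe] at h
  obtain ⟨m, h1, h2⟩ : ∃ m : List (List V), cs.Perm m ∧
      List.Forall₂ (fun (c : List V) (n : ℕ) => c.length = n) m l := by
    have h3 : List.Forall₂ (fun (c : List V) (n : ℕ) => c.length = n) cs (cs.map List.length) := by
      rw [List.forall₂_map_right_iff]
      exact List.forall₂_same.2 fun _ _ => rfl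
    have h4 : (Relation.Comp (List.Forall₂ (fun (c : List V) (n : ℕ) => c.length = n))
        List.Perm) cs l := ⟨_, h3, h⟩
    rw [List.forall₂_comp_perm_eq_perm_comp_forall₂] at h4
    exact h4
  refine ⟨m, h1, ?_⟩
  have h5 : List.Forall₂ (fun a b : ℕ => a = b) (m.map List.length) l := by
    rw [List.forall₂_map_left_iff]
    exact h2
  exact List.forall₂_eq_eq_eq.le _ _ h5

theorem iso34 {V : Type} (G : SimpleGraph V) {cs : List (List V)} (hc : CycDec G cs)
    (h : lens cs = {3, 4}) : Nonempty (G ≃g (cycleGraph 3 ⊕g cycleGraph 4)) := by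
  obtain ⟨cs', h1, h2⟩ := Iso_reorder cs [3, 4] h
  have hc' := Iso_perm hc h1
  match cs', h2 with
  | [c₁, c₂], h2 =>
    simp only [List.map_cons, List.map_nil, List.cons.injEq, and_true] at h2
    have hnd := hc'.nodup
    have hn : ∀ c ∈ [c₁, c₂], c.Nodup := (List.nodup_flatten.1 hnd).1
    exact Iso_of_emb hc' (Iso_append (cs := [c₁]) (cs' := [c₂])
      (Iso_single (hn c₁ (by simp)) h2.1 (by norm_num))
      (Iso_single (hn c₂ (by simp)) h2.2 (by norm_num)) hnd)
  | [], h2 => simp at h2
  | [_], h2 => simp at h2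
  | _ :: _ :: _ :: _, h2 => simp at h2

theorem iso3334 {V : Type} (G : SimpleGraph V) {cs : List (List V)} (hc : CycDec G cs)
    (h : lens cs = {3, 3, 3, 4}) :
    Nonempty (G ≃g (((cycleGraph 3 ⊕g cycleGraph 3) ⊕g cycleGraph 3) ⊕g cycleGraph 4)) := by
  obtain ⟨cs', h1, h2⟩ := Iso_reorder cs [3, 3, 3, 4] h
  have hc' := Iso_perm hc h1
  match cs', h2 with
  | [c₁, c₂, c₃, c₄], h2 =>
    simp only [List.map_cons, List.map_nil, List.cons.injEq, and_true] at h2
    obtain ⟨l1, l2, l3, l4⟩ := h2
    have hnd := hc'.nodup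
    have hn : ∀ c ∈ [c₁, c₂, c₃, c₄], c.Nodup := (List.nodup_flatten.1 hnd).1
    have hnd3 : ([c₁, c₂, c₃] : List (List V)).flatten.Nodup := by
      have : ([c₁, c₂, c₃, c₄] : List (List V)) = [c₁, c₂, c₃] ++ [c₄] := rfl
      rw [this, List.flatten_append] at hnd
      exact (List.nodup_append.1 hnd).1
    have hnd2 : ([c₁, c₂] : List (List V)).flatten.Nodup := by
      have : ([c₁, c₂, c₃] : List (List V)) = [c₁, c₂] ++ [c₃] := rfl
      rw [this, List.flatten_append] at hnd3
      exact (List.nodup_append.1 hnd3).1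
    have s1 := Iso_single (hn c₁ (by simp)) l1 (by norm_num)
    have s2 := Iso_single (hn c₂ (by simp)) l2 (by norm_num)
    have s3 := Iso_single (hn c₃ (by simp)) l3 (by norm_num)
    have s4 := Iso_single (hn c₄ (by simp)) l4 (by norm_num)
    exact Iso_of_emb hc' (Iso_append (cs := [c₁, c₂, c₃]) (cs' := [c₄])
      (Iso_append (cs := [c₁, c₂]) (cs' := [c₃])
        (Iso_append (cs := [c₁]) (cs' := [c₂]) s1 s2 hnd2) s3 hnd3) s4 hnd)
  | [], h2 => simp at h2
  | [_], h2 => simp at h2
  | [_, _], h2 => simp at h2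
  | [_, _, _], h2 => simp at h2
  | _ :: _ :: _ :: _ :: _ :: _, h2 => simp at h2

theorem iso335 {V : Type} (G : SimpleGraph V) {cs : List (List V)} (hc : CycDec G cs)
    (h : lens cs = {3, 3, 5}) :
    Nonempty (G ≃g ((cycleGraph 3 ⊕g cycleGraph 3) ⊕g cycleGraph 5)) := by
  obtain ⟨cs', h1, h2⟩ := Iso_reorder cs [3, 3, 5] h
  have hc' := Iso_perm hc h1
  match cs', h2 with
  | [c₁, c₂, c₃], h2 =>
    simp only [List.map_cons, List.map_nil, List.cons.injEq, and_true] at h2
    obtain ⟨l1, l2, l3⟩ := h2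
    have hnd3 := hc'.nodup
    have hn : ∀ c ∈ [c₁, c₂, c₃], c.Nodup := (List.nodup_flatten.1 hnd3).1
    have hnd2 : ([c₁, c₂] : List (List V)).flatten.Nodup := by
      have : ([c₁, c₂, c₃] : List (List V)) = [c₁, c₂] ++ [c₃] := rfl
      rw [this, List.flatten_append] at hnd3
      exact (List.nodup_append.1 hnd3).1
    have s1 := Iso_single (hn c₁ (by simp)) l1 (by norm_num)
    have s2 := Iso_single (hn c₂ (by simp)) l2 (by norm_num)
    have s3 := Iso_single (hn c₃ (by simp)) l3 (by norm_num)
    exact Iso_of_emb hc' (Iso_append (cs := [c₁, c₂]) (cs' := [c₃])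
      (Iso_append (cs := [c₁]) (cs' := [c₂]) s1 s2 hnd2) s3 hnd3)
  | [], h2 => simp at h2
  | [_], h2 => simp at h2
  | [_, _], h2 => simp at h2
  | _ :: _ :: _ :: _ :: _, h2 => simp at h2

/-- two members of the family with a common vertex are equal -/
private theorem Iso_eq_of_mem {V : Type} {cs : List (List V)} (hnd : cs.flatten.Nodup)
    {c c' : List V} (hc : c ∈ cs) (hc' : c' ∈ cs) {v : V} (h : v ∈ c) (h' : v ∈ c') : c = c' := by
  by_contra hne
  have h1 := (List.nodup_flatten.1 hnd).2
  have : Std.Symm (List.Disjoint : List V → List V → Prop) := ⟨fun _ _ h => h.symm⟩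
  exact (List.Pairwise.forall h1) hc hc' hne h h'

/-- the number of triangles -/
theorem count3 {V : Type} [Fintype V] [DecidableEq V] (G : SimpleGraph V) [DecidableRel G.Adj]
    {cs : List (List V)} (hc : CycDec G cs) :
    (lens cs).count 3 = (G.cliqueFinset 3).card := by
  set L : List (List V) := cs.filter fun c => c.length = 3 with hL
  have hcount : (lens cs).count 3 = L.length := by
    unfold lens
    rw [Multiset.coe_count, List.count, List.countP_map, hL, List.countP_eq_length_filter]
    congr 1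
  have hmemL : ∀ c, c ∈ L ↔ c ∈ cs ∧ c.length = 3 := by
    intro c
    rw [hL, List.mem_filter]
    simp
  have hcsnd : cs.Nodup := by
    have h1 := (List.nodup_flatten.1 hc.nodup).2
    refine List.Pairwise.imp_of_mem ?_ h1
    intro a b ha hb hab heq
    subst heq
    have hlen := hc.len a ha
    obtain ⟨v, hv⟩ := List.exists_mem_of_length_pos (show 0 < a.length by omega)
    exact hab hv hv
  have hinj : ∀ c ∈ L, ∀ c' ∈ L, c.toFinset = c'.toFinset → c = c' := by
    intro c hcm c' hcm' heq
    have h1 := (hmemL c).1 hcm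
    have h2 := (hmemL c').1 hcm'
    obtain ⟨v, hv⟩ := List.exists_mem_of_length_pos (show 0 < c.length by omega)
    have hv' : v ∈ c' := by
      rw [← List.mem_toFinset, ← heq, List.mem_toFinset]
      exact hv
    exact Iso_eq_of_mem hc.nodup h1.1 h2.1 hv hv'
  have hnd : (L.map List.toFinset).Nodup := by
    apply List.Nodup.map_on hinj
    exact hcsnd.filter _
  have hset : G.cliqueFinset 3 = (L.map List.toFinset).toFinset := by
    ext s
    rw [mem_cliqueFinset_iff, List.mem_toFinset, List.mem_map, is3Clique_iff]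
    constructor
    · rintro ⟨a, b, d, hab, had, hbd, rfl⟩
      obtain ⟨c, hcm, h1⟩ := (hc.adj a b).1 hab
      obtain ⟨c2, hcm2, h2⟩ := (hc.adj a d).1 had
      obtain ⟨c3, hcm3, h3⟩ := (hc.adj b d).1 hbd
      change Iso_nx c a b ∨ Iso_nx c b a at h1
      change Iso_nx c2 a d ∨ Iso_nx c2 d a at h2
      change Iso_nx c3 b d ∨ Iso_nx c3 d b at h3
      have ha : a ∈ c := h1.elim Iso_nx_left Iso_nx_right
      have hb : b ∈ c := h1.elim Iso_nx_right Iso_nx_left
      have ha2 : a ∈ c2 := h2.elim Iso_nx_left Iso_nx_right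
      have hd2 : d ∈ c2 := h2.elim Iso_nx_right Iso_nx_left
      have hb3 : b ∈ c3 := h3.elim Iso_nx_left Iso_nx_right
      have e2 : c2 = c := Iso_eq_of_mem hc.nodup hcm2 hcm ha2 ha
      have e3 : c3 = c := Iso_eq_of_mem hc.nodup hcm3 hcm hb3 hb
      rw [e2] at h2 hd2
      rw [e3] at h3
      have hcn : c.Nodup := (List.nodup_flatten.1 hc.nodup).1 c hcm
      have hlen := hc.len c hcm
      obtain ⟨i, hi⟩ := List.mem_iff_get.1 ha
      obtain ⟨j, hj⟩ := List.mem_iff_get.1 hb
      obtain ⟨k, hk⟩ := List.mem_iff_get.1 hd2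
      rw [← hi, ← hj, Iso_nx_get hcn, Iso_nx_get hcn] at h1
      rw [← hi, ← hk, Iso_nx_get hcn, Iso_nx_get hcn] at h2
      rw [← hj, ← hk, Iso_nx_get hcn, Iso_nx_get hcn] at h3
      have hij : i.val ≠ j.val := fun h => hab.ne (by rw [← hi, ← hj, Fin.ext h])
      have hik : i.val ≠ k.val := fun h => had.ne (by rw [← hi, ← hk, Fin.ext h])
      have hjk : j.val ≠ k.val := fun h => hbd.ne (by rw [← hj, ← hk, Fin.ext h])
      have hstep : ∀ x y : ℕ, x < c.length → (x + 1) % c.length = y →
          y = x + 1 ∨ (x + 1 = c.length ∧ y = 0) := by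
        intro x y hx hxy
        rcases Nat.lt_or_ge (x + 1) c.length with h | h
        · rw [Nat.mod_eq_of_lt h] at hxy
          exact Or.inl hxy.symm
        · have : x + 1 = c.length := by omega
          rw [this, Nat.mod_self] at hxy
          exact Or.inr ⟨this, hxy.symm⟩
      have hi' := i.isLt
      have hj' := j.isLt
      have hk' := k.isLt
      have h1' : (j.val = i.val + 1 ∨ (i.val + 1 = c.length ∧ j.val = 0)) ∨
          (i.val = j.val + 1 ∨ (j.val + 1 = c.length ∧ i.val = 0)) :=
        h1.imp (hstep _ _ hi') (hstep _ _ hj')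
      have h2' : (k.val = i.val + 1 ∨ (i.val + 1 = c.length ∧ k.val = 0)) ∨
          (i.val = k.val + 1 ∨ (k.val + 1 = c.length ∧ i.val = 0)) :=
        h2.imp (hstep _ _ hi') (hstep _ _ hk')
      have h3' : (k.val = j.val + 1 ∨ (j.val + 1 = c.length ∧ k.val = 0)) ∨
          (j.val = k.val + 1 ∨ (k.val + 1 = c.length ∧ j.val = 0)) :=
        h3.imp (hstep _ _ hj') (hstep _ _ hk')
      have hl3 : c.length = 3 := by omega
      refine ⟨c, (hmemL c).2 ⟨hcm, hl3⟩, ?_⟩
      symm
      apply Finset.eq_of_subset_of_card_le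
      · intro v hv
        rw [Finset.mem_insert, Finset.mem_insert, Finset.mem_singleton] at hv
        rw [List.mem_toFinset]
        rcases hv with rfl | rfl | rfl
        · exact ha
        · exact hb
        · exact hd2
      · rw [List.toFinset_card_of_nodup hcn, hl3, Finset.card_eq_three.2
          ⟨a, b, d, hab.ne, had.ne, hbd.ne, rfl⟩]
    · rintro ⟨c, hcm, rfl⟩
      have hcm' := (hmemL c).1 hcm
      match c, hcm' with
      | [], hcm' => exact absurd hcm'.2 (by simp)
      | [_], hcm' => exact absurd hcm'.2 (by simp)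
      | [_, _], hcm' => exact absurd hcm'.2 (by simp)
      | _ :: _ :: _ :: _ :: _, hcm' => exact absurd hcm'.2 (by simp)
      | [x, y, z], hcm' =>
        refine ⟨x, y, z, (hc.adj _ _).2 ⟨_, hcm'.1, Or.inl ?_⟩, (hc.adj _ _).2 ⟨_, hcm'.1, Or.inr ?_⟩,
          (hc.adj _ _).2 ⟨_, hcm'.1, Or.inl ?_⟩, ?_⟩
        · simp [List.rotate]
        · simp [List.rotate]
        · simp [List.rotate]
        · simp
  rw [hcount, hset, List.toFinset_card_of_nodup hnd, List.length_map]

end Pool.Agent.helper8.VM
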