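import Pool.Agent.helper8.VM.Core

set_option autoImplicit false

/-! # MP_be123d_co, block LEFT (soundness of the checkers of left parts; uses CORE; ~300 lines)
Replace the sorries in place; proof hints: /team-store/h8_vm_notes.md. -/

namespace Pool.Agent.helper8.VM

theorem Left_lsum (ls : List ℕ) : lsum ls = ls.sum := by
  induction ls with
  | nil => rfl
  | cons a l ih =>
    rw [List.sum_cons, ← ih]
    rfl

theorem Left_scL (a b : ℕ) : scL a b = 4160 + (a + b) := rfl

theorem Left_adjc_length (sc : ℕ → ℕ → ℕ) (l : List ℕ) : (adjc sc l).length = l.length - 1 := by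
  induction l with
  | nil => rfl
  | cons a l ih =>
    cases l with
    | nil => rfl
    | cons b l =>
      rw [adjc, List.length_cons, ih]
      simp

theorem Left_cycc_length (sc : ℕ → ℕ → ℕ) (c : List ℕ) : (cycc sc c).length = c.length := by
  cases c with
  | nil => rfl
  | cons a l =>
    rw [cycc, Left_adjc_length]
    simp

theorem Left_adjc_ge (l : List ℕ) : ∀ s ∈ adjc scL l, 4160 ≤ s := by
  induction l with
  | nil => intro s hs; simp [adjc] at hs
  | cons a l ih =>
    cases l with
    | nil => intro s hs; simp [adjc] at hs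
    | cons b l =>
      intro s hs
      rw [adjc, List.mem_cons] at hs
      rcases hs with rfl | hs
      · rw [Left_scL]
        omega
      · exact ih s hs

theorem Left_cycc_ge (c : List ℕ) : ∀ s ∈ cycc scL c, 4160 ≤ s := by
  cases c with
  | nil => intro s hs; simp [cycc] at hs
  | cons a l => exact Left_adjc_ge _

theorem Left_cycs_ge (cs : List (List ℕ)) : ∀ s ∈ (cs.map (cycc scL)).flatten, 4160 ≤ s := by
  intro s hs
  rw [List.mem_flatten] at hs
  obtain ⟨l, hl, hs⟩ := hs
  obtain ⟨c, _, rfl⟩ := List.mem_map.1 hl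
  exact Left_cycc_ge c s hs

theorem Left_cycs_length (cs : List (List ℕ)) :
    ((cs.map (cycc scL)).flatten).length = (cs.map List.length).sum := by
  rw [List.length_flatten, List.map_map]
  congr 1
  refine List.map_congr_left fun c _ => ?_
  exact Left_cycc_length _ c

section dec

variable {G : Type*} [Add G] {dL dS : ℕ → G} {P : ℕ → Prop}

theorem Left_adj_map (hP : ∀ a b, P a → P b → dS (scL a b) = dL a + dL b) (l : List ℕ)
    (hl : ∀ a ∈ l, P a) : adj (l.map dL) = (adjc scL l).map dS := by
  induction l with
  | nil => rfl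
  | cons a l ih =>
    cases l with
    | nil => rfl
    | cons b l =>
      have h1 := ih fun x hx => hl x (List.mem_cons_of_mem _ hx)
      rw [List.map_cons, List.map_cons, adj, adjc, List.map_cons,
        hP a b (hl a (by simp)) (hl b (by simp)), ← h1, List.map_cons]

theorem Left_cyc_map (hP : ∀ a b, P a → P b → dS (scL a b) = dL a + dL b) (c : List ℕ)
    (hc : ∀ a ∈ c, P a) : cyc (c.map dL) = (cycc scL c).map dS := by
  cases c with
  | nil => rfl
  | cons a l =>
    have h1 := Left_adj_map hP (a :: l ++ [a]) (by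
      intro x hx
      rw [List.mem_append] at hx
      rcases hx with hx | hx
      · exact hc x hx
      · rw [List.mem_singleton.1 hx]
        exact hc a (by simp))
    rw [List.map_cons, cyc, cycc, ← h1, List.map_append, List.map_cons, List.map_cons,
      List.map_nil]

theorem Left_sums (hP : ∀ a b, P a → P b → dS (scL a b) = dL a + dL b) (cs : List (List ℕ))
    (hcs : ∀ a ∈ cs.flatten, P a) :
    sums (cs.map (List.map dL)) = (((cs.map (cycc scL)).flatten).map dS : List G) := by
  unfold sums
  rw [List.map_flatten, List.map_map, List.map_map]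
  congr 2
  refine List.map_congr_left fun c hc => ?_
  exact Left_cyc_map hP c fun a ha => hcs a (List.mem_flatten.2 ⟨c, hc, ha⟩)

omit [Add G] in
theorem Left_labs (cs : List (List ℕ)) :
    labs (cs.map (List.map dL)) = ((cs.flatten).map dL : List G) := by
  unfold labs
  rw [List.map_flatten]

omit [Add G] in
theorem Left_lens (cs : List (List ℕ)) :
    lens (cs.map (List.map dL)) = (((cs.map List.length).reverse ++ [] : List ℕ) : Multiset ℕ) := by
  unfold lens
  rw [List.append_nil, Multiset.coe_reverse, List.map_map]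
  congr 1
  refine List.map_congr_left fun c _ => ?_
  exact List.length_map _

omit [Add G] in
theorem Left_Long (cs : List (List ℕ)) (h : ∀ c ∈ cs, 3 ≤ c.length) :
    Long (cs.map (List.map dL)) := by
  intro c hc
  obtain ⟨c', hc', rfl⟩ := List.mem_map.1 hc
  rw [List.length_map]
  exact h c' hc'

end dec

theorem Left_wtL_append (l l' : List ℕ) : wtL (l ++ l') = wtL l + wtL l' := by
  unfold wtL
  rw [List.map_append, List.sum_append]

theorem Left_wtS_append (l l' : List ℕ) : wtS (l ++ l') = wtS l + wtS l' := by
  unfold wtS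
  rw [List.map_append, List.sum_append]

theorem Left_wtS_cons (a : ℕ) (l : List ℕ) : wtS (a :: l) = 2 ^ a + wtS l := by
  unfold wtS
  rw [List.map_cons, List.sum_cons]

theorem Left_dec {a b : ℕ} (ha : a % 512 < 256) (hb : b % 512 < 256) :
    decS (scL a b) = decL a + decL b := by
  unfold decS decL
  rw [Left_scL, Nat.add_sub_cancel_left]
  ext
  · show (((a + b) / 512 : ℕ) : ℤ) - 8 = ((a / 512 : ℕ) : ℤ) - 4 + (((b / 512 : ℕ) : ℤ) - 4)
    omega
  · show (((a + b) % 512 : ℕ) : ℤ) - 256 = ((a % 512 : ℕ) : ℤ) - 128 + (((b % 512 : ℕ) : ℤ) - 128)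
    omega

theorem Left_coe (k : ℕ) (f : ℤ → List A) :
    List.flatMap f (do
      let a ← List.range k
      pure (a : ℤ)) = List.flatMap (fun i : ℕ => f i) (List.range k) := by
  simp only [List.bind_eq_flatMap, List.pure_def, List.flatMap_assoc, List.flatMap_cons,
    List.flatMap_nil, List.append_nil]

theorem Left_leftL (w : Wall) (k : ℕ) : leftL w k = (leftLl w k : Multiset A) := by
  rw [leftL, slabL, leftLl, Multiset.coe_add, Left_coe]

theorem Left_leftS (w : Wall) (k : ℕ) : leftS w k = (leftSl w k : Multiset A) := by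
  rw [leftS, slabS, leftSl, Multiset.coe_add, Left_coe]

/-- the content of `okL` -/
structure Left_Ok (w : Wall) (ν : Node) (k : ℕ) (op : Bool) : Prop where
  perm : (reqS w ν k op ++ ν.msl w (k + 5)).Perm (leftSl w k ++ ν.exl w (k + 5) ++
    (if op then [ν.u.at w (k + 5) + ν.v.at w (k + 5)] else []))
  lab : ∀ a ∈ leftLl w k, decL (encL a) = a ∧ encL a % 512 < 256 ∧ 0 < encL a ∧ encL a < 4096
  sum : ∀ a ∈ reqS w ν k op, decS (encS a) = a
  nd : ((leftLl w k).map encL).Nodup
  nd' : ((reqS w ν k op).map encS).Nodup
  len : (leftLl w k).length < 256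
  u1 : decL (encL (ν.u.at w (k + 5))) = ν.u.at w (k + 5)
  u2 : encL (ν.u.at w (k + 5)) % 512 < 256
  v1 : decL (encL (ν.v.at w (k + 5))) = ν.v.at w (k + 5)
  v2 : encL (ν.v.at w (k + 5)) % 512 < 256
  u3 : encL (ν.u.at w (k + 5)) < 4096
  v3 : encL (ν.v.at w (k + 5)) < 4096
  rlen : (reqS w ν k op).length = (leftLl w k).length + (if op then 1 else 0)

theorem Left_ok {w : Wall} {ν : Node} {k : ℕ} {op : Bool} (hok : okL w ν k op = true) :
    Left_Ok w ν k op := by
  unfold okL at hok
  simp only [Bool.and_eq_true, decide_eq_true_eq, List.all_eq_true, beq_iff_eq] at hok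
  obtain ⟨⟨⟨⟨⟨⟨⟨⟨⟨⟨⟨⟨h1, h2⟩, h3⟩, h4⟩, h5⟩, h6⟩, h7⟩, h8⟩, h9⟩, h10⟩, h11⟩, h12⟩, h13⟩ := hok
  exact ⟨h1, fun a ha => by
    have := h2 a ha
    exact ⟨this.1.1.1, this.1.1.2, this.1.2, this.2⟩, h3, h4, h5, h6, h7, h8, h9, h10, h11, h12, h13⟩

/-- comparison of the weights; `L`, `S` are the labels and the sums of the data -/
theorem Left_main {w : Wall} {ν : Node} {k : ℕ} {op : Bool} (H : Left_Ok w ν k op)
    {L S : List ℕ} (hL : ∀ x ∈ L, x < 4096) (hS : ∀ s ∈ S, 4160 ≤ s)
    (hLl : L.length = (leftLl w k).length) (hSl : S.length = (reqS w ν k op).length)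
    (h : wtL L + wtS S = tgtL w ν k op) :
    (∀ x ∈ L, x % 512 < 256) ∧ ((L.map decL : List A) : Multiset A) = leftL w k ∧
      ((S.map decS : List A) : Multiset A) + ν.ms w (k + 5) = leftS w k + ν.ex w (k + 5) +
        ((if op then [ν.u.at w (k + 5) + ν.v.at w (k + 5)] else [] : List A) : Multiset A) := by
  obtain ⟨p1, p2⟩ := wt_unique hL (by
      intro x hx
      obtain ⟨a, ha, rfl⟩ := List.mem_map.1 hx
      exact (H.lab a ha).2.2.2) hS (by
      intro x hx
      obtain ⟨a, _, rfl⟩ := List.mem_map.1 hx
      unfold encS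
      omega) (by rw [hLl, List.length_map]) (by rw [hSl, List.length_map]) H.nd H.nd'
      (by have := H.len; omega) h
  refine ⟨?_, ?_, ?_⟩
  · intro x hx
    obtain ⟨a, ha, rfl⟩ := List.mem_map.1 ((p1.mem_iff).1 hx)
    exact (H.lab a ha).2.1
  · rw [Left_leftL]
    refine Multiset.coe_eq_coe.2 ((p1.map decL).trans ?_)
    rw [List.map_map]
    have h1 : (leftLl w k).map (decL ∘ encL) = leftLl w k := by
      conv_rhs => rw [← List.map_id (leftLl w k)]
      exact List.map_congr_left fun a ha => (H.lab a ha).1
    rw [h1]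
  · have h2 : ((S.map decS : List A) : Multiset A) = (reqS w ν k op : Multiset A) := by
      refine Multiset.coe_eq_coe.2 ((p2.map decS).trans ?_)
      rw [List.map_map]
      have h1 : (reqS w ν k op).map (decS ∘ encS) = reqS w ν k op := by
        conv_rhs => rw [← List.map_id (reqS w ν k op)]
        exact List.map_congr_left fun a ha => H.sum a ha
      rw [h1]
    rw [h2, Left_leftS]
    exact Multiset.coe_eq_coe.2 H.perm

theorem Left_cyc_adj {G : Type*} [Add G] (U V : G) (l : List G) :
    cyc (U :: l ++ [V]) = adj (U :: l ++ [V]) ++ [V + U] := by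
  have key : ∀ (m : List G) (a b : G), adj (m ++ [a] ++ [b]) = adj (m ++ [a]) ++ [a + b] := by
    intro m
    induction m with
    | nil => intro a b; rfl
    | cons c m ih =>
      intro a b
      cases m with
      | nil => rfl
      | cons e m =>
        have := ih a b
        simp only [List.cons_append, adj] at this ⊢
        rw [this]
  show adj ((U :: l ++ [V]) ++ [U]) = _
  exact key (U :: l) V U

theorem Left_code' (i h : ℕ) : ((i + (h + 4162) : ℕ) : ℤ) - 4160 - 2 * h - 2 = i - h := by
  omega

theorem Left_code (h i : ℕ) :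
    (fun s : ℕ => (s : ℤ) - 4160 - 2 * h - 2) ((fun x => x + (h + 4162)) i) = (i : ℤ) - h :=
  Left_code' i h

theorem Left_Icc (h : ℕ) : (((List.range (2 * h + 1)).map fun i : ℕ => (i : ℤ) - h : List ℤ) :
    Multiset ℤ) = (Finset.Icc (-(h : ℤ)) h).val := by
  have h1 : (Finset.range (2 * h + 1)).map ⟨fun i : ℕ => (i : ℤ) - h, fun a b hab => by
      simpa using hab⟩ = Finset.Icc (-(h : ℤ)) h := by
    ext x
    simp only [Finset.mem_map, Finset.mem_range, Function.Embedding.coeFn_mk, Finset.mem_Icc]
    constructor
    · rintro ⟨i, hi, rfl⟩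
      constructor <;> omega
    · rintro ⟨h1, h2⟩
      exact ⟨(x + h).toNat, by omega, by omega⟩
  rw [← h1]
  rfl

theorem pcLC_sound {w : Wall} {ν : Node} {k d : ℕ} {cb : List ℕ → Bool}
    (hok : okL w ν k false = true)
    (h : pcLC (tgtL w ν k false) (leftLl w k).length cb d = true) :
    ∃ ls : List ℕ, cb ls = true ∧ LC w ν k (ls : Multiset ℕ) := by
  have H := Left_ok hok
  obtain ⟨cs, h3, h4, h5⟩ := cycs_spec h
  simp only [Bool.and_eq_true] at h5
  obtain ⟨e1, e2, e3⟩ := h5
  have e1 := Nat.eq_of_beq_eq_true e1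
  have e2 := Nat.eq_of_beq_eq_true e2
  rw [Left_lsum, List.append_nil, List.sum_reverse] at e2
  rw [zero_add] at e1
  have hlen : cs.flatten.length = (leftLl w k).length := by rw [List.length_flatten, e2]
  obtain ⟨m1, m2, m3⟩ := Left_main H (L := cs.flatten) (S := (cs.map (cycc scL)).flatten)
    (fun x hx => by
      obtain ⟨c, hc, hx⟩ := List.mem_flatten.1 hx
      exact h4 c hc x hx) (Left_cycs_ge cs) hlen
    (by rw [Left_cycs_length, e2, H.rlen]; rfl) e1
  refine ⟨_, e3, cs.map (List.map decL), Left_lens cs, Left_Long cs h3, ?_, ?_⟩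
  · rw [Left_labs, m2]
  · rw [Left_sums (P := fun a => a % 512 < 256) (fun a b ha hb => Left_dec ha hb) cs m1, m3]
    simp
theorem pcLO_sound {w : Wall} {ν : Node} {k d : ℕ} {cb : ℕ → List ℕ → Bool}
    (hok : okL w ν k true = true)
    (h : pcLO (tgtL w ν k true) (leftLl w k).length (encL (ν.u.at w (k + 5)))
      (encL (ν.v.at w (k + 5))) cb d = true) :
    ∃ (p : ℕ) (ls : List ℕ), cb p ls = true ∧ LO w ν k (ls : Multiset ℕ) p := by
  have H := Left_ok hok
  set U := ν.u.at w (k + 5) with hU
  set V := ν.v.at w (k + 5) with hV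
  obtain ⟨l, d', g1, g2⟩ := comp_spec h
  obtain ⟨cs, h3, h4, h5⟩ := cycs_spec g2
  simp only [Bool.and_eq_true] at h5
  obtain ⟨e1, e2, e3, e4⟩ := h5
  have e1 := Nat.eq_of_beq_eq_true e1
  have e2 := Nat.eq_of_beq_eq_true e2
  have e3 := Nat.le_of_ble_eq_true e3
  rw [Left_lsum, List.append_nil, List.sum_reverse] at e2
  rw [zero_add] at e1 e3
  have e2 : l.length + (cs.map List.length).sum = (leftLl w k).length := by
    rw [← e2]
    show _ = 0 + l.length + _
    omega
  have hlen : (l ++ cs.flatten).length = (leftLl w k).length := by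
    rw [List.length_append, List.length_flatten, e2]
  obtain ⟨m1, m2, m3⟩ := Left_main H (L := l ++ cs.flatten)
    (S := adjc scL (encL U :: l ++ [encL V]) ++ (cs.map (cycc scL)).flatten)
    (fun x hx => by
      rcases List.mem_append.1 hx with hx | hx
      · exact g1 x hx
      · obtain ⟨c, hc, hx⟩ := List.mem_flatten.1 hx
        exact h4 c hc x hx)
    (fun s hs => by
      rcases List.mem_append.1 hs with hs | hs
      · exact Left_adjc_ge _ s hs
      · exact Left_cycs_ge cs s hs) hlen
    (by
      rw [List.length_append, Left_cycs_length, Left_adjc_length, H.rlen]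
      simp only [List.cons_append, List.length_cons, List.length_append, List.length_nil, if_true]
      omega)
    (by
      rw [Left_wtL_append, Left_wtS_append, ← e1]
      ring)
  have hP : ∀ a b : ℕ, a % 512 < 256 → b % 512 < 256 → decS (scL a b) = decL a + decL b :=
    fun a b ha hb => Left_dec ha hb
  have hadj : adj (U :: l.map decL ++ [V]) = (adjc scL (encL U :: l ++ [encL V])).map decS := by
    rw [← Left_adj_map (P := fun a => a % 512 < 256) hP]
    · rw [List.map_append, List.map_cons, List.map_cons, List.map_nil, H.u1, H.v1]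
    · intro a ha
      rcases List.mem_append.1 ha with ha | ha
      · rcases List.mem_cons.1 ha with rfl | ha
        · exact H.u2
        · exact m1 a (List.mem_append_left _ ha)
      · rw [List.mem_singleton.1 ha]
        exact H.v2
  refine ⟨_, _, e4, cs.map (List.map decL), l.map decL, Left_lens cs, Left_Long cs h3, ?_, ?_,
    ?_, ?_⟩
  · rw [List.length_map]
    exact (zero_add _).symm
  · exact lt_of_lt_of_le Nat.zero_lt_one (le_of_le_of_eq e3 (zero_add _).symm)
  · rw [Left_labs, ← m2, List.map_append, add_comm]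
    rfl
  · rw [Left_sums (P := fun a => a % 512 < 256) hP cs
      (fun a ha => m1 a (List.mem_append_right _ ha)), ← hU, ← hV, hadj,
      add_comm (((cs.map (cycc scL)).flatten.map decS : List A) : Multiset A), Multiset.coe_add,
      ← List.map_append, m3]
    rfl
theorem pcLE_sound {w : Wall} {ν : Node} {k d : ℕ} {cb : ℕ → List ℕ → Bool}
    (hok : okL w ν k false = true)
    (h : pcLE (tgtL w ν k false) (leftLl w k).length (encL (ν.u.at w (k + 5)))
      (encL (ν.v.at w (k + 5))) cb d = true) :
    ∃ (r : ℕ) (ls : List ℕ), cb r ls = true ∧ LE w ν k (ls : Multiset ℕ) r := by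
  have H := Left_ok hok
  set U := ν.u.at w (k + 5) with hU
  set V := ν.v.at w (k + 5) with hV
  obtain ⟨l, d', g1, g2⟩ := comp_spec h
  obtain ⟨cs, h3, h4, h5⟩ := cycs_spec g2
  simp only [Bool.and_eq_true] at h5
  obtain ⟨e1, e2, e3, e4⟩ := h5
  have e1 := Nat.eq_of_beq_eq_true e1
  have e2 := Nat.eq_of_beq_eq_true e2
  have e3 := Nat.le_of_ble_eq_true e3
  rw [Left_lsum, List.append_nil, List.sum_reverse] at e2
  have e2 : 2 + l.length + (cs.map List.length).sum = (leftLl w k).length := e2
  have hlen : ([encL U, encL V] ++ (l ++ cs.flatten)).length = (leftLl w k).length := by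
    rw [List.length_append, List.length_append, List.length_flatten, ← e2]
    simp only [List.length_cons, List.length_nil]
    omega
  obtain ⟨m1, m2, m3⟩ := Left_main H (L := [encL U, encL V] ++ (l ++ cs.flatten))
    (S := scL (encL V) (encL U) ::
      (adjc scL (encL U :: l ++ [encL V]) ++ (cs.map (cycc scL)).flatten))
    (fun x hx => by
      rcases List.mem_append.1 hx with hx | hx
      · simp only [List.mem_cons, List.not_mem_nil, or_false] at hx
        rcases hx with rfl | rfl
        · exact H.u3
        · exact H.v3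
      · rcases List.mem_append.1 hx with hx | hx
        · exact g1 x hx
        · obtain ⟨c, hc, hx⟩ := List.mem_flatten.1 hx
          exact h4 c hc x hx)
    (fun s hs => by
      rcases List.mem_cons.1 hs with rfl | hs
      · rw [Left_scL]
        omega
      · rcases List.mem_append.1 hs with hs | hs
        · exact Left_adjc_ge _ s hs
        · exact Left_cycs_ge cs s hs) hlen
    (by
      rw [List.length_cons, List.length_append, Left_cycs_length, Left_adjc_length, H.rlen, ← e2]
      simp only [List.cons_append, List.length_cons, List.length_append, List.length_nil,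
        Bool.false_eq_true, if_false]
      omega)
    (by
      rw [Left_wtL_append, Left_wtL_append, Left_wtS_cons, Left_wtS_append, ← e1]
      ring)
  have hP : ∀ a b : ℕ, a % 512 < 256 → b % 512 < 256 → decS (scL a b) = decL a + decL b :=
    fun a b ha hb => Left_dec ha hb
  have hadj : adj (U :: l.map decL ++ [V]) = (adjc scL (encL U :: l ++ [encL V])).map decS := by
    rw [← Left_adj_map (P := fun a => a % 512 < 256) hP]
    · rw [List.map_append, List.map_cons, List.map_cons, List.map_nil, H.u1, H.v1]
    · intro a ha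
      rcases List.mem_append.1 ha with ha | ha
      · rcases List.mem_cons.1 ha with rfl | ha
        · exact H.u2
        · exact m1 a (List.mem_append_right _ (List.mem_append_left _ ha))
      · rw [List.mem_singleton.1 ha]
        exact H.v2
  have hcyc : cyc (U :: l.map decL ++ [V]) = adj (U :: l.map decL ++ [V]) ++ [V + U] :=
    Left_cyc_adj U V (l.map decL)
  refine ⟨_, _, e4, cs.map (List.map decL), l.map decL, Left_lens cs, Left_Long cs h3, ?_, ?_,
    ?_, ?_⟩
  · rw [List.length_map]
    exact add_comm _ _
  · rw [List.length_map]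
    have e3 : 3 ≤ 2 + l.length := e3
    omega
  · rw [Left_labs, ← m2, ← hU, ← hV, List.map_append, List.map_append, List.map_cons,
      List.map_cons, List.map_nil, H.u1, H.v1]
    refine Multiset.coe_eq_coe.2 ?_
    refine List.perm_append_comm.trans ?_
    rw [← List.append_assoc]
    refine List.Perm.append_right _ ?_
    show (U :: (l.map decL ++ [V])).Perm (U :: V :: l.map decL)
    exact List.Perm.cons _ (List.perm_append_singleton _ _)
  · have hVU : V + U = decS (scL (encL V) (encL U)) := by
      rw [hP _ _ H.v2 H.u2, H.u1, H.v1]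
    rw [Left_sums (P := fun a => a % 512 < 256) hP cs
      (fun a ha => m1 a (List.mem_append_right _ (List.mem_append_right _ ha))), ← hU, ← hV, hcyc,
      hadj, hVU]
    have h6 : ((((cs.map (cycc scL)).flatten.map decS : List A) : Multiset A) +
        (((adjc scL (encL U :: l ++ [encL V])).map decS ++ [decS (scL (encL V) (encL U))] :
          List A) : Multiset A)) =
        (((scL (encL V) (encL U) ::
          (adjc scL (encL U :: l ++ [encL V]) ++ (cs.map (cycc scL)).flatten)).map decS :
          List A) : Multiset A) := by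
      refine Multiset.coe_eq_coe.2 ?_
      rw [List.map_cons, List.map_append]
      refine List.perm_append_comm.trans ?_
      refine (List.Perm.append_right _ (List.perm_append_singleton _ _)).trans ?_
      exact List.Perm.refl _
    rw [h6, m3]
    simp
/-- complete labellings: the label `x` (with `-h ≤ x ≤ h`) has the code `x + h + 1` -/
theorem pcZ_sound {h d : ℕ} {cb : List ℕ → Bool} (hh : h < 600)
    (H : pcLC (wtL ((List.range (2 * h + 1)).map (· + 1)) +
      wtS ((List.range (2 * h + 1)).map (· + (h + 4162)))) (2 * h + 1) cb d = true) :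
    ∃ ls : List ℕ, cb ls = true ∧ Labelable (ls : Multiset ℕ) := by
  obtain ⟨cs, h3, h4, h5⟩ := cycs_spec H
  simp only [Bool.and_eq_true] at h5
  obtain ⟨e1, e2, e3⟩ := h5
  have e1 := Nat.eq_of_beq_eq_true e1
  have e2 := Nat.eq_of_beq_eq_true e2
  rw [Left_lsum, List.append_nil, List.sum_reverse] at e2
  rw [zero_add] at e1
  have hlen : cs.flatten.length = 2 * h + 1 := by rw [List.length_flatten, e2]
  obtain ⟨p1, p2⟩ := wt_unique (l := cs.flatten) (S := (cs.map (cycc scL)).flatten)
    (l₀ := (List.range (2 * h + 1)).map (· + 1))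
    (S₀ := (List.range (2 * h + 1)).map (· + (h + 4162)))
    (fun x hx => by
      obtain ⟨c, hc, hx⟩ := List.mem_flatten.1 hx
      exact h4 c hc x hx)
    (fun x hx => by
      obtain ⟨i, hi, rfl⟩ := List.mem_map.1 hx
      have := List.mem_range.1 hi
      omega) (Left_cycs_ge cs)
    (fun x hx => by
      obtain ⟨i, hi, rfl⟩ := List.mem_map.1 hx
      omega)
    (by rw [hlen, List.length_map, List.length_range])
    (by rw [Left_cycs_length, e2, List.length_map, List.length_range])
    (List.Nodup.map (fun a b hab => by simpa using hab) List.nodup_range)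
    (List.Nodup.map (fun a b hab => by simpa using hab) List.nodup_range)
    (by rw [hlen]; omega) e1
  refine ⟨_, e3, h, cs.map (List.map fun x : ℕ => (x : ℤ) - h - 1), Left_lens cs,
    Left_Long cs h3, ?_, ?_⟩
  · rw [Left_labs, ← Left_Icc h]
    refine Multiset.coe_eq_coe.2 ((p1.map _).trans ?_)
    rw [List.map_map]
    refine List.Perm.of_eq (List.map_congr_left fun i _ => ?_)
    show ((i + 1 : ℕ) : ℤ) - h - 1 = i - h
    push_cast
    ring
  · rw [Left_sums (dS := fun s : ℕ => (s : ℤ) - 4160 - 2 * h - 2) (P := fun _ => True)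
      (fun a b _ _ => by
        rw [Left_scL]
        push_cast
        ring) cs (fun _ _ => trivial), ← Left_Icc h]
    refine Multiset.coe_eq_coe.2 ((p2.map _).trans ?_)
    rw [List.map_map]
    exact List.Perm.of_eq (List.map_congr_left fun i _ => Eq.trans Function.comp_apply
      (Left_code h i))

end Pool.Agent.helper8.VM
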