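import Pool.Agent.helper8.VM.Core

set_option autoImplicit false

/-! # MP_be123d_co, block SLAB (soundness of the checkers of slabs; uses CORE; ~400 lines)
Replace the sorries in place; proof hints: /team-store/h8_vm_notes.md. -/

namespace Pool.Agent.helper8.VM

/-! ### the labels and the sums of a wall -/

theorem Slab_bb (w : Wall) {i j : ℤ} (h : i % 2 = j % 2) : w.bx i + w.by' j = (-1, 0) := by
  unfold Wall.bx Wall.by'
  rw [h]
  split_ifs <;> refine Prod.ext ?_ ?_ <;> simp [Wall.p1, Wall.p2, Wall.q1, Wall.q2] <;> ring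

theorem Slab_XY (w : Wall) {i j : ℤ} (h : i % 2 = j % 2) : w.X i + w.Y j = w.W ((i + j) / 2) := by
  have h1 : w.X i + w.Y j = (w.bx i + w.by' j) + ((0, i) + (0, j)) := by
    unfold Wall.X Wall.Y
    abel
  rw [h1, Slab_bb w h]
  unfold Wall.W
  refine Prod.ext ?_ ?_
  · simp
  · simp only [Prod.snd_add]
    omega

theorem Slab_XR (w : Wall) (i j : ℤ) : w.X i + w.R j = w.U (2 * j - i) := by
  unfold Wall.X Wall.R Wall.U Wall.bx
  have h1 : (2 * j - i) % 2 = i % 2 := by omega
  rw [h1, add_assoc]
  congr 1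
  refine Prod.ext ?_ ?_
  · simp
  · simp only [Prod.snd_add]
    ring

theorem Slab_YR (w : Wall) (i j : ℤ) : w.Y i + w.R j = w.V (2 * j - i) := by
  unfold Wall.Y Wall.R Wall.V Wall.by'
  have h1 : (2 * j - i) % 2 = i % 2 := by omega
  rw [h1, add_assoc]
  congr 1
  refine Prod.ext ?_ ?_
  · simp
  · simp only [Prod.snd_add]
    ring

/-! ### the codes -/

theorem Slab_symX (w : Wall) (t : ℤ) (i : ℕ) : symL w t (3 * i + 1) = w.X (t + i) := by
  have h1 : (3 * i + 1 - 1) % 3 = 0 := by omega
  have h2 : (3 * i + 1 - 1) / 3 = i := by omega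
  unfold symL
  rw [h1, h2]
  rfl

theorem Slab_symY (w : Wall) (t : ℤ) (i : ℕ) : symL w t (3 * i + 2) = w.Y (t + i) := by
  have h1 : (3 * i + 2 - 1) % 3 = 1 := by omega
  have h2 : (3 * i + 2 - 1) / 3 = i := by omega
  unfold symL
  rw [h1, h2]
  rfl

theorem Slab_symR (w : Wall) (t : ℤ) (i : ℕ) : symL w t (3 * i + 3) = w.R (t + i) := by
  have h1 : (3 * i + 3 - 1) % 3 = 2 := by omega
  have h2 : (3 * i + 3 - 1) / 3 = i := by omega
  unfold symL
  rw [h1, h2]
  rfl

theorem Slab_symW (w : Wall) (t : ℤ) (i : ℕ) : symS w t (4161 + 3 * i) = w.W (t + i - 64) := by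
  have h1 : (4161 + 3 * i - 4161) % 3 = 0 := by omega
  have h2 : (4161 + 3 * i - 4161) / 3 = i := by omega
  unfold symS
  rw [h1, h2]
  rfl

theorem Slab_symU (w : Wall) (t : ℤ) (i : ℕ) : symS w t (4162 + 3 * i) = w.U (t + i - 64) := by
  have h1 : (4162 + 3 * i - 4161) % 3 = 1 := by omega
  have h2 : (4162 + 3 * i - 4161) / 3 = i := by omega
  unfold symS
  rw [h1, h2]
  rfl

theorem Slab_symV (w : Wall) (t : ℤ) (i : ℕ) : symS w t (4163 + 3 * i) = w.V (t + i - 64) := by
  have h1 : (4163 + 3 * i - 4161) % 3 = 2 := by omega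
  have h2 : (4163 + 3 * i - 4161) / 3 = i := by omega
  unfold symS
  rw [h1, h2]
  rfl

theorem Slab_m1 (i : ℕ) : Nat.mod (Nat.sub (3 * i + 1) 1) 3 = 0 := by
  show (3 * i + 1 - 1) % 3 = 0
  omega
theorem Slab_m2 (i : ℕ) : Nat.mod (Nat.sub (3 * i + 2) 1) 3 = 1 := by
  show (3 * i + 2 - 1) % 3 = 1
  omega
theorem Slab_m3 (i : ℕ) : Nat.mod (Nat.sub (3 * i + 3) 1) 3 = 2 := by
  show (3 * i + 3 - 1) % 3 = 2
  omega
theorem Slab_d1 (i : ℕ) : Nat.div (Nat.sub (3 * i + 1) 1) 3 = i := by
  show (3 * i + 1 - 1) / 3 = i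
  omega
theorem Slab_d2 (i : ℕ) : Nat.div (Nat.sub (3 * i + 2) 1) 3 = i := by
  show (3 * i + 2 - 1) / 3 = i
  omega
theorem Slab_d3 (i : ℕ) : Nat.div (Nat.sub (3 * i + 3) 1) 3 = i := by
  show (3 * i + 3 - 1) / 3 = i
  omega

theorem Slab_par {k x y : ℕ} : (Nat.rec (motive := fun _ => ℕ) x (fun _ _ => y) (Nat.mod k 2) : ℕ)
    = if k % 2 = 0 then x else y := by
  have h : Nat.mod k 2 = k % 2 := rfl
  rw [h]
  rcases Nat.mod_two_eq_zero_or_one k with h1 | h1 <;> rw [h1] <;> rfl

theorem Slab_scXX (i j : ℕ) : scW (3 * i + 1) (3 * j + 1) = 4160 := by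
  unfold scW
  rw [force_eq, force_eq, Slab_m1, Slab_m1]
  rfl

theorem Slab_scXY (i j : ℕ) : scW (3 * i + 1) (3 * j + 2) =
    if (i + j) % 2 = 0 then 4161 + 3 * (64 + (i + j) / 2) else 4160 := by
  unfold scW
  rw [force_eq, force_eq, Slab_m1, Slab_m2, Slab_d1, Slab_d2]
  exact Slab_par

theorem Slab_scXR (i j : ℕ) : scW (3 * i + 1) (3 * j + 3) = 4162 + 3 * (64 + 2 * j - i) := by
  unfold scW
  rw [force_eq, force_eq, Slab_m1, Slab_m3, Slab_d1, Slab_d3]
  rfl

theorem Slab_scYX (i j : ℕ) : scW (3 * i + 2) (3 * j + 1) =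
    if (i + j) % 2 = 0 then 4161 + 3 * (64 + (i + j) / 2) else 4160 := by
  unfold scW
  rw [force_eq, force_eq, Slab_m2, Slab_m1, Slab_d2, Slab_d1]
  exact Slab_par

theorem Slab_scYY (i j : ℕ) : scW (3 * i + 2) (3 * j + 2) = 4160 := by
  unfold scW
  rw [force_eq, force_eq, Slab_m2, Slab_m2]
  rfl

theorem Slab_scYR (i j : ℕ) : scW (3 * i + 2) (3 * j + 3) = 4163 + 3 * (64 + 2 * j - i) := by
  unfold scW
  rw [force_eq, force_eq, Slab_m2, Slab_m3, Slab_d2, Slab_d3]
  rfl

theorem Slab_scRX (i j : ℕ) : scW (3 * i + 3) (3 * j + 1) = 4162 + 3 * (64 + 2 * i - j) := by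
  unfold scW
  rw [force_eq, force_eq, Slab_m3, Slab_m1, Slab_d3, Slab_d1]
  rfl

theorem Slab_scRY (i j : ℕ) : scW (3 * i + 3) (3 * j + 2) = 4163 + 3 * (64 + 2 * i - j) := by
  unfold scW
  rw [force_eq, force_eq, Slab_m3, Slab_m2, Slab_d3, Slab_d2]
  rfl

theorem Slab_scRR (i j : ℕ) : scW (3 * i + 3) (3 * j + 3) = 4160 := by
  unfold scW
  rw [force_eq, force_eq, Slab_m3, Slab_m3]
  rfl

theorem Slab_cases {a : ℕ} (ha : 0 < a) : ∃ i, a = 3 * i + 1 ∨ a = 3 * i + 2 ∨ a = 3 * i + 3 :=
  ⟨(a - 1) / 3, by omega⟩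

theorem Slab_ge_pos {a b : ℕ} (ha : 0 < a) (hb : 0 < b) : 4160 ≤ scW a b := by
  obtain ⟨i, rfl | rfl | rfl⟩ := Slab_cases ha <;> obtain ⟨j, rfl | rfl | rfl⟩ := Slab_cases hb
  · rw [Slab_scXX]
  · rw [Slab_scXY]
    split_ifs <;> omega
  · rw [Slab_scXR]
    omega
  · rw [Slab_scYX]
    split_ifs <;> omega
  · rw [Slab_scYY]
  · rw [Slab_scYR]
    omega
  · rw [Slab_scRX]
    omega
  · rw [Slab_scRY]
    omega
  · rw [Slab_scRR]

theorem Slab_ge (a b : ℕ) : 4160 ≤ scW a b := by
  have h : scW a b = scW (a - 1 + 1) (b - 1 + 1) := by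
    unfold scW
    have h1 : ∀ a : ℕ, Nat.sub (a - 1 + 1) 1 = Nat.sub a 1 := by
      intro a
      show a - 1 + 1 - 1 = a - 1
      omega
    rw [h1, h1]
  rw [h]
  exact Slab_ge_pos (Nat.succ_pos _) (Nat.succ_pos _)

theorem Slab_sc {a b : ℕ} (ha : 0 < a) (ha' : a < 190) (hb : 0 < b) (hb' : b < 190)
    (h : 4160 < scW a b) (w : Wall) (t : ℤ) :
    symS w t (scW a b) = symL w t a + symL w t b := by
  obtain ⟨i, rfl | rfl | rfl⟩ := Slab_cases ha <;> obtain ⟨j, rfl | rfl | rfl⟩ := Slab_cases hb
  · rw [Slab_scXX] at h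
    omega
  · rw [Slab_scXY] at h ⊢
    by_cases hp : (i + j) % 2 = 0
    · rw [if_pos hp, Slab_symW, Slab_symX, Slab_symY, Slab_XY w (by omega)]
      congr 1
      push_cast
      omega
    · rw [if_neg hp] at h
      omega
  · rw [Slab_scXR, Slab_symU, Slab_symX, Slab_symR, Slab_XR]
    congr 1
    omega
  · rw [Slab_scYX] at h ⊢
    by_cases hp : (i + j) % 2 = 0
    · rw [if_pos hp, Slab_symW, Slab_symX, Slab_symY, add_comm (w.Y _), Slab_XY w (by omega)]
      congr 1
      push_cast
      omega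
    · rw [if_neg hp] at h
      omega
  · rw [Slab_scYY] at h
    omega
  · rw [Slab_scYR, Slab_symV, Slab_symY, Slab_symR, Slab_YR]
    congr 1
    omega
  · rw [Slab_scRX, Slab_symU, Slab_symX, Slab_symR, add_comm (w.R _), Slab_XR]
    congr 1
    omega
  · rw [Slab_scRY, Slab_symV, Slab_symY, Slab_symR, add_comm (w.R _), Slab_YR]
    congr 1
    omega
  · rw [Slab_scRR] at h
    omega

theorem Slab_code (o : ℕ) (x : Lab) (h : 0 < x.code o) (w : Wall) (t : ℤ) :
    symL w t (x.code o) = x.at w (t + o) := by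
  cases x with
  | X i =>
    have h' : 0 < (3 * ((o : ℤ) + i) + 1).toNat := h
    obtain ⟨n, hn⟩ : ∃ n : ℕ, (n : ℤ) = o + i := ⟨(o + i : ℤ).toNat, by omega⟩
    have h1 : Lab.code o (.X i) = 3 * n + 1 := by
      show (3 * ((o : ℤ) + i) + 1).toNat = 3 * n + 1
      omega
    rw [h1, Slab_symX, hn, ← add_assoc]
    rfl
  | Y i =>
    have h' : 0 < (3 * ((o : ℤ) + i) + 2).toNat := h
    obtain ⟨n, hn⟩ : ∃ n : ℕ, (n : ℤ) = o + i := ⟨(o + i : ℤ).toNat, by omega⟩
    have h1 : Lab.code o (.Y i) = 3 * n + 2 := by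
      show (3 * ((o : ℤ) + i) + 2).toNat = 3 * n + 2
      omega
    rw [h1, Slab_symY, hn, ← add_assoc]
    rfl
  | R i =>
    have h' : 0 < (3 * ((o : ℤ) + i) + 3).toNat := h
    obtain ⟨n, hn⟩ : ∃ n : ℕ, (n : ℤ) = o + i := ⟨(o + i : ℤ).toNat, by omega⟩
    have h1 : Lab.code o (.R i) = 3 * n + 3 := by
      show (3 * ((o : ℤ) + i) + 3).toNat = 3 * n + 3
      omega
    rw [h1, Slab_symR, hn, ← add_assoc]
    rfl

/-! ### slabs as images of lists of codes -/

theorem Slab_coe (T : ℕ) : (do let a ← List.range T; pure (a : ℤ) : List ℤ) =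
    (List.range T).map fun i : ℕ => (i : ℤ) := by
  rw [List.map_eq_flatMap]
  rfl

theorem Slab_slabL (w : Wall) (t : ℤ) (T : ℕ) : slabL w t T =
    (((List.range T).flatMap fun i : ℕ => [w.X (t + i), w.Y (t + i), w.R (t + i)] : List A) :
      Multiset A) := by
  unfold slabL
  rw [Slab_coe, List.flatMap_map]

theorem Slab_slabS (w : Wall) (t : ℤ) (T : ℕ) : slabS w t T =
    (((List.range T).flatMap fun i : ℕ => [w.W (t + i), w.U (t + i), w.V (t + i)] : List A) :
      Multiset A) := by
  unfold slabS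
  rw [Slab_coe, List.flatMap_map]

theorem Slab_labels (w : Wall) (t : ℤ) (T : ℕ) :
    (((List.range (3 * T)).map (· + 1)).map (symL w t) : List A) =
      (List.range T).flatMap fun i : ℕ => [w.X (t + i), w.Y (t + i), w.R (t + i)] := by
  induction T with
  | zero => rfl
  | succ T ih =>
    rw [List.range_succ, List.flatMap_append, ← ih,
      show 3 * (T + 1) = 3 * T + 1 + 1 + 1 by ring, List.range_succ, List.range_succ,
      List.range_succ]
    simp only [List.map_append, List.map_cons, List.map_nil, List.flatMap_cons, List.flatMap_nil,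
      List.append_nil, List.append_assoc, List.cons_append, List.nil_append]
    rw [Slab_symX, Slab_symY, Slab_symR]

theorem Slab_sums_range (w : Wall) (t : ℤ) (T : ℕ) :
    (((List.range T).flatMap fun i =>
      [3 * (i + 64) + 4161, 3 * (i + 64) + 4162, 3 * (i + 64) + 4163]).map (symS w t) : List A) =
      (List.range T).flatMap fun i : ℕ => [w.W (t + i), w.U (t + i), w.V (t + i)] := by
  have key : (fun i : ℕ => List.map (symS w t)
      [3 * (i + 64) + 4161, 3 * (i + 64) + 4162, 3 * (i + 64) + 4163]) =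
      fun i : ℕ => [w.W (t + i), w.U (t + i), w.V (t + i)] := by
    funext i
    have h : t + ((i + 64 : ℕ) : ℤ) - 64 = t + i := by
      push_cast
      ring
    rw [List.map_cons, List.map_cons, List.map_cons, List.map_nil,
      add_comm (3 * (i + 64)) 4161, add_comm (3 * (i + 64)) 4162, add_comm (3 * (i + 64)) 4163,
      Slab_symW, Slab_symU, Slab_symV, h]
  rw [List.map_flatMap, key]

theorem Slab_mapU (w : Wall) (t : ℤ) (o : ℕ) (l : List ℤ) (h : ∀ e ∈ l, -40 < e) :
    (l.map fun e => (3 * ((o : ℤ) + e + 64) + 4162).toNat).map (symS w t) =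
      l.map fun e => w.U (t + o + e) := by
  rw [List.map_map]
  refine List.map_congr_left fun e he => ?_
  have h1 := h e he
  obtain ⟨n, hn⟩ : ∃ n : ℕ, (n : ℤ) = o + e + 64 := ⟨(o + e + 64 : ℤ).toNat, by omega⟩
  have h2 : (3 * ((o : ℤ) + e + 64) + 4162).toNat = 4162 + 3 * n := by omega
  rw [Function.comp_apply, h2, Slab_symU, hn]
  congr 1
  ring

theorem Slab_mapV (w : Wall) (t : ℤ) (o : ℕ) (l : List ℤ) (h : ∀ e ∈ l, -40 < e) :
    (l.map fun e => (3 * ((o : ℤ) + e + 64) + 4163).toNat).map (symS w t) =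
      l.map fun e => w.V (t + o + e) := by
  rw [List.map_map]
  refine List.map_congr_left fun e he => ?_
  have h1 := h e he
  obtain ⟨n, hn⟩ : ∃ n : ℕ, (n : ℤ) = o + e + 64 := ⟨(o + e + 64 : ℤ).toNat, by omega⟩
  have h2 : (3 * ((o : ℤ) + e + 64) + 4163).toNat = 4163 + 3 * n := by omega
  rw [Function.comp_apply, h2, Slab_symV, hn]
  congr 1
  ring

/-! ### weights, lengths, adjacent sums -/

theorem Slab_wtL_append (l l' : List ℕ) : wtL (l ++ l') = wtL l + wtL l' := by
  unfold wtL
  rw [List.map_append, List.sum_append]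

theorem Slab_wtS_append (l l' : List ℕ) : wtS (l ++ l') = wtS l + wtS l' := by
  unfold wtS
  rw [List.map_append, List.sum_append]

theorem Slab_wtS_single (x : ℕ) : wtS [x] = 2 ^ x := by
  unfold wtS
  simp

theorem Slab_lsum (l : List ℕ) : lsum l = l.sum := by
  induction l with
  | nil => rfl
  | cons x l ih =>
    rw [List.sum_cons, ← ih]
    rfl

theorem Slab_adjc_length (sc : ℕ → ℕ → ℕ) (l : List ℕ) :
    ∀ a, (adjc sc (a :: l)).length = l.length := by
  induction l with
  | nil => intro a; rfl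
  | cons b l ih =>
    intro a
    show (sc a b :: adjc sc (b :: l)).length = (b :: l).length
    rw [List.length_cons, ih b, List.length_cons]

theorem Slab_adjc_length' (sc : ℕ → ℕ → ℕ) (a b : ℕ) (l : List ℕ) :
    (adjc sc (a :: l ++ [b])).length = l.length + 1 := by
  show (adjc sc (a :: (l ++ [b]))).length = l.length + 1
  rw [Slab_adjc_length, List.length_append, List.length_singleton]

theorem Slab_cycc_length (sc : ℕ → ℕ → ℕ) (c : List ℕ) : (cycc sc c).length = c.length := by
  cases c with
  | nil => rfl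
  | cons a l => exact Slab_adjc_length' sc a a l

theorem Slab_adjc_ge : ∀ c : List ℕ, ∀ s ∈ adjc scW c, 4160 ≤ s
  | [], s, hs => by
    exact absurd hs List.not_mem_nil
  | [_], s, hs => by
    exact absurd hs List.not_mem_nil
  | a :: b :: l, s, hs => by
    have hs' : s ∈ scW a b :: adjc scW (b :: l) := hs
    rcases List.mem_cons.1 hs' with h | h
    · rw [h]
      exact Slab_ge a b
    · exact Slab_adjc_ge (b :: l) s h

theorem Slab_cycc_ge (c : List ℕ) : ∀ s ∈ cycc scW c, 4160 ≤ s := by
  cases c with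
  | nil =>
    intro s hs
    exact absurd hs List.not_mem_nil
  | cons a l => exact Slab_adjc_ge (a :: l ++ [a])

theorem Slab_flat_ge (cs : List (List ℕ)) : ∀ s ∈ (cs.map (cycc scW)).flatten, 4160 ≤ s := by
  intro s hs
  obtain ⟨l, hl, hs'⟩ := List.mem_flatten.1 hs
  obtain ⟨c, _, rfl⟩ := List.mem_map.1 hl
  exact Slab_cycc_ge c s hs'

theorem Slab_flat_length (sc : ℕ → ℕ → ℕ) (cs : List (List ℕ)) :
    ((cs.map (cycc sc)).flatten).length = cs.flatten.length := by
  rw [List.length_flatten, List.length_flatten, List.map_map]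
  congr 1
  refine List.map_congr_left fun c _ => ?_
  exact Slab_cycc_length sc c

theorem Slab_adj (w : Wall) (t : ℤ) : ∀ c : List ℕ, (∀ x ∈ c, 0 < x ∧ x < 190) →
    (∀ s ∈ adjc scW c, 4160 < s) → (adjc scW c).map (symS w t) = adj (c.map (symL w t))
  | [], _, _ => rfl
  | [_], _, _ => rfl
  | a :: b :: l, hc, hs => by
    have ha := hc a List.mem_cons_self
    have hb := hc b (List.mem_cons_of_mem _ List.mem_cons_self)
    have h1 := Slab_adj w t (b :: l) (fun x hx => hc x (List.mem_cons_of_mem _ hx))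
      (fun s h => hs s (List.mem_cons_of_mem _ h))
    have h2 : 4160 < scW a b := hs _ List.mem_cons_self
    show symS w t (scW a b) :: (adjc scW (b :: l)).map (symS w t) =
      (symL w t a + symL w t b) :: adj ((b :: l).map (symL w t))
    rw [h1, Slab_sc ha.1 ha.2 hb.1 hb.2 h2]

theorem Slab_adj' (w : Wall) (t : ℤ) {a b : ℕ} {l : List ℕ} (ha : 0 < a ∧ a < 190)
    (hb : 0 < b ∧ b < 190) (hl : ∀ x ∈ l, 0 < x ∧ x < 190)
    (hs : ∀ s ∈ adjc scW (a :: l ++ [b]), 4160 < s) :
    (adjc scW (a :: l ++ [b])).map (symS w t) =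
      adj (symL w t a :: l.map (symL w t) ++ [symL w t b]) := by
  rw [Slab_adj w t (a :: l ++ [b]) (fun x hx => by
    rcases List.mem_append.1 hx with h | h
    · rcases List.mem_cons.1 h with rfl | h
      · exact ha
      · exact hl x h
    · rw [List.mem_singleton.1 h]
      exact hb) hs]
  rw [List.map_append, List.map_cons]
  rfl

theorem Slab_cyc (w : Wall) (t : ℤ) (c : List ℕ) (hc : ∀ x ∈ c, 0 < x ∧ x < 190)
    (hs : ∀ s ∈ cycc scW c, 4160 < s) : (cycc scW c).map (symS w t) = cyc (c.map (symL w t)) := by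
  cases c with
  | nil => rfl
  | cons a l =>
    have ha := hc a List.mem_cons_self
    exact Slab_adj' w t ha ha (fun x hx => hc x (List.mem_cons_of_mem _ hx)) hs

theorem Slab_sums (w : Wall) (t : ℤ) (cs : List (List ℕ))
    (hc : ∀ x ∈ cs.flatten, 0 < x ∧ x < 190)
    (hs : ∀ s ∈ (cs.map (cycc scW)).flatten, 4160 < s) :
    (((cs.map (cycc scW)).flatten.map (symS w t) : List A) : Multiset A) =
      sums (cs.map (List.map (symL w t))) := by
  unfold sums
  rw [List.map_flatten, List.map_map, List.map_map]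
  congr 2
  refine List.map_congr_left fun c hc' => ?_
  refine Slab_cyc w t c (fun x hx => hc x (List.mem_flatten.2 ⟨c, hc', hx⟩)) fun s h => ?_
  exact hs s (List.mem_flatten.2 ⟨cycc scW c, List.mem_map.2 ⟨c, hc', rfl⟩, h⟩)

theorem Slab_labs (w : Wall) (t : ℤ) (cs : List (List ℕ)) :
    labs (cs.map (List.map (symL w t))) = ((cs.flatten.map (symL w t) : List A) : Multiset A) := by
  unfold labs
  rw [List.map_flatten]

theorem Slab_lens (w : Wall) (t : ℤ) (cs : List (List ℕ)) :
    lens (cs.map (List.map (symL w t))) =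
      (((cs.map List.length).reverse ++ [] : List ℕ) : Multiset ℕ) := by
  unfold lens
  rw [List.map_map, List.append_nil]
  refine (Multiset.coe_eq_coe.2 ?_).trans (Multiset.coe_eq_coe.2 (List.reverse_perm _).symm)
  have h : (List.map (List.length ∘ List.map (symL w t)) cs) = cs.map List.length := by
    refine List.map_congr_left fun c _ => ?_
    exact List.length_map _
  rw [h]

theorem Slab_long (w : Wall) (t : ℤ) (cs : List (List ℕ)) (h : ∀ c ∈ cs, 3 ≤ c.length) :
    Long (cs.map (List.map (symL w t))) := by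
  intro c hc
  obtain ⟨c', hc', rfl⟩ := List.mem_map.1 hc
  rw [List.length_map]
  exact h c' hc'

theorem Slab_lsum_len (cs : List (List ℕ)) :
    lsum ((cs.map List.length).reverse ++ []) = cs.flatten.length := by
  rw [Slab_lsum, List.append_nil, List.sum_reverse, List.length_flatten]

/-! ### the parameters -/

theorem Slab_ok {ν ν' : Node} {T : ℕ} {lo ro : Bool} (hok : okW ν ν' T lo ro = true) :
    ((reqW ν ν' T ro ++ (ν'.msc T ++ ν.exc 0)).Perm
      (((List.range T).flatMap fun i =>
        [3 * (i + 64) + 4161, 3 * (i + 64) + 4162, 3 * (i + 64) + 4163])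
      ++ ν'.exc T ++ ν.msc 0 ++ (if ro then [scW (ν'.u.code T) (ν'.v.code T)] else []))) ∧
    (reqW ν ν' T ro).Nodup ∧ 3 * T < 180 ∧
    (reqW ν ν' T ro).length = 3 * T + (if ro then 1 else 0) ∧
    (∀ e ∈ ν'.exU ++ ν'.exV ++ ν'.msU ++ ν'.msV ++ ν.exU ++ ν.exV ++ ν.msU ++ ν.msV,
      -40 < e ∧ e < 40) ∧
    (lo = true → (ν.u.code 0) < 3 * T + 1 ∧ 0 < ν.u.code 0 ∧ (ν.v.code 0) < 3 * T + 1 ∧
      0 < ν.v.code 0 ∧ 4160 < scW (ν.v.code 0) (ν.u.code 0)) ∧
    (ro = true → 3 * T < ν'.u.code T ∧ 3 * T < ν'.v.code T ∧ ν'.u.code T < 190 ∧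
      ν'.v.code T < 190 ∧ 4160 < scW (ν'.u.code T) (ν'.v.code T)) := by
  unfold okW at hok
  rw [Bool.and_eq_true, Bool.and_eq_true, Bool.and_eq_true, Bool.and_eq_true, Bool.and_eq_true,
    Bool.and_eq_true] at hok
  obtain ⟨⟨⟨⟨⟨⟨h1, h2⟩, h3⟩, h4⟩, h5⟩, h6⟩, h7⟩ := hok
  refine ⟨of_decide_eq_true h1, of_decide_eq_true h2, of_decide_eq_true h3, eq_of_beq h4, ?_, ?_,
    ?_⟩
  · intro e he
    have h8 := List.all_eq_true.1 h5 e he
    rw [Bool.and_eq_true] at h8
    exact ⟨of_decide_eq_true h8.1, of_decide_eq_true h8.2⟩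
  · intro hlo
    rw [hlo, if_pos rfl] at h6
    exact of_decide_eq_true h6
  · intro hro
    rw [hro, if_pos rfl] at h7
    exact of_decide_eq_true h7

theorem Slab_toNat_gt {x : ℤ} (h : 4160 < x) : 4160 < x.toNat := by omega

theorem Slab_req_gt {ν ν' : Node} {T : ℕ} {lo ro : Bool} (hok : okW ν ν' T lo ro = true) :
    ∀ s ∈ reqW ν ν' T ro, 4160 < s := by
  obtain ⟨h1, -, -, -, h5, -, h7⟩ := Slab_ok hok
  intro s hs
  have hs' := h1.mem_iff.1 (List.mem_append_left _ hs)
  rcases List.mem_append.1 hs' with h | h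
  · rcases List.mem_append.1 h with h | h
    · rcases List.mem_append.1 h with h | h
      · obtain ⟨i, -, hi⟩ := List.mem_flatMap.1 h
        simp only [List.mem_cons, List.not_mem_nil, or_false] at hi
        omega
      · rcases List.mem_append.1 h with h | h
        · obtain ⟨e, he, rfl⟩ := List.mem_map.1 h
          have h8 := h5 e (by simp only [List.mem_append]; tauto)
          exact Slab_toNat_gt (by omega)
        · obtain ⟨e, he, rfl⟩ := List.mem_map.1 h
          have h8 := h5 e (by simp only [List.mem_append]; tauto)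
          exact Slab_toNat_gt (by omega)
    · rcases List.mem_append.1 h with h | h
      · obtain ⟨e, he, rfl⟩ := List.mem_map.1 h
        have h8 := h5 e (by simp only [List.mem_append]; tauto)
        exact Slab_toNat_gt (by push_cast; omega)
      · obtain ⟨e, he, rfl⟩ := List.mem_map.1 h
        have h8 := h5 e (by simp only [List.mem_append]; tauto)
        exact Slab_toNat_gt (by push_cast; omega)
  · cases ro with
    | false => exact absurd h List.not_mem_nil
    | true =>
      rw [if_pos rfl, List.mem_singleton] at h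
      rw [h]
      exact (h7 rfl).2.2.2.2

theorem Slab_main {ν ν' : Node} {T : ℕ} {lo ro : Bool} (hok : okW ν ν' T lo ro = true)
    {L S : List ℕ} (hL : L.length = 3 * T) (hS : S.length = 3 * T + (if ro then 1 else 0))
    (hL' : ∀ x ∈ L, x < 4096) (hS' : ∀ s ∈ S, 4160 ≤ s)
    (h : wtL L + wtS S = tgtW ν ν' T ro) :
    (∀ x ∈ L, 0 < x ∧ x < 190) ∧ (∀ s ∈ S, 4160 < s) ∧ ∀ (w : Wall) (t : ℤ),
      ((L.map (symL w t) : List A) : Multiset A) = slabL w t T ∧
      ((S.map (symS w t) : List A) : Multiset A) + ν'.ms w (t + T) + ν.ex w t =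
        slabS w t T + ν'.ex w (t + T) + ν.ms w t +
          (if ro then {ν'.u.at w (t + T) + ν'.v.at w (t + T)} else 0) := by
  obtain ⟨h1, h2, h3, h4, h5, h6, h7⟩ := Slab_ok hok
  have hgt := Slab_req_gt hok
  obtain ⟨hp1, hp2⟩ := wt_unique (l₀ := (List.range (3 * T)).map (· + 1))
    (S₀ := reqW ν ν' T ro) hL' (by
      intro x hx
      obtain ⟨i, hi, rfl⟩ := List.mem_map.1 hx
      rw [List.mem_range] at hi
      show i + 1 < 4096
      omega) hS' (fun s hs => (hgt s hs).le) (by
      rw [hL, List.length_map, List.length_range]) (by rw [hS, h4])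
    ((List.nodup_range).map (fun a b hab => by
      have hab' : a + 1 = b + 1 := hab
      omega)) h2 (by rw [hL]; omega) h
  refine ⟨?_, ?_, ?_⟩
  · intro x hx
    obtain ⟨i, hi, rfl⟩ := List.mem_map.1 (hp1.mem_iff.1 hx)
    rw [List.mem_range] at hi
    show 0 < i + 1 ∧ i + 1 < 190
    omega
  · intro s hs
    exact hgt s (hp2.mem_iff.1 hs)
  · intro w t
    refine ⟨?_, ?_⟩
    · rw [Multiset.coe_eq_coe.2 (hp1.map (symL w t)), Slab_labels, Slab_slabL]
    · have e1 : ((S.map (symS w t) : List A) : Multiset A) =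
          (((reqW ν ν' T ro).map (symS w t) : List A) : Multiset A) :=
        Multiset.coe_eq_coe.2 (hp2.map (symS w t))
      have e2 := Multiset.coe_eq_coe.2 (h1.map (symS w t))
      rw [List.map_append, List.map_append, List.map_append, List.map_append, List.map_append,
        Slab_sums_range] at e2
      have f1 : (ν'.msc T).map (symS w t) = (ν'.msU.map fun e => w.U (t + T + e)) ++
          (ν'.msV.map fun e => w.V (t + T + e)) := by
        unfold Node.msc
        rw [List.map_append, Slab_mapU w t T ν'.msU, Slab_mapV w t T ν'.msV]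
        · intro e he
          exact (h5 e (by simp only [List.mem_append]; tauto)).1
        · intro e he
          exact (h5 e (by simp only [List.mem_append]; tauto)).1
      have f2 : (ν'.exc T).map (symS w t) = (ν'.exU.map fun e => w.U (t + T + e)) ++
          (ν'.exV.map fun e => w.V (t + T + e)) := by
        unfold Node.exc
        rw [List.map_append, Slab_mapU w t T ν'.exU, Slab_mapV w t T ν'.exV]
        · intro e he
          exact (h5 e (by simp only [List.mem_append]; tauto)).1
        · intro e he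
          exact (h5 e (by simp only [List.mem_append]; tauto)).1
      have f3 : (ν.msc 0).map (symS w t) = (ν.msU.map fun e => w.U (t + e)) ++
          (ν.msV.map fun e => w.V (t + e)) := by
        unfold Node.msc
        rw [List.map_append, Slab_mapU w t 0 ν.msU, Slab_mapV w t 0 ν.msV]
        · simp only [Nat.cast_zero, add_zero]
        · intro e he
          exact (h5 e (by simp only [List.mem_append]; tauto)).1
        · intro e he
          exact (h5 e (by simp only [List.mem_append]; tauto)).1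
      have f4 : (ν.exc 0).map (symS w t) = (ν.exU.map fun e => w.U (t + e)) ++
          (ν.exV.map fun e => w.V (t + e)) := by
        unfold Node.exc
        rw [List.map_append, Slab_mapU w t 0 ν.exU, Slab_mapV w t 0 ν.exV]
        · simp only [Nat.cast_zero, add_zero]
        · intro e he
          exact (h5 e (by simp only [List.mem_append]; tauto)).1
        · intro e he
          exact (h5 e (by simp only [List.mem_append]; tauto)).1
      have f5 : (((if ro then [scW (ν'.u.code T) (ν'.v.code T)] else []).map (symS w t) :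
          List A) : Multiset A) =
          (if ro then {ν'.u.at w (t + T) + ν'.v.at w (t + T)} else 0) := by
        cases ro with
        | false => rfl
        | true =>
          obtain ⟨g1, g2, g3, g4, g5⟩ := h7 rfl
          rw [if_pos rfl, if_pos rfl, List.map_cons, List.map_nil,
            Slab_sc (by omega) g3 (by omega) g4 g5, Slab_code T ν'.u (by omega),
            Slab_code T ν'.v (by omega)]
          rfl
      rw [f1, f2, f3, f4] at e2
      simp only [← Multiset.coe_add] at e2
      rw [f5] at e2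
      rw [e1]
      have g1 : ν'.ms w (t + T) = (((ν'.msU.map fun e => w.U (t + T + e)) : List A) : Multiset A) +
          (((ν'.msV.map fun e => w.V (t + T + e)) : List A) : Multiset A) := rfl
      have g2 : ν'.ex w (t + T) = (((ν'.exU.map fun e => w.U (t + T + e)) : List A) : Multiset A) +
          (((ν'.exV.map fun e => w.V (t + T + e)) : List A) : Multiset A) := rfl
      have g3 : ν.ms w t = (((ν.msU.map fun e => w.U (t + e)) : List A) : Multiset A) +
          (((ν.msV.map fun e => w.V (t + e)) : List A) : Multiset A) := rfl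
      have g4 : ν.ex w t = (((ν.exU.map fun e => w.U (t + e)) : List A) : Multiset A) +
          (((ν.exV.map fun e => w.V (t + e)) : List A) : Multiset A) := rfl
      rw [← g1, ← g2, ← g3, ← g4] at e2
      rw [add_assoc, e2, Slab_slabS]

theorem pcCC_sound {ν ν' : Node} {T d : ℕ} {cb : List ℕ → Bool} (hok : okW ν ν' T false false = true)
    (h : pcCC (tgtW ν ν' T false) (3 * T) cb d = true) :
    ∃ ls : List ℕ, cb ls = true ∧ SCC ν ν' T (ls : Multiset ℕ) := by
  obtain ⟨cs, h1, h2, h3⟩ := cycs_spec h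
  simp only [Bool.and_eq_true, Nat.beq_eq] at h3
  obtain ⟨h4, h5, h6⟩ := h3
  rw [Slab_lsum_len] at h5
  rw [zero_add] at h4
  obtain ⟨m1, m2, m3⟩ := Slab_main hok h5 (by rw [Slab_flat_length, h5]; simp) (by
    intro x hx
    obtain ⟨c, hc, hx'⟩ := List.mem_flatten.1 hx
    exact h2 c hc x hx') (Slab_flat_ge cs) h4
  refine ⟨_, h6, fun w t => ⟨cs.map (List.map (symL w t)), Slab_lens w t cs, Slab_long w t cs h1,
    ?_, ?_⟩⟩
  · rw [Slab_labs]
    exact (m3 w t).1
  · rw [← Slab_sums w t cs m1 m2, (m3 w t).2]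
    simp
theorem pcCO_sound {ν ν' : Node} {T d : ℕ} {cb : ℕ → List ℕ → Bool}
    (hok : okW ν ν' T false true = true)
    (h : pcCO (tgtW ν ν' T true) (3 * T) (ν'.u.code T) (ν'.v.code T) cb d = true) :
    ∃ (p : ℕ) (ls : List ℕ), cb p ls = true ∧ SCO ν ν' T (ls : Multiset ℕ) p := by
  obtain ⟨l, d', hl, h0⟩ := comp_spec h
  obtain ⟨cs, h1, h2, h3⟩ := cycs_spec h0
  simp only [Bool.and_eq_true, Nat.beq_eq, Nat.ble_eq, Nat.add_eq] at h3
  obtain ⟨h4, h5, h6, h7⟩ := h3
  rw [Slab_lsum_len] at h5
  rw [zero_add] at h6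
  obtain ⟨-, -, hT, -, -, -, hro⟩ := Slab_ok hok
  obtain ⟨g1, g2, g3, g4, g5⟩ := hro rfl
  obtain ⟨m1, m2, m3⟩ := Slab_main hok (L := l ++ cs.flatten)
    (S := adjc scW (ν'.u.code T :: l ++ [ν'.v.code T]) ++ (cs.map (cycc scW)).flatten)
    (by rw [List.length_append]; omega)
    (by
      rw [List.length_append, Slab_adjc_length', Slab_flat_length, if_pos rfl]
      omega)
    (by
      intro x hx
      rcases List.mem_append.1 hx with hx | hx
      · exact hl x hx
      · obtain ⟨c, hc, hx'⟩ := List.mem_flatten.1 hx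
        exact h2 c hc x hx')
    (by
      intro s hs
      rcases List.mem_append.1 hs with hs | hs
      · exact Slab_adjc_ge _ s hs
      · exact Slab_flat_ge cs s hs)
    (by
      rw [Slab_wtL_append, Slab_wtS_append, ← h4]
      ring)
  refine ⟨_, _, h7, fun w t => ⟨cs.map (List.map (symL w t)), l.map (symL w t), Slab_lens w t cs,
    Slab_long w t cs h1, ?_, ?_, ?_, ?_⟩⟩
  · rw [List.length_map, zero_add]
  · omega
  · rw [Slab_labs, ← (m3 w t).1, List.map_append, ← Multiset.coe_add, add_comm]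
  · have e1 := (m3 w t).2
    rw [List.map_append, ← Multiset.coe_add,
      Slab_adj' w t ⟨by omega, g3⟩ ⟨by omega, g4⟩
        (fun x hx => m1 x (List.mem_append_left _ hx))
        (fun s hs => m2 s (List.mem_append_left _ hs)),
      Slab_sums w t cs (fun x hx => m1 x (List.mem_append_right _ hx))
        (fun s hs => m2 s (List.mem_append_right _ hs)),
      Slab_code T ν'.u (by omega), Slab_code T ν'.v (by omega), if_pos rfl] at e1
    rw [add_comm (sums _), e1]
theorem pcOC_sound {ν ν' : Node} {T d : ℕ} {cb : ℕ → List ℕ → Bool}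
    (hok : okW ν ν' T true false = true)
    (h : pcOC (tgtW ν ν' T false) (3 * T) (ν.u.code 0) (ν.v.code 0) cb d = true) :
    ∃ (r : ℕ) (ls : List ℕ), cb r ls = true ∧ SOC ν ν' T (ls : Multiset ℕ) r := by
  obtain ⟨l, d', hl, h0⟩ := comp_spec h
  obtain ⟨cs, h1, h2, h3⟩ := cycs_spec h0
  simp only [Bool.and_eq_true, Nat.beq_eq, Nat.ble_eq, Nat.add_eq] at h3
  obtain ⟨h4, h5, h6, h7⟩ := h3
  rw [Slab_lsum_len] at h5
  obtain ⟨-, -, hT, -, -, hlo, -⟩ := Slab_ok hok
  obtain ⟨g1, g2, g3, g4, g5⟩ := hlo rfl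
  obtain ⟨m1, m2, m3⟩ := Slab_main hok
    (L := [ν.u.code 0, ν.v.code 0] ++ (l ++ cs.flatten))
    (S := [scW (ν.v.code 0) (ν.u.code 0)] ++
      (adjc scW (ν.v.code 0 :: l ++ [ν.u.code 0]) ++ (cs.map (cycc scW)).flatten))
    (by
      rw [List.length_append, List.length_append]
      show 2 + (l.length + cs.flatten.length) = 3 * T
      omega)
    (by
      rw [List.length_append, List.length_append, Slab_adjc_length', Slab_flat_length]
      show 1 + (l.length + 1 + cs.flatten.length) = 3 * T + 0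
      omega)
    (by
      intro x hx
      rcases List.mem_append.1 hx with hx | hx
      · simp only [List.mem_cons, List.not_mem_nil, or_false] at hx
        omega
      rcases List.mem_append.1 hx with hx | hx
      · exact hl x hx
      · obtain ⟨c, hc, hx'⟩ := List.mem_flatten.1 hx
        exact h2 c hc x hx')
    (by
      intro s hs
      rcases List.mem_append.1 hs with hs | hs
      · rw [List.mem_singleton.1 hs]
        exact Slab_ge _ _
      rcases List.mem_append.1 hs with hs | hs
      · exact Slab_adjc_ge _ s hs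
      · exact Slab_flat_ge cs s hs)
    (by
      rw [Slab_wtL_append, Slab_wtL_append, Slab_wtS_append, Slab_wtS_append, Slab_wtS_single,
        ← h4]
      ring)
  have hu : 0 < ν.u.code 0 ∧ ν.u.code 0 < 190 := ⟨g2, by omega⟩
  have hv : 0 < ν.v.code 0 ∧ ν.v.code 0 < 190 := ⟨g4, by omega⟩
  have cu : ∀ (w : Wall) (t : ℤ), symL w t (ν.u.code 0) = ν.u.at w t := fun w t => by
    rw [Slab_code 0 ν.u g2, Nat.cast_zero, add_zero]
  have cv : ∀ (w : Wall) (t : ℤ), symL w t (ν.v.code 0) = ν.v.at w t := fun w t => by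
    rw [Slab_code 0 ν.v g4, Nat.cast_zero, add_zero]
  refine ⟨_, _, h7, fun w t => ⟨cs.map (List.map (symL w t)), l.map (symL w t), Slab_lens w t cs,
    Slab_long w t cs h1, ?_, ?_, ?_, ?_⟩⟩
  · rw [List.length_map, add_comm]
  · rw [List.length_map]
    omega
  · rw [Slab_labs, ← (m3 w t).1, ← cu w t, ← cv w t]
    simp only [List.map_append, List.map_cons, List.map_nil, ← Multiset.coe_add,
      ← Multiset.cons_coe, Multiset.coe_nil, List.cons_append]
    simp only [← Multiset.singleton_add]
    abel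
  · have e1 := (m3 w t).2
    rw [List.map_append, List.map_append, ← Multiset.coe_add, ← Multiset.coe_add,
      Slab_adj' w t hv hu
        (fun x hx => m1 x (List.mem_append_right _ (List.mem_append_left _ hx)))
        (fun s hs => m2 s (List.mem_append_right _ (List.mem_append_left _ hs))),
      Slab_sums w t cs (fun x hx => m1 x (List.mem_append_right _ (List.mem_append_right _ hx)))
        (fun s hs => m2 s (List.mem_append_right _ (List.mem_append_right _ hs))),
      List.map_cons, List.map_nil, Slab_sc hv.1 hv.2 hu.1 hu.2 g5, cu, cv] at e1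
    have e2 : (((if false = true then {ν'.u.at w (t + T) + ν'.v.at w (t + T)} else 0) :
      Multiset A)) = 0 := rfl
    rw [e2, add_zero] at e1
    rw [← e1, Multiset.coe_singleton, add_comm (ν.v.at w t)]
    abel
theorem pcOO_sound {ν ν' : Node} {T d : ℕ} {cb : ℕ → ℕ → List ℕ → Bool}
    (hok : okW ν ν' T true true = true)
    (h : pcOO (tgtW ν ν' T true) (3 * T) (ν.u.code 0) (ν.v.code 0) (ν'.u.code T) (ν'.v.code T) cb d
      = true) :
    ∃ (r p : ℕ) (ls : List ℕ), cb r p ls = true ∧ SOO ν ν' T (ls : Multiset ℕ) r p := by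
  obtain ⟨l, d₁, hl, h00⟩ := comp_spec h
  obtain ⟨l', d', hl', h0⟩ := comp_spec h00
  obtain ⟨cs, h1, h2, h3⟩ := cycs_spec h0
  simp only [Bool.and_eq_true, Nat.beq_eq, Nat.ble_eq, Nat.add_eq] at h3
  obtain ⟨h4, h5, h6, h6', h7⟩ := h3
  rw [Slab_lsum_len] at h5
  obtain ⟨-, -, hT, -, -, hlo, hro⟩ := Slab_ok hok
  obtain ⟨g1, g2, g3, g4, g5⟩ := hlo rfl
  obtain ⟨k1, k2, k3, k4, k5⟩ := hro rfl
  obtain ⟨m1, m2, m3⟩ := Slab_main hok
    (L := [ν.u.code 0, ν.v.code 0] ++ (l ++ (l' ++ cs.flatten)))
    (S := [scW (ν.v.code 0) (ν.u.code 0)] ++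
      (adjc scW (ν.v.code 0 :: l ++ [ν.u.code 0]) ++
        (adjc scW (ν'.u.code T :: l' ++ [ν'.v.code T]) ++ (cs.map (cycc scW)).flatten)))
    (by
      rw [List.length_append, List.length_append, List.length_append]
      show 2 + (l.length + (l'.length + cs.flatten.length)) = 3 * T
      omega)
    (by
      rw [List.length_append, List.length_append, List.length_append, Slab_adjc_length',
        Slab_adjc_length', Slab_flat_length]
      show 1 + (l.length + 1 + (l'.length + 1 + cs.flatten.length)) = 3 * T + 1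
      omega)
    (by
      intro x hx
      rcases List.mem_append.1 hx with hx | hx
      · simp only [List.mem_cons, List.not_mem_nil, or_false] at hx
        omega
      rcases List.mem_append.1 hx with hx | hx
      · exact hl x hx
      rcases List.mem_append.1 hx with hx | hx
      · exact hl' x hx
      · obtain ⟨c, hc, hx'⟩ := List.mem_flatten.1 hx
        exact h2 c hc x hx')
    (by
      intro s hs
      rcases List.mem_append.1 hs with hs | hs
      · rw [List.mem_singleton.1 hs]
        exact Slab_ge _ _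
      rcases List.mem_append.1 hs with hs | hs
      · exact Slab_adjc_ge _ s hs
      rcases List.mem_append.1 hs with hs | hs
      · exact Slab_adjc_ge _ s hs
      · exact Slab_flat_ge cs s hs)
    (by
      rw [Slab_wtL_append, Slab_wtL_append, Slab_wtL_append, Slab_wtS_append, Slab_wtS_append,
        Slab_wtS_append, Slab_wtS_single, ← h4]
      ring)
  have hu : 0 < ν.u.code 0 ∧ ν.u.code 0 < 190 := ⟨g2, by omega⟩
  have hv : 0 < ν.v.code 0 ∧ ν.v.code 0 < 190 := ⟨g4, by omega⟩
  have cu : ∀ (w : Wall) (t : ℤ), symL w t (ν.u.code 0) = ν.u.at w t := fun w t => by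
    rw [Slab_code 0 ν.u g2, Nat.cast_zero, add_zero]
  have cv : ∀ (w : Wall) (t : ℤ), symL w t (ν.v.code 0) = ν.v.at w t := fun w t => by
    rw [Slab_code 0 ν.v g4, Nat.cast_zero, add_zero]
  refine ⟨_, _, _, h7, fun w t => ⟨cs.map (List.map (symL w t)), l.map (symL w t),
    l'.map (symL w t), Slab_lens w t cs, Slab_long w t cs h1, ?_, ?_, ?_, ?_, ?_, ?_⟩⟩
  · rw [List.length_map, add_comm]
  · rw [List.length_map]
    omega
  · rw [List.length_map, zero_add]
  · omega
  · rw [Slab_labs, ← (m3 w t).1, ← cu w t, ← cv w t]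
    simp only [List.map_append, List.map_cons, List.map_nil, ← Multiset.coe_add,
      ← Multiset.cons_coe, Multiset.coe_nil, List.cons_append]
    simp only [← Multiset.singleton_add]
    abel
  · have e1 := (m3 w t).2
    rw [List.map_append, List.map_append, List.map_append, ← Multiset.coe_add,
      ← Multiset.coe_add, ← Multiset.coe_add,
      Slab_adj' w t hv hu
        (fun x hx => m1 x (List.mem_append_right _ (List.mem_append_left _ hx)))
        (fun s hs => m2 s (List.mem_append_right _ (List.mem_append_left _ hs))),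
      Slab_adj' w t ⟨by omega, k3⟩ ⟨by omega, k4⟩
        (fun x hx => m1 x (List.mem_append_right _ (List.mem_append_right _
          (List.mem_append_left _ hx))))
        (fun s hs => m2 s (List.mem_append_right _ (List.mem_append_right _
          (List.mem_append_left _ hs)))),
      Slab_sums w t cs (fun x hx => m1 x (List.mem_append_right _ (List.mem_append_right _
          (List.mem_append_right _ hx))))
        (fun s hs => m2 s (List.mem_append_right _ (List.mem_append_right _
          (List.mem_append_right _ hs)))),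
      List.map_cons, List.map_nil, Slab_sc hv.1 hv.2 hu.1 hu.2 g5, cu, cv,
      Slab_code T ν'.u (by omega), Slab_code T ν'.v (by omega), if_pos rfl] at e1
    rw [← e1, Multiset.coe_singleton, add_comm (ν.v.at w t)]
    abel
theorem pcOT_sound {ν ν' : Node} {T d a b : ℕ} {cb : ℕ → List ℕ → Bool}
    (hok : okW ν ν' T true true = true)
    (hab : (a = ν.u.code 0 ∧ b = ν.v.code 0) ∨ (a = ν.v.code 0 ∧ b = ν.u.code 0))
    (h : pcOT (tgtW ν ν' T true) (3 * T) a b (ν'.u.code T) (ν'.v.code T) cb d = true) :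
    ∃ (q : ℕ) (ls : List ℕ), cb q ls = true ∧ SOT ν ν' T (ls : Multiset ℕ) q := by
  obtain ⟨l, d₁, hl, h00⟩ := comp_spec h
  obtain ⟨l', d', hl', h0⟩ := comp_spec h00
  obtain ⟨cs, h1, h2, h3⟩ := cycs_spec h0
  simp only [Bool.and_eq_true, Nat.beq_eq, Nat.add_eq] at h3
  obtain ⟨h4, h5, h7⟩ := h3
  rw [Slab_lsum_len] at h5
  obtain ⟨-, -, hT, -, -, hlo, hro⟩ := Slab_ok hok
  obtain ⟨g1, g2, g3, g4, g5⟩ := hlo rfl
  obtain ⟨k1, k2, k3, k4, k5⟩ := hro rfl
  have ha : 0 < a ∧ a < 190 := by
    rcases hab with ⟨h8, h9⟩ | ⟨h8, h9⟩ <;> rw [h8] <;> omega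
  have hb : 0 < b ∧ b < 190 := by
    rcases hab with ⟨h8, h9⟩ | ⟨h8, h9⟩ <;> rw [h9] <;> omega
  obtain ⟨m1, m2, m3⟩ := Slab_main hok
    (L := [a, b] ++ (l ++ (l' ++ cs.flatten)))
    (S := [scW a b] ++
      (adjc scW (ν'.u.code T :: l ++ [a]) ++
        (adjc scW (b :: l' ++ [ν'.v.code T]) ++ (cs.map (cycc scW)).flatten)))
    (by
      rw [List.length_append, List.length_append, List.length_append]
      show 2 + (l.length + (l'.length + cs.flatten.length)) = 3 * T
      omega)
    (by
      rw [List.length_append, List.length_append, List.length_append, Slab_adjc_length',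
        Slab_adjc_length', Slab_flat_length]
      show 1 + (l.length + 1 + (l'.length + 1 + cs.flatten.length)) = 3 * T + 1
      omega)
    (by
      intro x hx
      rcases List.mem_append.1 hx with hx | hx
      · simp only [List.mem_cons, List.not_mem_nil, or_false] at hx
        omega
      rcases List.mem_append.1 hx with hx | hx
      · exact hl x hx
      rcases List.mem_append.1 hx with hx | hx
      · exact hl' x hx
      · obtain ⟨c, hc, hx'⟩ := List.mem_flatten.1 hx
        exact h2 c hc x hx')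
    (by
      intro s hs
      rcases List.mem_append.1 hs with hs | hs
      · rw [List.mem_singleton.1 hs]
        exact Slab_ge _ _
      rcases List.mem_append.1 hs with hs | hs
      · exact Slab_adjc_ge _ s hs
      rcases List.mem_append.1 hs with hs | hs
      · exact Slab_adjc_ge _ s hs
      · exact Slab_flat_ge cs s hs)
    (by
      rw [Slab_wtL_append, Slab_wtL_append, Slab_wtL_append, Slab_wtS_append, Slab_wtS_append,
        Slab_wtS_append, Slab_wtS_single, ← h4]
      ring)
  have cu : ∀ (w : Wall) (t : ℤ), symL w t (ν.u.code 0) = ν.u.at w t := fun w t => by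
    rw [Slab_code 0 ν.u g2, Nat.cast_zero, add_zero]
  have cv : ∀ (w : Wall) (t : ℤ), symL w t (ν.v.code 0) = ν.v.at w t := fun w t => by
    rw [Slab_code 0 ν.v g4, Nat.cast_zero, add_zero]
  have hgl : ∀ (x y z : A) (k k' : List A) (x' : A),
      ((adj (x :: k ++ y :: z :: k' ++ [x']) : List A) : Multiset A) =
        {y + z} + (((adj (x :: k ++ [y]) : List A) : Multiset A) +
          ((adj (z :: k' ++ [x']) : List A) : Multiset A)) := by
    intro x y z k k' x'
    induction k generalizing x with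
    | nil =>
      show (((x + y) :: (y + z) :: adj (z :: (k' ++ [x'])) : List A) : Multiset A) =
        {y + z} + ((((x + y) :: [] : List A) : Multiset A) +
          ((adj (z :: (k' ++ [x'])) : List A) : Multiset A))
      rw [← Multiset.cons_coe, ← Multiset.cons_coe, ← Multiset.cons_coe, Multiset.coe_nil,
        ← Multiset.singleton_add, ← Multiset.singleton_add (y + z),
        ← Multiset.singleton_add (x + y) 0]
      abel
    | cons x₁ k ih =>
      have e := ih x₁
      show (((x + x₁) :: adj (x₁ :: k ++ y :: z :: k' ++ [x']) : List A) : Multiset A) =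
        {y + z} + ((((x + x₁) :: adj (x₁ :: k ++ [y]) : List A) : Multiset A) +
          ((adj (z :: k' ++ [x']) : List A) : Multiset A))
      rw [← Multiset.cons_coe, ← Multiset.cons_coe, e, ← Multiset.singleton_add (x + x₁),
        ← Multiset.singleton_add (x + x₁)]
      abel
  refine ⟨_, _, h7, fun w t => ⟨cs.map (List.map (symL w t)), l.map (symL w t),
    l'.map (symL w t), symL w t a, symL w t b, ?_, Slab_lens w t cs, Slab_long w t cs h1,
    ?_, ?_, ?_⟩⟩
  · rcases hab with ⟨h8, h9⟩ | ⟨h8, h9⟩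
    · left
      rw [h8, h9, cu, cv]
      exact ⟨rfl, rfl⟩
    · right
      rw [h8, h9, cu, cv]
      exact ⟨rfl, rfl⟩
  · rw [List.length_map, List.length_map]
    omega
  · rw [Slab_labs, ← (m3 w t).1]
    simp only [List.map_append, List.map_cons, List.map_nil, ← Multiset.coe_add,
      ← Multiset.cons_coe, Multiset.coe_nil]
    simp only [← Multiset.singleton_add]
    abel
  · have e1 := (m3 w t).2
    rw [List.map_append, List.map_append, List.map_append, ← Multiset.coe_add,
      ← Multiset.coe_add, ← Multiset.coe_add,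
      Slab_adj' w t ⟨by omega, k3⟩ ha
        (fun x hx => m1 x (List.mem_append_right _ (List.mem_append_left _ hx)))
        (fun s hs => m2 s (List.mem_append_right _ (List.mem_append_left _ hs))),
      Slab_adj' w t hb ⟨by omega, k4⟩
        (fun x hx => m1 x (List.mem_append_right _ (List.mem_append_right _
          (List.mem_append_left _ hx))))
        (fun s hs => m2 s (List.mem_append_right _ (List.mem_append_right _
          (List.mem_append_left _ hs)))),
      Slab_sums w t cs (fun x hx => m1 x (List.mem_append_right _ (List.mem_append_right _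
          (List.mem_append_right _ hx))))
        (fun s hs => m2 s (List.mem_append_right _ (List.mem_append_right _
          (List.mem_append_right _ hs)))),
      List.map_cons, List.map_nil,
      Slab_sc ha.1 ha.2 hb.1 hb.2 (m2 _ (List.mem_append_left _ List.mem_cons_self)),
      Slab_code T ν'.u (by omega), Slab_code T ν'.v (by omega), if_pos rfl] at e1
    rw [← e1, Multiset.coe_singleton, hgl]
    abel

end Pool.Agent.helper8.VM
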