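import Pool.Agent.helper8.VM.Walls

set_option autoImplicit false

/-! # MP_be123d_co, block WALL (the three walls are good; ~200 lines)
Replace the sorries in place; proof hints: /team-store/h8_vm_notes.md. -/

namespace Pool.Agent.helper8.VM

theorem goodW1 : GoodWall W1 := sorry
theorem goodW5 : GoodWall W5 := sorry
theorem goodW3 : GoodWall W3 := sorry

end Pool.Agent.helper8.VM
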