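import Pool.Agent.helper8.VM.Defs

set_option autoImplicit false

/-! # MP_be123d_co: the three walls, mirror images of nodes, the two hubs -/

namespace Pool.Agent.helper8.VM

/-- value of a position for the total width `T` -/
def ev (T : ℤ) (a : A) : ℤ := a.1 * T + a.2

/-- the mirror image of a symbolic label -/
def Lab.mirror : Lab → Lab
  | .X i => .Y (-1 - i)
  | .Y i => .X (-1 - i)
  | .R i => .R (-1 - i)

/-- the mirror image of a node -/
def Node.mirror (ν : Node) : Node where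
  exU := ν.msV.map fun m => -1 - m
  msU := ν.exV.map fun m => -1 - m
  exV := ν.msU.map fun m => -1 - m
  msV := ν.exU.map fun m => -1 - m
  u := ν.u.mirror
  v := ν.v.mirror

/-- A wall is good if a left part of size `k` and a mirrored left part of size `k'`
(with `k + k'` odd) fill the (doubled) integers of an interval. -/
def GoodWall (w : Wall) : Prop :=
  ∀ k k' : ℕ, Odd (k + k') → ∃ h : ℕ,
    (leftL w k).map (ev (k + k' + 9)) + (leftL w k').map (fun a => -ev (k + k' + 9) a)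
      = (Finset.Icc (-(h : ℤ)) h).val.map (fun x => 2 * x) ∧
    (leftS w k).map (ev (k + k' + 9)) + (leftS w k').map (fun a => -ev (k + k' + 9) a)
      = (Finset.Icc (-(h : ℤ)) h).val.map (fun x => 2 * x)

/-- the wall for `N ≡ 1 mod 6` -/
def W1 : Wall where
  sP := false
  sQ := true
  tau := 1
  s := 1
  bL := [(2, -2), (-3, 0), (2, 0), (1, 0), (1, -2), (-3, 2), (2, 2), (1, -4), (-2, 4), (1, 2), (1, -6), (-3, 4), (2, 4), (1, -8)]
  bS := [(2, 0), (-1, 0), (3, 0), (-1, 2), (2, -2), (-1, 4), (-2, -2), (3, -2), (-1, 6), (-1, -2), (2, -4), (-1, 8), (-2, -4), (3, -4)]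

/-- the wall for `N ≡ 5 mod 6` -/
def W5 : Wall where
  sP := true
  sQ := false
  tau := -7
  s := -1
  bL := [(1, 2), (-2, -10), (1, 4), (-2, -8), (1, 6), (-3, -10), (1, 0), (-2, -6), (1, 8), (1, -2), (-3, -8), (2, 12), (1, -4), (-2, -4), (1, 10), (1, -6), (-3, -6), (2, 14), (1, -8)]
  bS := [(-1, -2), (-1, -4), (-2, -8), (-1, -6), (-1, 0), (-2, -10), (3, 10), (-1, 2), (-1, -8), (2, 6), (-1, 4), (-2, -12), (3, 8), (-1, 6), (-1, -10), (2, 4), (-1, 8), (-2, -14), (3, 6)]

/-- the wall for `N ≡ 3 mod 6` -/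
def W3 : Wall where
  sP := true
  sQ := true
  tau := 3
  s := 3
  bL := [(-3, 4), (1, 0), (-2, 4), (1, -2), (-3, 6), (2, -2), (1, -4), (-2, 6), (1, -6), (-3, 8), (2, 0), (1, -8)]
  bS := [(-2, 6), (-1, 0), (-2, 4), (3, -4), (-1, 2), (-1, 4), (-2, 2), (3, -6), (-1, 6), (-1, 8), (-2, 0), (3, -8)]


/-- the hub `Q` -/
def Q : Node := ⟨[0, 1, 3], [-3, -1], [], [-1], .Y 1, .R 0⟩

/-- the hub `D` -/
def D : Node := ⟨[0, 1, 2], [-2, -1], [0], [-2, -1], .Y 1, .R 0⟩

end Pool.Agent.helper8.VM
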